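import Mathlib

/-!
Basic facts about the integral group ring `ℤ[G]` used for explicit resolutions.
-/

open MonoidAlgebra

namespace Pool.Agent.H5

variable {G : Type*} [Group G]

/-- The group element `g` as an element of the group ring. -/
noncomputable abbrev el (g : G) : MonoidAlgebra ℤ G := MonoidAlgebra.of ℤ G g

lemma el_mul (g h : G) : el (g * h) = el g * el h := map_mul _ _ _

lemma el_one : el (1 : G) = 1 := map_one _

/-- If right multiplication by `y` fixes `r` and `y` has infinite order then `r = 0`. -/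
lemma mul_sub_one_eq_zero {y : G} (hy : ¬ IsOfFinOrder y) {r : MonoidAlgebra ℤ G}
    (h : r * (el y - 1) = 0) : r = 0 := by
  classical
  have h1 : r * single y 1 = r := by
    rw [mul_sub, mul_one, sub_eq_zero] at h; exact h
  have h2 : ∀ g : G, r.coeff (g * y) = r.coeff g := by
    intro g
    have := congrArg (fun x : MonoidAlgebra ℤ G => x.coeff (g * y)) h1
    simp only [MonoidAlgebra.coeff_mul_single_apply] at this
    simpa using this.symm
  have h3 : ∀ (g : G) (n : ℕ), r.coeff (g * y ^ n) = r.coeff g := by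
    intro g n
    induction n with
    | zero => simp
    | succ n ih => rw [pow_succ, ← mul_assoc, h2, ih]
  ext g
  by_contra hg
  have hinj : Function.Injective (fun n : ℕ => g * y ^ n) := by
    intro a b hab
    have := mul_left_cancel hab
    exact (injective_pow_iff_not_isOfFinOrder.2 hy) this
  have hfin : (Set.range (fun n : ℕ => g * y ^ n)).Finite := by
    refine (r.coeff.support.finite_toSet).subset ?_
    rintro _ ⟨n, rfl⟩
    simp only [Finset.mem_coe, Finsupp.mem_support_iff]
    rw [h3]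
    simpa using hg
  exact Set.infinite_range_of_injective hinj hfin

/-- Left version. -/
lemma sub_one_mul_eq_zero {y : G} (hy : ¬ IsOfFinOrder y) {r : MonoidAlgebra ℤ G}
    (h : (el y - 1) * r = 0) : r = 0 := by
  classical
  have h1 : single y 1 * r = r := by
    rw [sub_mul, one_mul, sub_eq_zero] at h; exact h
  have h2 : ∀ g : G, r.coeff (y * g) = r.coeff g := by
    intro g
    have := congrArg (fun x : MonoidAlgebra ℤ G => x.coeff (y * g)) h1
    simp only [MonoidAlgebra.coeff_single_mul_apply] at this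
    simpa using this.symm
  have h3 : ∀ (g : G) (n : ℕ), r.coeff (y ^ n * g) = r.coeff g := by
    intro g n
    induction n with
    | zero => simp
    | succ n ih => rw [pow_succ', mul_assoc, h2, ih]
  ext g
  by_contra hg
  have hinj : Function.Injective (fun n : ℕ => y ^ n * g) := by
    intro a b hab
    have := mul_right_cancel hab
    exact (injective_pow_iff_not_isOfFinOrder.2 hy) this
  have hfin : (Set.range (fun n : ℕ => y ^ n * g)).Finite := by
    refine (r.coeff.support.finite_toSet).subset ?_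
    rintro _ ⟨n, rfl⟩
    simp only [Finset.mem_coe, Finsupp.mem_support_iff]
    rw [h3]
    simpa using hg
  exact Set.infinite_range_of_injective hinj hfin

/-- `y ^ k - 1` is a left and right multiple of `y - 1`. -/
lemma zpow_sub_one_eq (y : G) (k : ℤ) :
    ∃ s : MonoidAlgebra ℤ G, el (y ^ k) - 1 = s * (el y - 1) ∧ el (y ^ k) - 1 = (el y - 1) * s := by
  induction k using Int.induction_on with
  | zero => exact ⟨0, by rw [zpow_zero, el_one]; simp, by rw [zpow_zero, el_one]; simp⟩
  | succ n ih =>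
    obtain ⟨s, hs, hs'⟩ := ih
    refine ⟨s + el (y ^ (n : ℤ)), ?_, ?_⟩
    · rw [add_mul, ← hs, zpow_add_one, el_mul]; noncomm_ring
    · rw [mul_add, ← hs', zpow_add_one]
      have : el (y ^ (n:ℤ) * y) = el y * el (y ^ (n:ℤ)) := by
        rw [← el_mul]; congr 1; rw [← zpow_add_one, ← zpow_one_add, add_comm]
      rw [this]; noncomm_ring
  | pred n ih =>
    obtain ⟨s, hs, hs'⟩ := ih
    refine ⟨s - el (y ^ (-(n : ℤ) - 1)), ?_, ?_⟩
    · have : el (y ^ (-(n : ℤ))) = el (y ^ (-(n : ℤ) - 1)) * el y := by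
        rw [← el_mul, ← zpow_add_one, sub_add_cancel]
      rw [sub_mul, ← hs, this]; noncomm_ring
    · have : el (y ^ (-(n : ℤ))) = el y * el (y ^ (-(n : ℤ) - 1)) := by
        rw [← el_mul, ← zpow_one_add, add_sub_cancel]
      rw [mul_sub, ← hs', this]; noncomm_ring

/-- Induction principle for elements killed by `mapDomain π`. -/
lemma mapDomain_eq_zero_induction {G' : Type*} (π : G → G') {p : MonoidAlgebra ℤ G → Prop}
    (h0 : p 0) (hadd : ∀ a b, p a → p b → p (a + b)) (hneg : ∀ a, p a → p (-a))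
    (hgen : ∀ g h : G, π g = π h → p (el g - el h))
    (r : MonoidAlgebra ℤ G) (hr : MonoidAlgebra.mapDomain π r = 0) : p r := by
  classical
  let A : AddSubgroup (MonoidAlgebra ℤ G) :=
    { carrier := {x | p x}
      zero_mem' := h0
      add_mem' := fun ha hb => hadd _ _ ha hb
      neg_mem' := fun ha => hneg _ ha }
  -- choose a section
  let σ : G' → G := fun x => if h : ∃ g, π g = x then h.choose else 1
  have hσ : ∀ g, π (σ (π g)) = π g := by
    intro g
    have h : ∃ g', π g' = π g := ⟨g, rfl⟩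
    simp only [σ, dif_pos h]
    exact h.choose_spec
  have key : ∀ x : MonoidAlgebra ℤ G,
      x - MonoidAlgebra.mapDomain σ (MonoidAlgebra.mapDomain π x) ∈ A := by
    intro x
    induction x using MonoidAlgebra.induction_linear with
    | zero => simp
    | add x y hx hy =>
      rw [MonoidAlgebra.mapDomain_add, MonoidAlgebra.mapDomain_add]
      have := A.add_mem hx hy
      convert this using 1
      abel
    | single g a =>
      have h1 : (MonoidAlgebra.single g a : MonoidAlgebra ℤ G) = a • el g := by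
        simp [el]
      have h2 : MonoidAlgebra.mapDomain σ (MonoidAlgebra.mapDomain π
          (MonoidAlgebra.single g a : MonoidAlgebra ℤ G)) = a • el (σ (π g)) := by
        simp [el]
      rw [h2, h1, ← smul_sub]
      exact A.zsmul_mem (hgen _ _ (hσ g).symm) a
  have := key r
  rw [hr, MonoidAlgebra.mapDomain_zero, sub_zero] at this
  exact this

/-- If `ker π` is generated by `y`, then the kernel of `ℤ[G] → ℤ[G']` is `ℤ[G](y-1)`. -/
lemma exists_mul_sub_one {G' : Type*} [Group G'] (π : G →* G') (y : G)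
    (hker : ∀ g, π g = 1 → g ∈ Subgroup.zpowers y)
    {r : MonoidAlgebra ℤ G} (hr : MonoidAlgebra.mapDomain π r = 0) :
    ∃ s, r = s * (el y - 1) := by
  refine mapDomain_eq_zero_induction π (p := fun r => ∃ s, r = s * (el y - 1)) ⟨0, by simp⟩ ?_ ?_ ?_ r hr
  · rintro a b ⟨s, rfl⟩ ⟨t, rfl⟩; exact ⟨s + t, by rw [add_mul]⟩
  · rintro a ⟨s, rfl⟩; exact ⟨-s, by rw [neg_mul]⟩
  · intro g h hgh
    obtain ⟨k, hk⟩ := Subgroup.mem_zpowers_iff.1 (hker (h⁻¹ * g) (by simp [hgh]))
    obtain ⟨s, hs, -⟩ := zpow_sub_one_eq y k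
    refine ⟨el h * s, ?_⟩
    rw [mul_assoc, ← hs, hk, mul_sub, ← el_mul, mul_one]
    simp

/-- If `ker π` is generated by `y`, then the kernel of `ℤ[G] → ℤ[G']` is `(y-1)ℤ[G]`. -/
lemma exists_sub_one_mul {G' : Type*} [Group G'] (π : G →* G') (y : G)
    (hker : ∀ g, π g = 1 → g ∈ Subgroup.zpowers y)
    {r : MonoidAlgebra ℤ G} (hr : MonoidAlgebra.mapDomain π r = 0) :
    ∃ s, r = (el y - 1) * s := by
  refine mapDomain_eq_zero_induction π (p := fun r => ∃ s, r = (el y - 1) * s) ⟨0, by simp⟩ ?_ ?_ ?_ r hr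
  · rintro a b ⟨s, rfl⟩ ⟨t, rfl⟩; exact ⟨s + t, by rw [mul_add]⟩
  · rintro a ⟨s, rfl⟩; exact ⟨-s, by rw [mul_neg]⟩
  · intro g h hgh
    obtain ⟨k, hk⟩ := Subgroup.mem_zpowers_iff.1 (hker (g * h⁻¹) (by simp [hgh]))
    obtain ⟨s, -, hs⟩ := zpow_sub_one_eq y k
    refine ⟨s * el h, ?_⟩
    rw [← mul_assoc, ← hs, hk, sub_mul, ← el_mul, one_mul]
    simp

end Pool.Agent.H5
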