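import Mathlib
import Pool.Agent.H5.GroupRing

/-!
The flat orientable 3-manifold group `G = ⟨u, v, a | uv = vu, aua⁻¹ = u⁻¹, ava⁻¹ = v⁻¹⟩`, its quotient
`K = G/⟨v⟩ = ⟨u, a | aua⁻¹ = u⁻¹⟩`, and `K/⟨u⟩ = ⟨a⟩`.
-/

open MonoidAlgebra

namespace Pool.Agent.H5

/-- The sign `(-1)^k`. -/
def sg (k : ℤ) : ℤ := (Int.negOnePow k : ℤˣ)

@[simp] lemma sg_zero : sg 0 = 1 := by simp [sg]
@[simp] lemma sg_one : sg 1 = -1 := by simp [sg]
lemma sg_add (k l : ℤ) : sg (k + l) = sg k * sg l := by simp [sg, Int.negOnePow_add]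
@[simp] lemma sg_neg (k : ℤ) : sg (-k) = sg k := by simp [sg]
@[simp] lemma sg_mul_self (k : ℤ) : sg k * sg k = 1 := by
  rw [← sg_add, sg]; simp [Int.negOnePow_add]

/-- Triples `u^i v^j a^k`. -/
@[ext] structure FG where
  i : ℤ
  j : ℤ
  k : ℤ

/-- Pairs `u^i a^k`. -/
@[ext] structure KB where
  i : ℤ
  k : ℤ

namespace FG

instance : Mul FG := ⟨fun x y => ⟨x.i + sg x.k * y.i, x.j + sg x.k * y.j, x.k + y.k⟩⟩
instance : One FG := ⟨⟨0, 0, 0⟩⟩
instance : Inv FG := ⟨fun x => ⟨-(sg x.k * x.i), -(sg x.k * x.j), -x.k⟩⟩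

@[simp] lemma mul_i (x y : FG) : (x * y).i = x.i + sg x.k * y.i := rfl
@[simp] lemma mul_j (x y : FG) : (x * y).j = x.j + sg x.k * y.j := rfl
@[simp] lemma mul_k (x y : FG) : (x * y).k = x.k + y.k := rfl
@[simp] lemma one_i : (1 : FG).i = 0 := rfl
@[simp] lemma one_j : (1 : FG).j = 0 := rfl
@[simp] lemma one_k : (1 : FG).k = 0 := rfl
@[simp] lemma inv_i (x : FG) : (x⁻¹).i = -(sg x.k * x.i) := rfl
@[simp] lemma inv_j (x : FG) : (x⁻¹).j = -(sg x.k * x.j) := rfl
@[simp] lemma inv_k (x : FG) : (x⁻¹).k = -x.k := rfl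

instance : Group FG := Group.ofLeftAxioms
  (by intro x y z; ext <;> simp [sg_add] <;> ring)
  (by intro x; ext <;> simp)
  (by intro x; ext <;> simp)

end FG

namespace KB

instance : Mul KB := ⟨fun x y => ⟨x.i + sg x.k * y.i, x.k + y.k⟩⟩
instance : One KB := ⟨⟨0, 0⟩⟩
instance : Inv KB := ⟨fun x => ⟨-(sg x.k * x.i), -x.k⟩⟩

@[simp] lemma mul_i (x y : KB) : (x * y).i = x.i + sg x.k * y.i := rfl
@[simp] lemma mul_k (x y : KB) : (x * y).k = x.k + y.k := rfl
@[simp] lemma one_i : (1 : KB).i = 0 := rfl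
@[simp] lemma one_k : (1 : KB).k = 0 := rfl
@[simp] lemma inv_i (x : KB) : (x⁻¹).i = -(sg x.k * x.i) := rfl
@[simp] lemma inv_k (x : KB) : (x⁻¹).k = -x.k := rfl

instance : Group KB := Group.ofLeftAxioms
  (by intro x y z; ext <;> simp [sg_add] <;> ring)
  (by intro x; ext <;> simp)
  (by intro x; ext <;> simp)

end KB

/-- `G → K`, killing `v`. -/
def piv : FG →* KB where
  toFun x := ⟨x.i, x.k⟩
  map_one' := rfl
  map_mul' _ _ := rfl

/-- `K → ℤ`, killing `u`. -/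
def piu : KB →* Multiplicative ℤ where
  toFun x := Multiplicative.ofAdd x.k
  map_one' := rfl
  map_mul' _ _ := rfl

/-- generators of `G` -/
def gu : FG := ⟨1, 0, 0⟩
def gv : FG := ⟨0, 1, 0⟩
def ga : FG := ⟨0, 0, 1⟩
/-- generators of `K` -/
def ku : KB := ⟨1, 0⟩
def ka : KB := ⟨0, 1⟩

lemma piv_gu : piv gu = ku := rfl
lemma piv_ga : piv ga = ka := rfl
lemma piv_gv : piv gv = 1 := rfl
lemma piu_ku : piu ku = 1 := rfl

lemma gv_zpow (n : ℤ) : gv ^ n = ⟨0, n, 0⟩ := by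
  induction n using Int.induction_on with
  | zero => rfl
  | succ n ih => rw [zpow_add_one, ih]; ext <;> simp [gv]
  | pred n ih => rw [zpow_sub_one, ih]; ext <;> simp [gv]; ring

lemma gu_zpow (n : ℤ) : gu ^ n = ⟨n, 0, 0⟩ := by
  induction n using Int.induction_on with
  | zero => rfl
  | succ n ih => rw [zpow_add_one, ih]; ext <;> simp [gu]
  | pred n ih => rw [zpow_sub_one, ih]; ext <;> simp [gu]; ring

lemma ga_zpow (n : ℤ) : ga ^ n = ⟨0, 0, n⟩ := by
  induction n using Int.induction_on with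
  | zero => rfl
  | succ n ih => rw [zpow_add_one, ih]; ext <;> simp [ga]
  | pred n ih => rw [zpow_sub_one, ih]; ext <;> simp [ga]; ring

lemma ku_zpow (n : ℤ) : ku ^ n = ⟨n, 0⟩ := by
  induction n using Int.induction_on with
  | zero => rfl
  | succ n ih => rw [zpow_add_one, ih]; ext <;> simp [ku]
  | pred n ih => rw [zpow_sub_one, ih]; ext <;> simp [ku]; ring

lemma gv_inf : ¬ IsOfFinOrder gv := by
  rw [← injective_pow_iff_not_isOfFinOrder]
  intro m n h
  have : gv ^ (m : ℤ) = gv ^ (n : ℤ) := by simpa using h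
  rw [gv_zpow, gv_zpow] at this
  simpa using congrArg FG.j this

lemma ku_inf : ¬ IsOfFinOrder ku := by
  rw [← injective_pow_iff_not_isOfFinOrder]
  intro m n h
  have : ku ^ (m : ℤ) = ku ^ (n : ℤ) := by simpa using h
  rw [ku_zpow, ku_zpow] at this
  simpa using congrArg KB.i this

lemma za_inf : ¬ IsOfFinOrder (Multiplicative.ofAdd (1 : ℤ)) := by
  rw [← injective_pow_iff_not_isOfFinOrder]
  intro m n h
  have h2 : Multiplicative.ofAdd (m : ℤ) = Multiplicative.ofAdd (n : ℤ) := by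
    simpa [← ofAdd_nsmul] using h
  simpa using congrArg Multiplicative.toAdd h2

lemma piv_ker (g : FG) (h : piv g = 1) : g ∈ Subgroup.zpowers gv := by
  refine Subgroup.mem_zpowers_iff.2 ⟨g.j, ?_⟩
  rw [gv_zpow]
  have h1 := congrArg KB.i h
  have h2 := congrArg KB.k h
  ext
  · simpa [piv] using h1.symm
  · rfl
  · simpa [piv] using h2.symm

lemma piu_ker (g : KB) (h : piu g = 1) : g ∈ Subgroup.zpowers ku := by
  refine Subgroup.mem_zpowers_iff.2 ⟨g.i, ?_⟩
  rw [ku_zpow]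
  have h2 : g.k = 0 := by simpa [piu] using h
  ext
  · rfl
  · exact h2.symm

/-! Relations. -/

lemma rel_uv : gu * gv = gv * gu := by ext <;> simp [gu, gv]
lemma rel_uau : gu * ga * gu = ga := by ext <;> simp [gu, ga]
lemma rel_vav : gv * ga * gv = ga := by ext <;> simp [gv, ga]
lemma rel_k : ku * ka * ku = ka := by ext <;> simp [ku, ka]

end Pool.Agent.H5
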