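import Mathlib
import Pool.Agent.H5.FlatGroup

/-!
Exactness of the Koszul-like complex over `R = ℤ[G]`, `G` the flat 3-manifold group, and of its dual.
-/

open MonoidAlgebra

namespace Pool.Agent.H5

/-- Ring homomorphism `ℤ[G] → ℤ[K]`. -/
noncomputable abbrev Pv : MonoidAlgebra ℤ FG →+* MonoidAlgebra ℤ KB :=
  MonoidAlgebra.mapDomainRingHom ℤ piv
/-- Ring homomorphism `ℤ[K] → ℤ[ℤ]`. -/
noncomputable abbrev Pu : MonoidAlgebra ℤ KB →+* MonoidAlgebra ℤ (Multiplicative ℤ) :=
  MonoidAlgebra.mapDomainRingHom ℤ piu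

lemma Pv_el (g : FG) : Pv (el g) = el (piv g) := by simp [el]
lemma Pu_el (g : KB) : Pu (el g) = el (piu g) := by simp [el]

lemma Pv_surj (x : MonoidAlgebra ℤ KB) : ∃ y, Pv y = x := by
  refine ⟨MonoidAlgebra.mapDomain (fun p : KB => (⟨p.i, 0, p.k⟩ : FG)) x, ?_⟩
  induction x using MonoidAlgebra.induction_linear with
  | zero => simp
  | add x y hx hy => rw [MonoidAlgebra.mapDomain_add, map_add, hx, hy]
  | single g a => simp [piv]

lemma Pv_ker {r : MonoidAlgebra ℤ FG} (h : Pv r = 0) : ∃ s, r = s * (el gv - 1) :=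
  exists_mul_sub_one piv gv piv_ker h
lemma Pv_ker' {r : MonoidAlgebra ℤ FG} (h : Pv r = 0) : ∃ s, r = (el gv - 1) * s :=
  exists_sub_one_mul piv gv piv_ker h
lemma Pu_ker {r : MonoidAlgebra ℤ KB} (h : Pu r = 0) : ∃ s, r = s * (el ku - 1) :=
  exists_mul_sub_one piu ku piu_ker h
lemma Pu_ker' {r : MonoidAlgebra ℤ KB} (h : Pu r = 0) : ∃ s, r = (el ku - 1) * s :=
  exists_sub_one_mul piu ku piu_ker h

lemma piu_ka : piu ka = Multiplicative.ofAdd 1 := rfl

lemma K_uau : el ku * el ka * el ku = el ka := by rw [← el_mul, ← el_mul, rel_k]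
lemma G_uau : el gu * el ga * el gu = el ga := by rw [← el_mul, ← el_mul, rel_uau]
lemma G_vav : el gv * el ga * el gv = el ga := by rw [← el_mul, ← el_mul, rel_vav]
lemma G_uv : el gu * el gv = el gv * el gu := by rw [← el_mul, ← el_mul, rel_uv]

/-- `K`-level exactness. -/
lemma K_exact {α β : MonoidAlgebra ℤ KB} (h : α * (el ka - 1) + β * (el ku - 1) = 0) :
    ∃ r, α = r * (el ku - 1) ∧ β = r * (1 + el ku * el ka) := by
  have h1 := congrArg Pu h
  rw [map_add, map_mul, map_mul, map_sub, map_sub, map_one, Pu_el, Pu_el, piu_ku, el_one, sub_self,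
    mul_zero, add_zero, map_zero] at h1
  obtain ⟨r, rfl⟩ := Pu_ker (mul_sub_one_eq_zero za_inf h1)
  refine ⟨r, rfl, ?_⟩
  have h2 : (β - r * (1 + el ku * el ka)) * (el ku - 1) = 0 := by
    have h3 : (1 + el ku * el ka) * (el ku - 1) = -((el ku - 1) * (el ka - 1)) := by
      have : (1 + el ku * el ka) * (el ku - 1) = el ku - 1 + el ku * el ka * el ku - el ku * el ka := by
        noncomm_ring
      rw [this, K_uau]; noncomm_ring
    rw [sub_mul, mul_assoc, h3, mul_neg, sub_neg_eq_add, add_comm, ← mul_assoc]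
    exact h
  exact sub_eq_zero.1 (mul_sub_one_eq_zero ku_inf h2)

/-- `K`-level dual exactness. -/
lemma K_exact_dual {s t : MonoidAlgebra ℤ KB}
    (h : (el ku - 1) * s + (1 - el ku * el ka) * t = 0) :
    ∃ w, s = -((1 + el ka) * w) ∧ t = (el ku - 1) * w := by
  have h1 := congrArg Pu h
  rw [map_add, map_mul, map_mul, map_sub, map_sub, map_one, map_mul, Pu_el, Pu_el, piu_ku, el_one,
    sub_self, zero_mul, zero_add, map_zero, one_mul] at h1
  have h1' : (el (piu ka) - 1) * Pu t = 0 := by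
    rw [← neg_eq_zero, ← neg_mul, neg_sub]; exact h1
  obtain ⟨w, rfl⟩ := Pu_ker' (sub_one_mul_eq_zero za_inf h1')
  refine ⟨w, ?_, rfl⟩
  have h2 : (el ku - 1) * (s + (1 + el ka) * w) = 0 := by
    have h3 : (1 - el ku * el ka) * (el ku - 1) = (el ku - 1) * (1 + el ka) := by
      have : (1 - el ku * el ka) * (el ku - 1) = el ku - 1 - el ku * el ka * el ku + el ku * el ka := by
        noncomm_ring
      rw [this, K_uau]; noncomm_ring
    rw [mul_add, ← mul_assoc, ← h3, mul_assoc]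
    exact h
  exact eq_neg_of_add_eq_zero_left (sub_one_mul_eq_zero ku_inf h2)

lemma G_id1 : (1 + el gu * el ga) * (el gu - 1) = -((el gu - 1) * (el ga - 1)) := by
  have : (1 + el gu * el ga) * (el gu - 1) = el gu - 1 + el gu * el ga * el gu - el gu * el ga := by
    noncomm_ring
  rw [this, G_uau]; noncomm_ring

lemma G_id2 : (1 + el gv * el ga) * (el gv - 1) = -((el gv - 1) * (el ga - 1)) := by
  have : (1 + el gv * el ga) * (el gv - 1) = el gv - 1 + el gv * el ga * el gv - el gv * el ga := by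
    noncomm_ring
  rw [this, G_vav]; noncomm_ring

lemma G_comm : (el gv - 1) * (el gu - 1) = (el gu - 1) * (el gv - 1) := by
  have := G_uv
  have h1 : (el gv - 1) * (el gu - 1) = el gv * el gu - el gv - el gu + 1 := by noncomm_ring
  have h2 : (el gu - 1) * (el gv - 1) = el gu * el gv - el gv - el gu + 1 := by noncomm_ring
  rw [h1, h2, this]

/-- `(1 - uva)(v - 1) = (v - 1)(1 + ua)`. -/
lemma G_id3 : (1 - el gu * el gv * el ga) * (el gv - 1) = (el gv - 1) * (1 + el gu * el ga) := by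
  have h1 : (1 - el gu * el gv * el ga) * (el gv - 1)
      = el gv - 1 - el gu * (el gv * el ga * el gv) + el gu * el gv * el ga := by noncomm_ring
  rw [h1, G_vav, G_uv]; noncomm_ring

/-- `(1 - uva)(u - 1) = (u - 1)(1 + va)`. -/
lemma G_id4 : (1 - el gu * el gv * el ga) * (el gu - 1) = (el gu - 1) * (1 + el gv * el ga) := by
  have h1 : (1 - el gu * el gv * el ga) * (el gu - 1)
      = el gu - 1 - (el gu * el gv) * el ga * el gu + el gu * el gv * el ga := by noncomm_ring
  have h2 : (el gu * el gv) * el ga * el gu = el gv * (el gu * el ga * el gu) := by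
    rw [G_uv]; noncomm_ring
  rw [h1, h2, G_uau]; noncomm_ring

/-! ### The resolution -/

/-- Exactness at the free module on `a, u, v`. -/
lemma G_exact1 {α β γ : MonoidAlgebra ℤ FG}
    (h : α * (el ga - 1) + β * (el gu - 1) + γ * (el gv - 1) = 0) :
    ∃ p q s, α = p * (el gu - 1) + q * (el gv - 1) ∧
      β = p * (1 + el gu * el ga) + s * (el gv - 1) ∧
      γ = q * (1 + el gv * el ga) - s * (el gu - 1) := by
  have h1 := congrArg Pv h
  rw [map_add, map_add, map_mul, map_mul, map_mul, map_sub, map_sub, map_sub, map_one, Pv_el, Pv_el,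
    Pv_el, piv_gu, piv_ga, piv_gv, el_one, sub_self, mul_zero, add_zero, map_zero] at h1
  obtain ⟨r, hr1, hr2⟩ := K_exact h1
  obtain ⟨p, rfl⟩ := Pv_surj r
  have h3 : Pv (α - p * (el gu - 1)) = 0 := by
    rw [map_sub, map_mul, map_sub, Pv_el, map_one, piv_gu, hr1, sub_self]
  have h4 : Pv (β - p * (1 + el gu * el ga)) = 0 := by
    rw [map_sub, map_mul, map_add, map_mul, Pv_el, Pv_el, map_one, piv_gu, piv_ga, hr2, sub_self]
  obtain ⟨q, hq⟩ := Pv_ker h3
  obtain ⟨s, hs⟩ := Pv_ker h4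
  have hα : α = p * (el gu - 1) + q * (el gv - 1) := by rw [← hq]; abel
  have hβ : β = p * (1 + el gu * el ga) + s * (el gv - 1) := by rw [← hs]; abel
  refine ⟨p, q, s, hα, hβ, ?_⟩
  have h5 : (γ - (q * (1 + el gv * el ga) - s * (el gu - 1))) * (el gv - 1) = 0 := by
    rw [hα, hβ] at h
    have e1 : (γ - (q * (1 + el gv * el ga) - s * (el gu - 1))) * (el gv - 1)
      = γ * (el gv - 1) - q * ((1 + el gv * el ga) * (el gv - 1)) + s * ((el gu - 1) * (el gv - 1)) := by
      noncomm_ring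
    have e2 : (p * (el gu - 1) + q * (el gv - 1)) * (el ga - 1) +
        (p * (1 + el gu * el ga) + s * (el gv - 1)) * (el gu - 1) + γ * (el gv - 1)
        = p * ((el gu - 1) * (el ga - 1)) + q * ((el gv - 1) * (el ga - 1))
          + p * ((1 + el gu * el ga) * (el gu - 1)) + s * ((el gv - 1) * (el gu - 1))
          + γ * (el gv - 1) := by noncomm_ring
    rw [e2, G_id1, G_comm] at h
    rw [e1, G_id2, ← h]
    noncomm_ring
  exact sub_eq_zero.1 (mul_sub_one_eq_zero gv_inf h5)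

/-- Exactness at the free module on the 2-cells. -/
lemma G_exact2 {p q s : MonoidAlgebra ℤ FG}
    (h1 : p * (el gu - 1) + q * (el gv - 1) = 0)
    (h2 : p * (1 + el gu * el ga) + s * (el gv - 1) = 0) :
    ∃ w, p = w * (el gv - 1) ∧ q = -(w * (el gu - 1)) ∧ s = -(w * (1 - el gu * el gv * el ga)) := by
  have h3 := congrArg Pv h1
  rw [map_add, map_mul, map_mul, map_sub, map_sub, map_one, Pv_el, Pv_el, piv_gu, piv_gv, el_one,
    sub_self, mul_zero, add_zero, map_zero] at h3
  obtain ⟨w, rfl⟩ := Pv_ker (mul_sub_one_eq_zero ku_inf h3)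
  refine ⟨w, rfl, ?_, ?_⟩
  · have : (q + w * (el gu - 1)) * (el gv - 1) = 0 := by
      rw [add_mul, mul_assoc, ← G_comm, ← mul_assoc, add_comm]; exact h1
    exact eq_neg_of_add_eq_zero_left (mul_sub_one_eq_zero gv_inf this)
  · have : (s + w * (1 - el gu * el gv * el ga)) * (el gv - 1) = 0 := by
      rw [add_mul, mul_assoc, G_id3, ← mul_assoc, add_comm]; exact h2
    exact eq_neg_of_add_eq_zero_left (mul_sub_one_eq_zero gv_inf this)

/-! ### The dual complex -/

lemma G_dual1 {x y z : MonoidAlgebra ℤ FG}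
    (h1 : (el gv - 1) * x + (1 + el gv * el ga) * z = 0)
    (h2 : (el gv - 1) * y - (el gu - 1) * z = 0) :
    ∃ r, x = (el ga - 1) * r ∧ y = (el gu - 1) * r ∧ z = (el gv - 1) * r := by
  have h3 := congrArg Pv h2
  rw [map_sub, map_mul, map_mul, map_sub, map_sub, map_one, Pv_el, Pv_el, piv_gu, piv_gv, el_one,
    sub_self, zero_mul, zero_sub, map_zero, neg_eq_zero] at h3
  obtain ⟨r, rfl⟩ := Pv_ker' (sub_one_mul_eq_zero ku_inf h3)
  refine ⟨r, ?_, ?_, rfl⟩
  · have : (el gv - 1) * (x - (el ga - 1) * r) = 0 := by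
      rw [← mul_assoc, G_id2] at h1
      rw [mul_sub, ← mul_assoc, sub_eq_add_neg, ← neg_mul]; exact h1
    exact sub_eq_zero.1 (sub_one_mul_eq_zero gv_inf this)
  · have : (el gv - 1) * (y - (el gu - 1) * r) = 0 := by
      rw [mul_sub, ← mul_assoc, G_comm, mul_assoc]; exact h2
    exact sub_eq_zero.1 (sub_one_mul_eq_zero gv_inf this)

lemma G_dual2 {x y z : MonoidAlgebra ℤ FG}
    (h : (el gv - 1) * x - (el gu - 1) * y - (1 - el gu * el gv * el ga) * z = 0) :
    ∃ a b c, x = (el gu - 1) * a + (1 + el gu * el ga) * b ∧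
      y = (el gv - 1) * a + (1 + el gv * el ga) * c ∧
      z = (el gv - 1) * b - (el gu - 1) * c := by
  have h1 := congrArg Pv h
  simp only [map_sub, map_mul, map_one, Pv_el, piv_gu, piv_gv, piv_ga, sub_self, zero_mul,
    zero_sub, map_zero, mul_one] at h1
  have h1' : (el ku - 1) * Pv y + (1 - el ku * el ka) * Pv z = 0 := by
    rw [← neg_eq_zero, neg_add, ← sub_eq_add_neg]; exact h1
  obtain ⟨w, hw1, hw2⟩ := K_exact_dual h1'
  obtain ⟨c, rfl⟩ := Pv_surj w
  -- `y = -(1 + va) c + (v-1) a`, `z = (u-1) c + (v-1) b`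
  have h2 : Pv (y + (1 + el gv * el ga) * c) = 0 := by
    simp only [map_add, map_mul, map_one, Pv_el, piv_gv, piv_ga, one_mul, hw1]
    abel
  have h3 : Pv (z - (el gu - 1) * c) = 0 := by
    simp only [map_sub, map_mul, map_one, Pv_el, piv_gu, hw2, sub_self]
  obtain ⟨a, ha⟩ := Pv_ker' h2
  obtain ⟨b, hb⟩ := Pv_ker' h3
  have hy : y = (el gv - 1) * a + (1 + el gv * el ga) * (-c) := by rw [← ha]; noncomm_ring
  have hz : z = (el gv - 1) * b - (el gu - 1) * (-c) := by rw [← hb]; noncomm_ring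
  refine ⟨a, b, -c, ?_, hy, hz⟩
  have h4 : (el gv - 1) * (x - ((el gu - 1) * a + (1 + el gu * el ga) * b)) = 0 := by
    have e1 : (el gu - 1) * y = (el gv - 1) * ((el gu - 1) * a) +
        ((el gu - 1) * (1 + el gv * el ga)) * (-c) := by
      rw [hy, mul_add, ← mul_assoc, ← mul_assoc, ← mul_assoc, G_comm]
    have e2 : (1 - el gu * el gv * el ga) * z = (el gv - 1) * ((1 + el gu * el ga) * b) -
        ((el gu - 1) * (1 + el gv * el ga)) * (-c) := by
      rw [hz, mul_sub, ← mul_assoc, ← mul_assoc, ← mul_assoc, G_id3, G_id4]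
    rw [e1, e2] at h
    rw [← h]; noncomm_ring
  exact sub_eq_zero.1 (sub_one_mul_eq_zero gv_inf h4)

end Pool.Agent.H5
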