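import Mathlib
import Pool.Agent.H5.FlatExact

/-!
The augmentation and the two ends of the complex.
-/

open MonoidAlgebra

namespace Pool.Agent.H5

/-- The augmentation `ℤ[G] → ℤ`. -/
noncomputable def aug (G : Type*) [Group G] : MonoidAlgebra ℤ G →+* ℤ :=
  (MonoidAlgebra.lift ℤ ℤ G 1).toRingHom

@[simp] lemma aug_el {G : Type*} [Group G] (g : G) : aug G (el g) = 1 := by
  simp [aug, el]

@[simp] lemma aug_single {G : Type*} [Group G] (g : G) (n : ℤ) :
    aug G (MonoidAlgebra.single g n) = n := by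
  simp [aug]

/-- Induction principle for the augmentation kernel. -/
lemma aug_eq_zero_induction {G : Type*} [Group G] {p : MonoidAlgebra ℤ G → Prop}
    (h0 : p 0) (hadd : ∀ a b, p a → p b → p (a + b)) (hneg : ∀ a, p a → p (-a))
    (hgen : ∀ g : G, p (el g - 1))
    (r : MonoidAlgebra ℤ G) (hr : aug G r = 0) : p r := by
  refine mapDomain_eq_zero_induction (fun _ : G => ()) h0 hadd hneg ?_ r ?_
  · intro g h _
    have := hadd _ _ (hgen g) (hneg _ (hgen h))
    convert this using 1; abel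
  · have key : ∀ x : MonoidAlgebra ℤ G,
        MonoidAlgebra.mapDomain (fun _ : G => ()) x = MonoidAlgebra.single () (aug G x) := by
      intro x
      induction x using MonoidAlgebra.induction_linear with
      | zero => simp
      | add x y hx hy => rw [MonoidAlgebra.mapDomain_add, hx, hy, map_add, MonoidAlgebra.single_add]
      | single g a => simp
    rw [key, hr, MonoidAlgebra.single_zero]

lemma FG_decomp (g : FG) : g = gu ^ g.i * gv ^ g.j * ga ^ g.k := by
  rw [gu_zpow, gv_zpow, ga_zpow]; ext <;> simp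

/-- Exactness at `R → ℤ`. -/
lemma G_exact0 {r : MonoidAlgebra ℤ FG} (hr : aug FG r = 0) :
    ∃ α β γ, r = α * (el ga - 1) + β * (el gu - 1) + γ * (el gv - 1) := by
  refine aug_eq_zero_induction
    (p := fun r => ∃ α β γ, r = α * (el ga - 1) + β * (el gu - 1) + γ * (el gv - 1))
    ⟨0, 0, 0, by simp⟩ ?_ ?_ ?_ r hr
  · rintro _ _ ⟨a, b, c, rfl⟩ ⟨a', b', c', rfl⟩
    exact ⟨a + a', b + b', c + c', by noncomm_ring⟩
  · rintro _ ⟨a, b, c, rfl⟩
    exact ⟨-a, -b, -c, by noncomm_ring⟩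
  · intro g
    obtain ⟨s, hs, -⟩ := zpow_sub_one_eq gu g.i
    obtain ⟨t, ht, -⟩ := zpow_sub_one_eq gv g.j
    obtain ⟨w, hw, -⟩ := zpow_sub_one_eq ga g.k
    refine ⟨el (gu ^ g.i) * el (gv ^ g.j) * w, s, el (gu ^ g.i) * t, ?_⟩
    conv_lhs => rw [FG_decomp g]
    rw [el_mul, el_mul, mul_assoc _ w, ← hw, ← hs, mul_assoc _ t, ← ht]
    noncomm_ring

/-- Exactness at the top of the dual complex. -/
lemma G_dual3 {r : MonoidAlgebra ℤ FG} (hr : aug FG r = 0) :
    ∃ x y z, r = (el gv - 1) * x - (el gu - 1) * y - (1 - el gu * el gv * el ga) * z := by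
  refine aug_eq_zero_induction
    (p := fun r => ∃ x y z, r = (el gv - 1) * x - (el gu - 1) * y - (1 - el gu * el gv * el ga) * z)
    ⟨0, 0, 0, by simp⟩ ?_ ?_ ?_ r hr
  · rintro _ _ ⟨a, b, c, rfl⟩ ⟨a', b', c', rfl⟩
    exact ⟨a + a', b + b', c + c', by noncomm_ring⟩
  · rintro _ ⟨a, b, c, rfl⟩
    exact ⟨-a, -b, -c, by noncomm_ring⟩
  · intro g
    obtain ⟨s, -, hs⟩ := zpow_sub_one_eq gu g.i
    obtain ⟨t, -, ht⟩ := zpow_sub_one_eq gv g.j
    obtain ⟨w, -, hw⟩ := zpow_sub_one_eq ga g.k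
    have hcomm : el (gu ^ g.i) * el (gv ^ g.j) = el (gv ^ g.j) * el (gu ^ g.i) := by
      rw [← el_mul, ← el_mul]; congr 1
      have : Commute gu gv := rel_uv
      exact (this.zpow_zpow _ _)
    -- `u^i v^j a^k - 1 = (u^i - 1) v^j a^k + (v^j - 1) a^k + (a^k - 1)`
    have e1 : el g - 1 = (el (gu ^ g.i) - 1) * (el (gv ^ g.j) * el (ga ^ g.k))
        + (el (gv ^ g.j) - 1) * el (ga ^ g.k) + (el (ga ^ g.k) - 1) := by
      conv_lhs => rw [FG_decomp g]
      rw [el_mul, el_mul]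
      noncomm_ring
    -- `a - 1 = -(1 - uva) + (1 - uv) a`, `1 - uv = -(u-1) v - (v-1)`
    have e2 : el ga - 1 = -(1 - el gu * el gv * el ga) * 1 - (el gu - 1) * (el gv * el ga)
        - (el gv - 1) * el ga := by
      noncomm_ring
    rw [e1, hs, ht, hw]
    refine ⟨t * el (ga ^ g.k) - el ga * w,
      -(s * (el (gv ^ g.j) * el (ga ^ g.k))) + el gv * el ga * w, w, ?_⟩
    have e3 : (el ga - 1) * w = -((1 - el gu * el gv * el ga) * w)
      - (el gu - 1) * (el gv * el ga * w) - (el gv - 1) * (el ga * w) := by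
      rw [e2]; noncomm_ring
    rw [e3]
    noncomm_ring

end Pool.Agent.H5
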