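import Mathlib

/-!
Finiteness of the set of connected cuts of bounded size through a given edge.
-/

namespace Pool.Agent.H5

open Relation

variable {V : Type}

lemma rtg_mono {p q : V → V → Prop} (h : ∀ u v, p u v → q u v) {a b : V}
    (hab : ReflTransGen p a b) : ReflTransGen q a b := by
  induction hab with
  | refl => exact ReflTransGen.refl
  | tail _ hbc ih => exact ih.tail (h _ _ hbc)

/-- The set `F` is connected for the relation `r`. -/
def Conn (r : V → V → Prop) (F : Set V) : Prop :=
  ∀ a ∈ F, ∀ b ∈ F, ReflTransGen (fun u v => r u v ∧ u ∈ F ∧ v ∈ F) a b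

/-- The coboundary of `F`, as a set of ordered pairs. -/
def cob2 (r : V → V → Prop) (F : Set V) : Set (V × V) :=
  {e | r e.1 e.2 ∧ e.1 ∈ F ∧ e.2 ∉ F}

/-- The family of connected and co-connected sets with at most `k` boundary edges. -/
def fam (r : V → V → Prop) (k : ℕ) : Set (Set V) :=
  {F | Conn r F ∧ Conn r Fᶜ ∧ (cob2 r F).encard ≤ k}

/-- Finitely many cuts of bounded size contain a given edge. -/
theorem finite_fam (k : ℕ) : ∀ (r : V → V → Prop), (∀ a b, r a b → r b a) → ∀ x y, r x y →
    {F | F ∈ fam r k ∧ x ∈ F ∧ y ∉ F}.Finite := by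
  classical
  induction k with
  | zero =>
    intro r _ x y hxy
    convert Set.finite_empty
    ext F
    simp only [Set.mem_ofPred_eq, Set.mem_empty_iff_false, iff_false]
    rintro ⟨⟨_, _, h⟩, hx, hy⟩
    rw [Nat.cast_zero, nonpos_iff_eq_zero, Set.encard_eq_zero] at h
    have : (x, y) ∈ cob2 r F := ⟨hxy, hx, hy⟩
    rw [h] at this
    exact this
  | succ k ih =>
    intro r hr x y hxy
    let r' : V → V → Prop := fun a b => r a b ∧ ¬ (a = x ∧ b = y) ∧ ¬ (a = y ∧ b = x)
    have hr' : ∀ a b, r' a b → r' b a := by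
      rintro a b ⟨h1, h2, h3⟩
      exact ⟨hr _ _ h1, fun h => h3 ⟨h.2, h.1⟩, fun h => h2 ⟨h.2, h.1⟩⟩
    -- connectivity survives
    have hin : ∀ F : Set V, Conn r F → (y ∉ F ∨ x ∉ F) → Conn r' F := by
      intro F hF hxyF a ha b hb
      refine rtg_mono ?_ (hF a ha b hb)
      rintro u v ⟨h1, hu, hv⟩
      refine ⟨⟨h1, ?_, ?_⟩, hu, hv⟩
      · rintro ⟨rfl, rfl⟩
        rcases hxyF with h | h
        · exact h hv
        · exact h hu
      · rintro ⟨rfl, rfl⟩
        rcases hxyF with h | h
        · exact h hu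
        · exact h hv
    have hsub : ∀ F, F ∈ fam r (k + 1) → x ∈ F → y ∉ F → F ∈ fam r' k := by
      rintro F ⟨h1, h2, h3⟩ hx hy
      refine ⟨hin F h1 (Or.inl hy), hin Fᶜ h2 (Or.inr (by simpa using hx)), ?_⟩
      have h4 : cob2 r' F = cob2 r F \ {(x, y)} := by
        ext ⟨a, b⟩
        simp only [cob2, r', Set.mem_ofPred_eq, Set.mem_sdiff, Set.mem_singleton_iff, Prod.mk.injEq]
        constructor
        · rintro ⟨⟨h5, h6, h7⟩, h8, h9⟩
          exact ⟨⟨h5, h8, h9⟩, h6⟩
        · rintro ⟨⟨h5, h8, h9⟩, h6⟩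
          refine ⟨⟨h5, h6, ?_⟩, h8, h9⟩
          rintro ⟨rfl, rfl⟩
          exact hy h8
      have h5 : (x, y) ∈ cob2 r F := ⟨hxy, hx, hy⟩
      have h6 := Set.encard_sdiff_singleton_add_one h5
      rw [h4]
      rw [← h6] at h3
      have h7 : (cob2 r F \ {(x, y)}).encard + 1 ≤ (k : ℕ∞) + 1 := by exact_mod_cast h3
      exact (ENat.add_le_add_iff_right ENat.one_ne_top).1 h7
    by_cases hcon : ReflTransGen r' x y
    · -- `x` and `y` are still connected
      have key : ∀ b, ReflTransGen r' x b → {F | F ∈ fam r' k ∧ x ∈ F ∧ b ∉ F}.Finite := by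
        intro b hb
        induction hb with
        | refl =>
          convert Set.finite_empty
          ext F
          simp only [Set.mem_ofPred_eq, Set.mem_empty_iff_false, iff_false]
          rintro ⟨_, h1, h2⟩
          exact h2 h1
        | tail hab hbc ihb =>
          rename_i b c
          refine (ihb.union (ih r' hr' b c hbc)).subset ?_
          rintro F ⟨h1, h2, h3⟩
          by_cases hbF : b ∈ F
          · exact Or.inr ⟨h1, hbF, h3⟩
          · exact Or.inl ⟨h1, h2, hbF⟩
      refine (key y hcon).subset ?_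
      rintro F ⟨h1, h2, h3⟩
      exact ⟨hsub F h1 h2 h3, h2, h3⟩
    · -- `F` is the component of `x`
      refine (Set.finite_singleton {a | ReflTransGen r' x a}).subset ?_
      rintro F ⟨h1, hx, hy⟩
      obtain ⟨h4, h5, -⟩ := hsub F h1 hx hy
      rw [Set.mem_singleton_iff]
      ext a
      constructor
      · intro ha
        exact rtg_mono (fun u v h => h.1) (h4 x hx a ha)
      · intro ha
        by_contra haF
        apply hcon
        exact ha.trans (rtg_mono (fun u v h => h.1) (h5 a haF y hy))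

end Pool.Agent.H5
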