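import Mathlib
import Pool.Agent.H5.Cuts1

/-!
Minimal cuts in Cayley graphs.
-/

namespace Pool.Agent.H5

open Relation Pointwise

variable {V : Type} [Group V]

/-- Adjacency in the Cayley graph. -/
def adj (T : Finset V) (a b : V) : Prop := a⁻¹ * b ∈ T

lemma adj_symm {T : Finset V} (hT : ∀ s ∈ T, s⁻¹ ∈ T) (a b : V) (h : adj T a b) : adj T b a := by
  have := hT _ h
  rw [mul_inv_rev, inv_inv] at this
  exact this

lemma adj_mul {T : Finset V} (g a b : V) : adj T (g * a) (g * b) ↔ adj T a b := by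
  unfold adj
  rw [mul_inv_rev, mul_assoc, inv_mul_cancel_left]

lemma adj_conn {T : Finset V} (hT : ∀ s ∈ T, s⁻¹ ∈ T)
    (hgen : Subgroup.closure (T : Set V) = ⊤) (a b : V) : ReflTransGen (adj T) a b := by
  have key : ∀ g : V, ∀ a : V, ReflTransGen (adj T) a (a * g) := by
    intro g
    have hg : g ∈ Subgroup.closure (T : Set V) := by rw [hgen]; trivial
    induction hg using Subgroup.closure_induction with
    | mem s hs =>
      intro a
      refine ReflTransGen.single ?_
      unfold adj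
      rw [inv_mul_cancel_left]
      exact hs
    | one => intro a; rw [mul_one]
    | mul g h _ _ ihg ihh =>
      intro a
      rw [← mul_assoc]
      exact (ihg a).trans (ihh _)
    | inv g _ ih =>
      intro a
      have h1 := ih (a * g⁻¹)
      rw [inv_mul_cancel_right] at h1
      have hsymm : ∀ u v, ReflTransGen (adj T) u v → ReflTransGen (adj T) v u := by
        intro u v huv
        induction huv with
        | refl => exact ReflTransGen.refl
        | tail _ hbc ih => exact ReflTransGen.head (adj_symm hT _ _ hbc) ih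
      exact hsymm _ _ h1
  have := key (a⁻¹ * b) a
  rwa [mul_inv_cancel_left] at this

/-! ### Coboundaries -/

section General

variable {W : Type} {r : W → W → Prop}

lemma mem_cob2 {F : Set W} {a b : W} : (a, b) ∈ cob2 r F ↔ r a b ∧ a ∈ F ∧ b ∉ F := Iff.rfl

lemma cob2_inter_union (C D : Set W) :
    (cob2 r (C ∩ D)).encard + (cob2 r (C ∪ D)).encard ≤ (cob2 r C).encard + (cob2 r D).encard := by
  rw [← Set.encard_union_add_encard_inter, ← Set.encard_union_add_encard_inter (cob2 r C)]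
  refine add_le_add (Set.encard_le_encard ?_) (Set.encard_le_encard ?_)
  · rintro ⟨a, b⟩ (⟨h1, h2, h3⟩ | ⟨h1, h2, h3⟩)
    · by_cases hb : b ∈ C
      · exact Or.inr ⟨h1, h2.2, fun h => h3 ⟨hb, h⟩⟩
      · exact Or.inl ⟨h1, h2.1, hb⟩
    · rcases h2 with h2 | h2
      · exact Or.inl ⟨h1, h2, fun h => h3 (Or.inl h)⟩
      · exact Or.inr ⟨h1, h2, fun h => h3 (Or.inr h)⟩
  · rintro ⟨a, b⟩ ⟨⟨h1, h2, h3⟩, ⟨_, h5, h6⟩⟩
    exact ⟨⟨h1, h2.1, fun h => h6 (Or.inl h)⟩, ⟨h1, h2.2, fun h => h6 (Or.inr h)⟩⟩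

lemma cob2_compl (hr : ∀ a b, r a b → r b a) (C : Set W) :
    cob2 r Cᶜ = Prod.swap '' cob2 r C := by
  ext ⟨a, b⟩
  constructor
  · rintro ⟨h1, h2, h3⟩
    refine ⟨(b, a), ⟨hr _ _ h1, ?_, h2⟩, rfl⟩
    by_contra h
    exact h3 h
  · rintro ⟨⟨c, d⟩, ⟨h1, h2, h3⟩, h4⟩
    obtain ⟨rfl, rfl⟩ := Prod.mk.inj h4
    exact ⟨hr _ _ h1, h3, fun h => h h2⟩

lemma cob2_compl_encard (hr : ∀ a b, r a b → r b a) (C : Set W) :
    (cob2 r Cᶜ).encard = (cob2 r C).encard := by
  rw [cob2_compl hr]
  exact Function.Injective.encard_image Prod.swap_injective _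

lemma cob2_nonempty (hc : ∀ a b, ReflTransGen r a b) {F : Set W} {a b : W} (ha : a ∈ F)
    (hb : b ∉ F) : (cob2 r F).Nonempty := by
  induction hc a b with
  | refl => exact absurd ha hb
  | tail _ hbc ih =>
    rename_i b c _
    by_cases hbF : b ∈ F
    · exact ⟨(b, c), hbc, hbF, hb⟩
    · exact ih hbF

lemma conn_meets {C F : Set W} (hF : Conn r F) {a b : W} (ha : a ∈ F) (hb : b ∈ F) (haC : a ∈ C)
    (hbC : b ∉ C) : ∃ u v, (u, v) ∈ cob2 r C ∧ u ∈ F ∧ v ∈ F := by
  have h := hF a ha b hb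
  clear hb
  induction h with
  | refl => exact absurd haC hbC
  | tail _ hbc ih =>
    rename_i b c _
    by_cases hbC' : b ∈ C
    · exact ⟨b, c, ⟨hbc.1, hbC', hbC⟩, hbc.2.1, hbc.2.2⟩
    · exact ih hbC'

/-- Nested sets. -/
def Nested (C F : Set W) : Prop := C ⊆ F ∨ C ⊆ Fᶜ ∨ Cᶜ ⊆ F ∨ Cᶜ ⊆ Fᶜ

lemma nested_symm {C F : Set W} (h : Nested C F) : Nested F C := by
  rcases h with h | h | h | h
  · exact Or.inr (Or.inr (Or.inr (Set.compl_subset_compl.2 h)))
  · exact Or.inr (Or.inl (Set.subset_compl_comm.1 h))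
  · exact Or.inr (Or.inr (Or.inl (Set.compl_subset_comm.1 h)))
  · exact Or.inl (Set.compl_subset_compl.1 h)

lemma nested_compl_right {C F : Set W} : Nested C Fᶜ ↔ Nested C F := by
  unfold Nested
  rw [compl_compl]
  tauto

lemma nested_compl_left {C F : Set W} : Nested Cᶜ F ↔ Nested C F := by
  unfold Nested
  rw [compl_compl]
  tauto

lemma nested_self (C : Set W) : Nested C C := Or.inl subset_rfl

/-- (i) a set nested with `C` and `D` is nested with the corner `C ∩ D`. -/
lemma nested_corner {C D F : Set W} (hCD : ¬ Nested C D) (h1 : Nested C F) (h2 : Nested D F) :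
    Nested (C ∩ D) F := by
  rcases h1 with h1 | h1 | h1 | h1
  · exact Or.inl (Set.inter_subset_left.trans h1)
  · exact Or.inr (Or.inl (Set.inter_subset_left.trans h1))
  · rcases h2 with h2 | h2 | h2 | h2
    · exact Or.inl (Set.inter_subset_right.trans h2)
    · exact Or.inr (Or.inl (Set.inter_subset_right.trans h2))
    · refine Or.inr (Or.inr (Or.inl ?_))
      rw [Set.compl_inter]
      exact Set.union_subset h1 h2
    · exfalso
      apply hCD
      -- `Cᶜ ⊆ F`, `Dᶜ ⊆ Fᶜ`, so `F ⊆ D`, so `Cᶜ ⊆ D`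
      exact Or.inr (Or.inr (Or.inl (h1.trans (Set.compl_subset_compl.1 h2))))
  · rcases h2 with h2 | h2 | h2 | h2
    · exact Or.inl (Set.inter_subset_right.trans h2)
    · exact Or.inr (Or.inl (Set.inter_subset_right.trans h2))
    · exfalso
      apply hCD
      exact Or.inr (Or.inr (Or.inl (h1.trans (Set.compl_subset_comm.1 h2))))
    · refine Or.inr (Or.inr (Or.inr ?_))
      rw [Set.compl_inter]
      exact Set.union_subset h1 h2

/-- (ii) a set nested with `C` is nested with one of two opposite corners. -/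
lemma nested_corner_or {C D F : Set W} (h1 : Nested C F) :
    Nested (C ∩ D) F ∨ Nested (Cᶜ ∩ Dᶜ) F := by
  rcases h1 with h1 | h1 | h1 | h1
  · exact Or.inl (Or.inl (Set.inter_subset_left.trans h1))
  · exact Or.inl (Or.inr (Or.inl (Set.inter_subset_left.trans h1)))
  · exact Or.inr (Or.inl (Set.inter_subset_left.trans h1))
  · exact Or.inr (Or.inr (Or.inl (Set.inter_subset_left.trans h1)))

end General

end Pool.Agent.H5
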