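import Mathlib
import Pool.Agent.H5.Cuts2

/-!
Minimal cuts in connected graphs, and optimally nested minimal cuts.
-/

namespace Pool.Agent.H5

open Relation

variable {W : Type} {r : W → W → Prop}

/-- A cut: an infinite set with infinite complement and finite coboundary. -/
def IsCut (r : W → W → Prop) (F : Set W) : Prop :=
  F.Infinite ∧ Fᶜ.Infinite ∧ (cob2 r F).Finite

/-- The cuts of size `k`. -/
def minCuts (r : W → W → Prop) (k : ℕ) : Set (Set W) := {F | IsCut r F ∧ (cob2 r F).encard = k}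

lemma isCut_compl (hr : ∀ a b, r a b → r b a) {F : Set W} (h : IsCut r F) : IsCut r Fᶜ := by
  refine ⟨h.2.1, by rw [compl_compl]; exact h.1, ?_⟩
  rw [cob2_compl hr]
  exact h.2.2.image _

lemma minCuts_compl (hr : ∀ a b, r a b → r b a) {k : ℕ} {F : Set W} (h : F ∈ minCuts r k) :
    Fᶜ ∈ minCuts r k :=
  ⟨isCut_compl hr h.1, by rw [cob2_compl_encard hr]; exact h.2⟩

lemma conn_of_minCut (hr : ∀ a b, r a b → r b a) (hc : ∀ a b, ReflTransGen r a b) {k : ℕ}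
    (hk : ∀ F, IsCut r F → (k : ℕ∞) ≤ (cob2 r F).encard) {C : Set W} (hC : C ∈ minCuts r k) :
    Conn r C := by
  classical
  intro a ha b hb
  by_contra hab
  -- the part of `C` reachable from `a`
  let R : W → W → Prop := fun u v => r u v ∧ u ∈ C ∧ v ∈ C
  let C1 : Set W := {v | v ∈ C ∧ ReflTransGen R a v}
  let C2 : Set W := {v | v ∈ C ∧ ¬ ReflTransGen R a v}
  have ha1 : a ∈ C1 := ⟨ha, ReflTransGen.refl⟩
  have hb2 : b ∈ C2 := ⟨hb, hab⟩
  have hs1 : cob2 r C1 ⊆ cob2 r C := by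
    rintro ⟨u, v⟩ ⟨h1, h2, h3⟩
    refine ⟨h1, h2.1, fun hv => h3 ⟨hv, h2.2.tail ⟨h1, h2.1, hv⟩⟩⟩
  have hs2 : cob2 r C2 ⊆ cob2 r C := by
    rintro ⟨u, v⟩ ⟨h1, h2, h3⟩
    refine ⟨h1, h2.1, fun hv => h3 ⟨hv, fun h => h2.2 (h.tail ⟨hr _ _ h1, hv, h2.1⟩)⟩⟩
  have hdisj : Disjoint (cob2 r C1) (cob2 r C2) := by
    rw [Set.disjoint_left]
    rintro ⟨u, v⟩ ⟨_, h2, _⟩ ⟨_, h5, _⟩
    exact h5.2 h2.2
  have hne1 : (cob2 r C1).Nonempty := cob2_nonempty hc ha1 (fun h => hab h.2)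
  have hne2 : (cob2 r C2).Nonempty := cob2_nonempty hc hb2 (fun h => h.2 ReflTransGen.refl : a ∉ C2)
  have hsum : (cob2 r C1).encard + (cob2 r C2).encard ≤ (k : ℕ∞) := by
    rw [← hC.2, ← Set.encard_union_eq hdisj]
    exact Set.encard_le_encard (Set.union_subset hs1 hs2)
  have hfin1 : (cob2 r C1).Finite := hC.1.2.2.subset hs1
  have hfin2 : (cob2 r C2).Finite := hC.1.2.2.subset hs2
  have h1 : 1 ≤ (cob2 r C1).encard := Set.one_le_encard_iff_nonempty.2 hne1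
  have h2 : 1 ≤ (cob2 r C2).encard := Set.one_le_encard_iff_nonempty.2 hne2
  have hunion : C = C1 ∪ C2 := by
    ext v
    constructor
    · intro hv
      by_cases h : ReflTransGen R a v
      · exact Or.inl ⟨hv, h⟩
      · exact Or.inr ⟨hv, h⟩
    · rintro (h | h)
      · exact h.1
      · exact h.1
  have hinf : C1.Infinite ∨ C2.Infinite := by
    rw [← Set.infinite_union, ← hunion]
    exact hC.1.1
  rcases hinf with hi | hi
  · have hcut : IsCut r C1 := ⟨hi, hC.1.2.1.mono (Set.compl_subset_compl.2 fun v hv => hv.1), hfin1⟩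
    have h3 := hk C1 hcut
    obtain ⟨n1, hn1⟩ := ENat.ne_top_iff_exists.1 (Set.encard_ne_top_iff.2 hfin1)
    obtain ⟨n2, hn2⟩ := ENat.ne_top_iff_exists.1 (Set.encard_ne_top_iff.2 hfin2)
    rw [← hn1] at h3 hsum
    rw [← hn2] at h2 hsum
    norm_cast at *
    omega
  · have hcut : IsCut r C2 := ⟨hi, hC.1.2.1.mono (Set.compl_subset_compl.2 fun v hv => hv.1), hfin2⟩
    have h3 := hk C2 hcut
    obtain ⟨n1, hn1⟩ := ENat.ne_top_iff_exists.1 (Set.encard_ne_top_iff.2 hfin1)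
    obtain ⟨n2, hn2⟩ := ENat.ne_top_iff_exists.1 (Set.encard_ne_top_iff.2 hfin2)
    rw [← hn1] at h1 hsum
    rw [← hn2] at h3 hsum
    norm_cast at *
    omega

lemma minCut_fam (hr : ∀ a b, r a b → r b a) (hc : ∀ a b, ReflTransGen r a b) {k : ℕ}
    (hk : ∀ F, IsCut r F → (k : ℕ∞) ≤ (cob2 r F).encard) {C : Set W} (hC : C ∈ minCuts r k) :
    C ∈ fam r k :=
  ⟨conn_of_minCut hr hc hk hC, conn_of_minCut hr hc hk (minCuts_compl hr hC), le_of_eq hC.2⟩

/-- Finitely many minimal cuts separate two given points. -/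
lemma finite_sep (hr : ∀ a b, r a b → r b a) (hc : ∀ a b, ReflTransGen r a b) {k : ℕ}
    (hk : ∀ F, IsCut r F → (k : ℕ∞) ≤ (cob2 r F).encard) (u v : W) :
    {F | F ∈ minCuts r k ∧ u ∈ F ∧ v ∉ F}.Finite := by
  classical
  induction hc u v with
  | refl =>
    convert Set.finite_empty
    ext F
    simp only [Set.mem_ofPred_eq, Set.mem_empty_iff_false, iff_false]
    rintro ⟨_, h1, h2⟩
    exact h2 h1
  | tail _ hbc ih =>
    rename_i b c _
    refine (ih.union (finite_fam k r hr b c hbc)).subset ?_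
    rintro F ⟨h1, h2, h3⟩
    by_cases hbF : b ∈ F
    · exact Or.inr ⟨minCut_fam hr hc hk h1, hbF, h3⟩
    · exact Or.inl ⟨h1, h2, hbF⟩

lemma nonempty_corners {C F : Set W} (h : ¬ Nested C F) :
    (C ∩ F).Nonempty ∧ (C ∩ Fᶜ).Nonempty ∧ (Cᶜ ∩ F).Nonempty ∧ (Cᶜ ∩ Fᶜ).Nonempty := by
  unfold Nested at h
  push Not at h
  obtain ⟨h1, h2, h3, h4⟩ := h
  rw [Set.not_subset] at h1 h2 h3 h4
  obtain ⟨a, ha, ha'⟩ := h1
  obtain ⟨b, hb, hb'⟩ := h2
  obtain ⟨c, hc, hc'⟩ := h3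
  obtain ⟨d, hd, hd'⟩ := h4
  exact ⟨⟨b, hb, by simpa using hb'⟩, ⟨a, ha, ha'⟩, ⟨d, hd, by simpa using hd'⟩, ⟨c, hc, hc'⟩⟩

/-- Finitely many minimal cuts are not nested with a given one. -/
lemma finite_nn (hr : ∀ a b, r a b → r b a) (hc : ∀ a b, ReflTransGen r a b) {k : ℕ}
    (hk : ∀ F, IsCut r F → (k : ℕ∞) ≤ (cob2 r F).encard) {C : Set W} (hC : C ∈ minCuts r k) :
    {F | F ∈ minCuts r k ∧ ¬ Nested C F}.Finite := by
  classical
  have hfin : (cob2 r C).Finite := hC.1.2.2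
  let U : Set W := (Prod.fst '' cob2 r C)
  have hU : U.Finite := hfin.image _
  have h1 : (⋃ u ∈ U, ⋃ v ∈ U, {F | F ∈ minCuts r k ∧ u ∈ F ∧ v ∉ F}).Finite :=
    hU.biUnion fun u _ => hU.biUnion fun v _ => finite_sep hr hc hk u v
  refine h1.subset ?_
  rintro F ⟨hF, hn⟩
  obtain ⟨⟨a, ha, ha'⟩, ⟨b, hb, hb'⟩, ⟨c, hcc, hc'⟩, ⟨d, hd, hd'⟩⟩ := nonempty_corners hn
  obtain ⟨u, u', huu, hu, -⟩ := conn_meets (C := C) (conn_of_minCut hr hc hk hF) ha' hc' ha hcc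
  obtain ⟨v, v', hvv, hv, -⟩ := conn_meets (C := C)
    (conn_of_minCut hr hc hk (minCuts_compl hr hF)) hb' hd' hb hd
  simp only [Set.mem_iUnion]
  exact ⟨u, ⟨(u, u'), huu, rfl⟩, v, ⟨(v, v'), hvv, rfl⟩, hF, hu, hv⟩

lemma corner_min {k : ℕ} (hr : ∀ a b, r a b → r b a)
    (hk : ∀ F, IsCut r F → (k : ℕ∞) ≤ (cob2 r F).encard) {C D : Set W} (hC : C ∈ minCuts r k)
    (hD : D ∈ minCuts r k) (h1 : (C ∩ D).Infinite) (h2 : (Cᶜ ∩ Dᶜ).Infinite) :
    C ∩ D ∈ minCuts r k ∧ Cᶜ ∩ Dᶜ ∈ minCuts r k := by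
  have h3 := cob2_inter_union (r := r) C D
  rw [hC.2, hD.2] at h3
  have hle : (cob2 r (C ∩ D)).encard + (cob2 r (C ∪ D)).encard < ⊤ := by
    refine lt_of_le_of_lt h3 ?_
    exact WithTop.add_lt_top.2 ⟨ENat.natCast_lt_top k, ENat.natCast_lt_top k⟩
  obtain ⟨h4, h5⟩ := WithTop.add_lt_top.1 hle
  have hfin1 : (cob2 r (C ∩ D)).Finite := Set.encard_lt_top_iff.1 h4
  have hfin2 : (cob2 r (C ∪ D)).Finite := Set.encard_lt_top_iff.1 h5
  have hcu : (C ∪ D)ᶜ = Cᶜ ∩ Dᶜ := Set.compl_union C D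
  have hcut1 : IsCut r (C ∩ D) := by
    refine ⟨h1, hC.1.2.1.mono ?_, hfin1⟩
    exact Set.compl_subset_compl.2 Set.inter_subset_left
  have hcut2 : IsCut r (C ∪ D) := by
    refine ⟨hC.1.1.mono Set.subset_union_left, ?_, hfin2⟩
    rw [hcu]; exact h2
  have hk1 := hk _ hcut1
  have hk2 := hk _ hcut2
  obtain ⟨n1, hn1⟩ := ENat.ne_top_iff_exists.1 h4.ne
  obtain ⟨n2, hn2⟩ := ENat.ne_top_iff_exists.1 h5.ne
  rw [← hn1, ← hn2] at h3
  rw [← hn1] at hk1
  rw [← hn2] at hk2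
  have e1 : n1 = k := by norm_cast at *; omega
  have e2 : n2 = k := by norm_cast at *; omega
  refine ⟨⟨hcut1, by rw [← hn1, e1]⟩, ?_⟩
  rw [← hcu]
  exact minCuts_compl hr ⟨hcut2, by rw [← hn2, e2]⟩

/-- The number of minimal cuts not nested with `C`. -/
noncomputable def nn (r : W → W → Prop) (k : ℕ) (C : Set W) : ℕ :=
  {F | F ∈ minCuts r k ∧ ¬ Nested C F}.ncard

lemma nn_compl (r : W → W → Prop) (k : ℕ) (C : Set W) : nn r k Cᶜ = nn r k C := by
  unfold nn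
  simp only [nested_compl_left]

/-- Optimally nested minimal cuts are nested: the case of a good corner. -/
lemma nested_of_opt_aux (hr : ∀ a b, r a b → r b a) (hc : ∀ a b, ReflTransGen r a b) {k : ℕ}
    (hk : ∀ F, IsCut r F → (k : ℕ∞) ≤ (cob2 r F).encard) {μ : ℕ}
    (hμ : ∀ F ∈ minCuts r k, μ ≤ nn r k F) {C D : Set W} (hC : C ∈ minCuts r k)
    (hD : D ∈ minCuts r k) (hCμ : nn r k C = μ) (hDμ : nn r k D = μ)
    (h1 : (C ∩ D).Infinite) (h2 : (Cᶜ ∩ Dᶜ).Infinite) : Nested C D := by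
  by_contra hn
  obtain ⟨h3, h4⟩ := corner_min hr hk hC hD h1 h2
  let M : Set W → Set (Set W) := fun C => {F | F ∈ minCuts r k ∧ ¬ Nested C F}
  have hMfin : ∀ C ∈ minCuts r k, (M C).Finite := fun C hC => finite_nn hr hc hk hC
  have hn' : ¬ Nested Cᶜ Dᶜ := by
    rw [nested_compl_left, nested_compl_right]; exact hn
  have hunion : M (C ∩ D) ∪ M (Cᶜ ∩ Dᶜ) ⊆ (M C ∪ M D) \ {C} := by
    rintro F (⟨hF, hF'⟩ | ⟨hF, hF'⟩)
    · refine ⟨?_, ?_⟩
      · by_contra hcon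
        simp only [M, Set.mem_union, Set.mem_ofPred_eq, hF, true_and, not_or, not_not] at hcon
        exact hF' (nested_corner hn hcon.1 hcon.2)
      · rintro rfl
        exact hF' (Or.inl Set.inter_subset_left)
    · refine ⟨?_, ?_⟩
      · by_contra hcon
        simp only [M, Set.mem_union, Set.mem_ofPred_eq, hF, true_and, not_or, not_not] at hcon
        exact hF' (nested_corner hn' (nested_compl_left.2 hcon.1) (nested_compl_left.2 hcon.2))
      · rintro rfl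
        exact hF' (Or.inr (Or.inl Set.inter_subset_left))
  have hinter : M (C ∩ D) ∩ M (Cᶜ ∩ Dᶜ) ⊆ M C ∩ M D := by
    rintro F ⟨⟨hF, hF1⟩, ⟨_, hF2⟩⟩
    refine ⟨⟨hF, fun h => ?_⟩, ⟨hF, fun h => ?_⟩⟩
    · rcases nested_corner_or (D := D) h with h | h
      · exact hF1 h
      · exact hF2 h
    · rcases nested_corner_or (D := C) h with h | h
      · rw [Set.inter_comm] at h; exact hF1 h
      · rw [Set.inter_comm] at h; exact hF2 h
  have hCD : C ∈ M D := ⟨hC, fun h => hn (nested_symm h)⟩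
  have e1 := Set.ncard_union_add_ncard_inter (M (C ∩ D)) (M (Cᶜ ∩ Dᶜ)) (hMfin _ h3) (hMfin _ h4)
  have e2 := Set.ncard_union_add_ncard_inter (M C) (M D) (hMfin _ hC) (hMfin _ hD)
  have hfinU : (M C ∪ M D).Finite := (hMfin _ hC).union (hMfin _ hD)
  have e3 : (M (C ∩ D) ∪ M (Cᶜ ∩ Dᶜ)).ncard < (M C ∪ M D).ncard := by
    refine lt_of_le_of_lt (Set.ncard_le_ncard hunion (hfinU.subset Set.sdiff_subset)) ?_
    exact Set.ncard_sdiff_singleton_lt_of_mem (Or.inr hCD) hfinU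
  have e4 : (M (C ∩ D) ∩ M (Cᶜ ∩ Dᶜ)).ncard ≤ (M C ∩ M D).ncard :=
    Set.ncard_le_ncard hinter ((hMfin _ hC).subset Set.inter_subset_left)
  have e5 : μ ≤ (M (C ∩ D)).ncard := hμ _ h3
  have e6 : μ ≤ (M (Cᶜ ∩ Dᶜ)).ncard := hμ _ h4
  have e7 : (M C).ncard = μ := hCμ
  have e8 : (M D).ncard = μ := hDμ
  omega

/-- Optimally nested minimal cuts are nested. -/
lemma nested_of_opt (hr : ∀ a b, r a b → r b a) (hc : ∀ a b, ReflTransGen r a b) {k : ℕ}
    (hk : ∀ F, IsCut r F → (k : ℕ∞) ≤ (cob2 r F).encard) {μ : ℕ}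
    (hμ : ∀ F ∈ minCuts r k, μ ≤ nn r k F) {C D : Set W} (hC : C ∈ minCuts r k)
    (hD : D ∈ minCuts r k) (hCμ : nn r k C = μ) (hDμ : nn r k D = μ) : Nested C D := by
  by_cases h : (C ∩ D).Infinite ∧ (Cᶜ ∩ Dᶜ).Infinite
  · exact nested_of_opt_aux hr hc hk hμ hC hD hCμ hDμ h.1 h.2
  · rw [← nested_compl_right]
    refine nested_of_opt_aux hr hc hk hμ hC (minCuts_compl hr hD) hCμ
      (by rw [nn_compl]; exact hDμ) ?_ ?_
    · by_contra hcon
      rw [Set.not_infinite] at hcon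
      apply h
      have h1 : (C ∩ D).Infinite := by
        have h3 : C = (C ∩ D) ∪ (C ∩ Dᶜ) := (Set.inter_union_compl C D).symm
        have h4 := hC.1.1
        rw [h3, Set.infinite_union] at h4
        exact h4.resolve_right (Set.not_infinite.2 hcon)
      have h2 : (Cᶜ ∩ Dᶜ).Infinite := by
        have h3 : Dᶜ = (C ∩ Dᶜ) ∪ (Cᶜ ∩ Dᶜ) := by
          rw [← Set.union_inter_distrib_right, Set.union_compl_self, Set.univ_inter]
        have h4 := hD.1.2.1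
        rw [h3, Set.infinite_union] at h4
        exact h4.resolve_left (Set.not_infinite.2 hcon)
      exact ⟨h1, h2⟩
    · rw [compl_compl]
      by_contra hcon
      rw [Set.not_infinite] at hcon
      apply h
      have h1 : (C ∩ D).Infinite := by
        have h3 : D = (C ∩ D) ∪ (Cᶜ ∩ D) := by
          rw [← Set.union_inter_distrib_right, Set.union_compl_self, Set.univ_inter]
        have h4 := hD.1.1
        rw [h3, Set.infinite_union] at h4
        exact h4.resolve_right (Set.not_infinite.2 hcon)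
      have h2 : (Cᶜ ∩ Dᶜ).Infinite := by
        have h3 : Cᶜ = (Cᶜ ∩ D) ∪ (Cᶜ ∩ Dᶜ) := (Set.inter_union_compl Cᶜ D).symm
        have h4 := hC.1.2.1
        rw [h3, Set.infinite_union] at h4
        exact h4.resolve_left (Set.not_infinite.2 hcon)
      exact ⟨h1, h2⟩

end Pool.Agent.H5
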