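import Mathlib
import Pool.Agent.H5.Cuts3

/-!
Nested families of sets: covers and the vertex relation.
-/

namespace Pool.Agent.H5

variable {W : Type}

/-- A nested family of nonempty sets closed under complements. -/
structure NestFam (E : Set (Set W)) : Prop where
  compl : ∀ F ∈ E, Fᶜ ∈ E
  nest : ∀ F ∈ E, ∀ D ∈ E, Nested F D
  ne : ∀ F ∈ E, F.Nonempty

/-- `Y` covers `X` in `E`. -/
def Cov (E : Set (Set W)) (X Y : Set W) : Prop :=
  X ∈ E ∧ Y ∈ E ∧ X ⊂ Y ∧ ∀ Z ∈ E, X ⊂ Z → Z ⊆ Y → Z = Y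

/-- `C` and `D` point away from the same vertex. -/
def Sim (E : Set (Set W)) (C D : Set W) : Prop := C = D ∨ Cov E Cᶜ D

variable {E : Set (Set W)}

lemma ssubset_compl {X Y : Set W} : Xᶜ ⊂ Y ↔ Yᶜ ⊂ X := by
  rw [Set.ssubset_iff_subset_ne, Set.ssubset_iff_subset_ne]
  constructor
  · rintro ⟨h1, h2⟩
    exact ⟨Set.compl_subset_comm.1 h1, fun h => h2 (by rw [← h, compl_compl])⟩
  · rintro ⟨h1, h2⟩
    exact ⟨Set.compl_subset_comm.1 h1, fun h => h2 (by rw [← h, compl_compl])⟩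

lemma Cov.compl (hE : NestFam E) {X Y : Set W} (h : Cov E X Y) : Cov E Yᶜ Xᶜ := by
  obtain ⟨h1, h2, h3, h4⟩ := h
  refine ⟨hE.compl _ h2, hE.compl _ h1, ?_, ?_⟩
  · rw [ssubset_compl, compl_compl]; exact h3
  · intro Z hZ h5 h6
    have h7 : X ⊆ Zᶜ := by
      rw [Set.subset_compl_comm]; exact h6
    by_contra hne
    have h8 : X ⊂ Zᶜ := by
      refine Set.ssubset_iff_subset_ne.2 ⟨h7, fun h => hne ?_⟩
      rw [h, compl_compl]
    have h9 : Zᶜ ⊂ Y := by rw [ssubset_compl]; exact h5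
    have h10 := h4 _ (hE.compl _ hZ) h8 h9.subset
    exact h9.ne h10

lemma Sim.symm (hE : NestFam E) {C D : Set W} (h : Sim E C D) : Sim E D C := by
  rcases h with rfl | h
  · exact Or.inl rfl
  · refine Or.inr ?_
    have := h.compl hE
    rwa [compl_compl] at this

lemma Sim.disj {C D : Set W} (h : Sim E C D) (hne : C ≠ D) : Cᶜ ⊂ D :=
  (h.resolve_left hne).2.2.1

lemma not_univ (hE : NestFam E) {F D : Set W} (hF : F ∈ E) (h1 : D ⊆ F) (h2 : Dᶜ ⊆ F) : False := by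
  obtain ⟨x, hx⟩ := hE.ne _ (hE.compl _ hF)
  by_cases h : x ∈ D
  · exact hx (h1 h)
  · exact hx (h2 h)

lemma Sim.trans (hE : NestFam E) {C D F : Set W} (h1 : Sim E C D) (h2 : Sim E D F) :
    Sim E C F := by
  rcases h1 with rfl | h1
  · exact h2
  rcases h2 with rfl | h2
  · exact Or.inr h1
  have h1' : Cov E Dᶜ C := by
    have := h1.compl hE
    rwa [compl_compl] at this
  obtain ⟨hCE, hDE, hCD, hC⟩ := h1
  obtain ⟨hDE', hFE, hDF, hD⟩ := h2
  have hCE' : C ∈ E := h1'.2.1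
  obtain ⟨x, hx⟩ := hE.ne _ hDE'
  have hxC : x ∈ C := h1'.2.2.1.subset hx
  have hxF : x ∈ F := hDF.subset hx
  rcases hE.nest C hCE' F hFE with h | h | h | h
  · exact Or.inl (hD C hCE' h1'.2.2.1 h)
  · exact absurd hxF (h hxC)
  · refine Or.inr ⟨hCE, hFE, Set.ssubset_iff_subset_ne.2 ⟨h, ?_⟩, ?_⟩
    · rintro rfl
      exact hxF hxC
    · intro Z hZ hCZ hZF
      rcases hE.nest Z hZ D hDE with h' | h' | h' | h'
      · have := hC Z hZ hCZ h'
        subst this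
        exact (not_univ hE hFE hZF hDF.subset).elim
      · obtain ⟨y, hy⟩ := hE.ne _ hCE
        exact absurd (hCD.subset hy) (h' (hCZ.subset hy))
      · have h3 : Dᶜ ⊆ Z := Set.compl_subset_comm.1 h'
        rcases Set.eq_or_ssubset_of_subset h3 with h4 | h4
        · obtain ⟨y, hy⟩ := hE.ne _ hCE
          have := hCZ.subset hy
          rw [← h4] at this
          exact absurd (hCD.subset hy) this
        · exact hD Z hZ h4 hZF
      · have h3 : D ⊆ Z := Set.compl_subset_compl.1 h'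
        exact (not_univ hE hFE (h3.trans hZF) hDF.subset).elim
  · have h3 : F ⊆ C := Set.compl_subset_compl.1 h
    exact Or.inl (h1'.2.2.2 F hFE hDF h3).symm

/-- A chain argument. -/
lemma chain_induction (hdisc : ∀ u v : W, {F | F ∈ E ∧ u ∈ F ∧ v ∉ F}.Finite) (hE : NestFam E)
    {P : Set W → Prop} (hstep : ∀ X Y, Cov E X Y → P X → P Y) {X Y : Set W} (hX : X ∈ E)
    (hY : Y ∈ E) (hXY : X ⊆ Y) (hP : P X) : P Y := by
  classical
  have hfin : ∀ X ∈ E, {Z | Z ∈ E ∧ X ⊂ Z ∧ Z ⊆ Y}.Finite := by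
    intro X hX
    obtain ⟨u, hu⟩ := hE.ne _ hX
    obtain ⟨v, hv⟩ := hE.ne _ (hE.compl _ hY)
    refine (hdisc u v).subset ?_
    rintro Z ⟨h1, h2, h3⟩
    exact ⟨h1, h2.subset hu, fun h => hv (h3 h)⟩
  generalize hn : {Z | Z ∈ E ∧ X ⊂ Z ∧ Z ⊆ Y}.ncard = n
  induction n using Nat.strong_induction_on generalizing X with
  | _ n ih =>
    rcases Set.eq_or_ssubset_of_subset hXY with rfl | hlt
    · exact hP
    · obtain ⟨Z, hZ⟩ := (hfin X hX).exists_minimal ⟨Y, hY, hlt, subset_rfl⟩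
      have hZmem := hZ.prop
      obtain ⟨hZE, hXZ, hZY⟩ := hZmem
      have hcov : Cov E X Z := by
        refine ⟨hX, hZE, hXZ, ?_⟩
        intro Z' hZ' h1 h2
        exact subset_antisymm h2 (hZ.le_of_le ⟨hZ', h1, h2.trans hZY⟩ h2)
      refine ih _ ?_ hZE hZY (hstep _ _ hcov hP) rfl
      rw [← hn]
      refine Set.ncard_lt_ncard ?_ (hfin X hX)
      refine Set.ssubset_iff_subset_ne.2 ⟨?_, ?_⟩
      · rintro F ⟨h1, h2, h3⟩
        exact ⟨h1, hXZ.trans h2, h3⟩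
      · intro h
        have : Z ∈ {Z' | Z' ∈ E ∧ Z ⊂ Z' ∧ Z' ⊆ Y} := by
          rw [h]; exact ⟨hZE, hXZ, hZY⟩
        exact (this.2.1).ne rfl

/-- Existence of covers. -/
lemma exists_cov (hdisc : ∀ u v : W, {F | F ∈ E ∧ u ∈ F ∧ v ∉ F}.Finite) (hE : NestFam E)
    {X Y : Set W} (hX : X ∈ E) (hY : Y ∈ E) (hXY : X ⊂ Y) : ∃ Z, Cov E X Z := by
  classical
  have hfin : {Z | Z ∈ E ∧ X ⊂ Z ∧ Z ⊆ Y}.Finite := by
    obtain ⟨u, hu⟩ := hE.ne _ hX
    obtain ⟨v, hv⟩ := hE.ne _ (hE.compl _ hY)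
    refine (hdisc u v).subset ?_
    rintro Z ⟨h1, h2, h3⟩
    exact ⟨h1, h2.subset hu, fun h => hv (h3 h)⟩
  obtain ⟨Z, hZ⟩ := hfin.exists_minimal ⟨Y, hY, hXY, subset_rfl⟩
  obtain ⟨hZE, hXZ, hZY⟩ := hZ.prop
  refine ⟨Z, hX, hZE, hXZ, ?_⟩
  intro Z' hZ' h1 h2
  exact subset_antisymm h2 (hZ.le_of_le ⟨hZ', h1, h2.trans hZY⟩ h2)

end Pool.Agent.H5
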