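import Mathlib
import Pool.Agent.H5.Split1

/-!
A free splitting from a nested orbit.
-/

namespace Pool.Agent.H5

open Pointwise

variable {V : Type} [Group V]

/-- The group `V` is the internal free product of two nontrivial subgroups. -/
def Splits (V : Type) [Group V] : Prop :=
  ∃ K : Bool → Subgroup V, (∀ i, K i ≠ ⊥) ∧
    Function.Bijective (Monoid.CoprodI.lift fun i => (K i).subtype)

/-- The orbit family of `C`. -/
def orb (C : Set V) : Set (Set V) := {F | ∃ g : V, F = g • C ∨ F = g • Cᶜ}

lemma orb_smul {C F : Set V} (g : V) (hF : F ∈ orb C) : g • F ∈ orb C := by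
  obtain ⟨h, rfl | rfl⟩ := hF
  · exact ⟨g * h, Or.inl (by rw [mul_smul])⟩
  · exact ⟨g * h, Or.inr (by rw [mul_smul])⟩

lemma orb_compl {C F : Set V} (hF : F ∈ orb C) : Fᶜ ∈ orb C := by
  obtain ⟨h, rfl | rfl⟩ := hF
  · exact ⟨h, Or.inr Set.smul_set_compl.symm⟩
  · exact ⟨h, Or.inl (by rw [Set.smul_set_compl, compl_compl])⟩

lemma self_mem_orb (C : Set V) : C ∈ orb C := ⟨1, Or.inl (one_smul _ _).symm⟩

lemma smul_ssubset {g : V} {X Y : Set V} : g • X ⊂ g • Y ↔ X ⊂ Y := by
  rw [Set.ssubset_iff_subset_ne, Set.ssubset_iff_subset_ne, Set.smul_set_subset_smul_set_iff]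
  refine and_congr Iff.rfl (not_congr ?_)
  exact (MulAction.injective g).eq_iff

lemma nested_smul {g : V} {X Y : Set V} : Nested (g • X) (g • Y) ↔ Nested X Y := by
  unfold Nested
  simp only [← Set.smul_set_compl, Set.smul_set_subset_smul_set_iff]

lemma cov_smul {C X Y : Set V} (g : V) (h : Cov (orb C) X Y) : Cov (orb C) (g • X) (g • Y) := by
  obtain ⟨h1, h2, h3, h4⟩ := h
  refine ⟨orb_smul g h1, orb_smul g h2, smul_ssubset.2 h3, ?_⟩
  intro Z hZ h5 h6
  have h7 : X ⊂ g⁻¹ • Z := by
    rw [← smul_ssubset (g := g), smul_inv_smul]; exact h5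
  have h8 : g⁻¹ • Z ⊆ Y := by
    rw [← Set.smul_set_subset_smul_set_iff (a := g), smul_inv_smul]; exact h6
  rw [← h4 _ (orb_smul g⁻¹ hZ) h7 h8, smul_inv_smul]

lemma sim_smul {C X Y : Set V} (g : V) (h : Sim (orb C) X Y) : Sim (orb C) (g • X) (g • Y) := by
  rcases h with rfl | h
  · exact Or.inl rfl
  · refine Or.inr ?_
    rw [← Set.smul_set_compl]
    exact cov_smul g h

section

variable {C : Set V} (hne : C.Nonempty) (hne' : Cᶜ.Nonempty) (hnest : ∀ g : V, Nested C (g • C))
  (hstab : ∀ g : V, g • C = C → g = 1) (hinv : ∀ g : V, g • C ≠ Cᶜ)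
  (hdisc : ∀ u v : V, {F | F ∈ orb C ∧ u ∈ F ∧ v ∉ F}.Finite)

include hne hne' hnest in
lemma orb_nestFam : NestFam (orb C) := by
  refine ⟨fun F hF => orb_compl hF, ?_, ?_⟩
  · have h0 : ∀ g h : V, Nested (g • C) (h • C) := by
      intro g h
      have h1 := hnest (g⁻¹ * h)
      rw [← nested_smul (g := g), ← mul_smul, mul_inv_cancel_left] at h1
      exact h1
    rintro F ⟨g, rfl | rfl⟩ D ⟨h, rfl | rfl⟩
    · exact h0 g h
    · rw [Set.smul_set_compl, nested_compl_right]; exact h0 g h
    · rw [Set.smul_set_compl, nested_compl_left]; exact h0 g h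
    · rw [Set.smul_set_compl, Set.smul_set_compl, nested_compl_left, nested_compl_right]
      exact h0 g h
  · rintro F ⟨g, rfl | rfl⟩
    · exact hne.smul_set
    · exact hne'.smul_set

/-- The stabiliser of the vertex of `D`. -/
def vstab (hE : NestFam (orb C)) (D : Set V) : Subgroup V where
  carrier := {g | Sim (orb C) (g • D) D}
  one_mem' := Or.inl (one_smul _ _)
  mul_mem' := by
    intro a b ha hb
    simp only [Set.mem_ofPred_eq] at *
    rw [mul_smul]
    exact (sim_smul a hb).trans hE ha
  inv_mem' := by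
    intro a ha
    simp only [Set.mem_ofPred_eq] at *
    have := sim_smul a⁻¹ ha
    rw [inv_smul_smul] at this
    exact this.symm hE

lemma mem_vstab {hE : NestFam (orb C)} {D : Set V} {g : V} :
    g ∈ vstab hE D ↔ Sim (orb C) (g • D) D := Iff.rfl

include hstab hinv hdisc in
/-- Generation. -/
lemma generation (hE : NestFam (orb C)) (W : Subgroup V) (hA : vstab hE C ≤ W)
    (hB : vstab hE Cᶜ ≤ W) (hW : ∀ g : V, Sim (orb C) (g • C) Cᶜ → g ∈ W) : W = ⊤ := by
  let P : Set V → Prop := fun X => ∃ w ∈ W, X = w • C ∨ X = w • Cᶜ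
  have hPc : ∀ X, P X → P Xᶜ := by
    rintro X ⟨w, hw, rfl | rfl⟩
    · exact ⟨w, hw, Or.inr Set.smul_set_compl.symm⟩
    · exact ⟨w, hw, Or.inl (by rw [Set.smul_set_compl, compl_compl])⟩
  have hW' : ∀ g : V, Sim (orb C) (g • Cᶜ) C → g ∈ W := by
    intro g hg
    have h1 := sim_smul g⁻¹ hg
    rw [inv_smul_smul] at h1
    have h2 := hW _ (h1.symm hE)
    exact (Subgroup.inv_mem_iff W).1 h2
  have hsim : ∀ X Y, Y ∈ orb C → P X → Sim (orb C) X Y → P Y := by
    intro X Y hY hX hXY
    obtain ⟨w, hw, hX⟩ := hX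
    have h1 := sim_smul w⁻¹ hXY
    obtain ⟨g, hg⟩ : w⁻¹ • Y ∈ orb C := orb_smul _ hY
    have hwg : ∀ D : Set V, w⁻¹ • Y = g • D → Y = (w * g) • D := by
      intro D h
      rw [mul_smul, ← h, smul_inv_smul]
    have hgW : g ∈ W → P Y := by
      intro hgW
      refine ⟨w * g, W.mul_mem hw hgW, ?_⟩
      rcases hg with hg | hg
      · exact Or.inl (hwg _ hg)
      · exact Or.inr (hwg _ hg)
    apply hgW
    rcases hX with rfl | rfl
    · rw [inv_smul_smul] at h1
      rcases hg with hg | hg
      · rw [hg] at h1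
        exact hA (h1.symm hE)
      · rw [hg] at h1
        exact hW' g (h1.symm hE)
    · rw [inv_smul_smul] at h1
      rcases hg with hg | hg
      · rw [hg] at h1
        exact hW g (h1.symm hE)
      · rw [hg] at h1
        exact hB (h1.symm hE)
  have hstep : ∀ X Y, Cov (orb C) X Y → P X → P Y := by
    intro X Y hXY hX
    refine hsim Xᶜ Y hXY.2.1 (hPc _ hX) (Or.inr ?_)
    rw [compl_compl]; exact hXY
  have hCorb : C ∈ orb C := self_mem_orb C
  have hP0 : P C := ⟨1, W.one_mem, Or.inl (one_smul _ _).symm⟩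
  have hall : ∀ Y ∈ orb C, P Y := by
    intro Y hY
    rcases hE.nest C hCorb Y hY with h | h | h | h
    · exact chain_induction hdisc hE hstep hCorb hY h hP0
    · have := chain_induction hdisc hE hstep hCorb (orb_compl hY) h hP0
      have := hPc _ this
      rwa [compl_compl] at this
    · exact chain_induction hdisc hE hstep (orb_compl hCorb) hY h (hPc _ hP0)
    · have := chain_induction hdisc hE hstep (orb_compl hCorb) (orb_compl hY) h (hPc _ hP0)
      have := hPc _ this
      rwa [compl_compl] at this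
  rw [eq_top_iff]
  intro g _
  obtain ⟨w, hw, h | h⟩ := hall (g • C) (orb_smul g hCorb)
  · have h1 : (w⁻¹ * g) • C = C := by rw [mul_smul, h, inv_smul_smul]
    have h2 := hstab _ h1
    rw [inv_mul_eq_one] at h2
    rw [← h2]; exact hw
  · have h1 : (w⁻¹ * g) • C = Cᶜ := by rw [mul_smul, h, inv_smul_smul]
    exact absurd h1 (hinv _)

lemma infinite_of_torsionfree (htf : ∀ g : V, IsOfFinOrder g → g = 1) {K : Subgroup V}
    (hK : K ≠ ⊥) : Infinite K := by
  obtain ⟨g, hg1⟩ := Subgroup.ne_bot_iff_exists_ne_one.1 hK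
  have h1 : ¬ IsOfFinOrder g := by
    intro h
    have h2 : IsOfFinOrder (g : V) := by
      rw [Submonoid.isOfFinOrder_coe]
      exact h
    exact hg1 (Subtype.ext (htf _ h2))
  exact Infinite.of_injective (fun n : ℕ => g ^ n) (injective_pow_iff_not_isOfFinOrder.2 h1)

end

section

lemma three_le_card {K : Type} [Infinite K] : 3 ≤ Cardinal.mk K :=
  (Cardinal.natCast_lt_aleph0 (n := 3)).le.trans (Cardinal.aleph0_le_mk K)

lemma bijective_of_pingpong (htf : ∀ g : V, IsOfFinOrder g → g = 1) (K : Bool → Subgroup V)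
    (hK : ∀ i, K i ≠ ⊥) (X : Bool → Set V) (hX : ∀ i, (X i).Nonempty)
    (hdisj : Disjoint (X true) (X false))
    (h1 : ∀ a ∈ K true, a ≠ 1 → a • X false ⊆ X true)
    (h2 : ∀ b ∈ K false, b ≠ 1 → b • X true ⊆ X false)
    (hgen : K true ⊔ K false = ⊤) :
    Function.Bijective (Monoid.CoprodI.lift fun i => (K i).subtype) := by
  constructor
  · refine Monoid.CoprodI.lift_injective_of_ping_pong (fun i => (K i).subtype) ?_ X hX ?_ ?_
    · have := infinite_of_torsionfree htf (hK true)
      exact Or.inr ⟨true, three_le_card⟩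
    · intro i j hij
      cases i <;> cases j
      · exact absurd rfl hij
      · exact hdisj.symm
      · exact hdisj
      · exact absurd rfl hij
    · intro i j hij h hh
      cases i <;> cases j
      · exact absurd rfl hij
      · exact h2 h h.2 (fun h' => hh (Subtype.ext h'))
      · exact h1 h h.2 (fun h' => hh (Subtype.ext h'))
      · exact absurd rfl hij
  · rw [← MonoidHom.range_eq_top, Monoid.CoprodI.range_eq_iSup, iSup_bool_eq]
    simp only [Subgroup.range_subtype]
    exact hgen

variable {C : Set V} (hne : C.Nonempty) (hne' : Cᶜ.Nonempty)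
  (hstab : ∀ g : V, g • C = C → g = 1) (hinv : ∀ g : V, g • C ≠ Cᶜ)
  (hdisc : ∀ u v : V, {F | F ∈ orb C ∧ u ∈ F ∧ v ∉ F}.Finite)

include hne hne' hstab hinv hdisc in
/-- The amalgam case. -/
lemma splits_case_one (htf : ∀ g : V, IsOfFinOrder g → g = 1) (hE : NestFam (orb C))
    (hmax : ∃ F ∈ orb C, C ⊂ F) (hmax' : ∃ F ∈ orb C, Cᶜ ⊂ F)
    (hno : ∀ g : V, ¬ Sim (orb C) (g • C) Cᶜ) : Splits V := by
  have hCorb : C ∈ orb C := self_mem_orb C
  have hno' : ∀ g : V, ¬ Sim (orb C) (g • Cᶜ) C := by
    intro g hg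
    have h1 := sim_smul g⁻¹ hg
    rw [inv_smul_smul] at h1
    exact hno _ (h1.symm hE)
  let K : Bool → Subgroup V := fun b => cond b (vstab hE C) (vstab hE Cᶜ)
  have hA : vstab hE C ≠ ⊥ := by
    obtain ⟨F, hF, hCF⟩ := hmax'
    obtain ⟨Z, hZ⟩ := exists_cov hdisc hE (orb_compl hCorb) hF hCF
    obtain ⟨g, hg | hg⟩ := hZ.2.1
    · intro hbot
      have h1 : g ∈ vstab hE C := by
        rw [mem_vstab, ← hg]
        exact Sim.symm hE (Or.inr hZ)
      rw [hbot, Subgroup.mem_bot] at h1
      rw [h1, one_smul] at hg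
      rw [hg] at hZ
      obtain ⟨x, hx⟩ := hne'
      exact hx (hZ.2.2.1.subset hx)
    · exfalso
      apply hno' g
      rw [← hg]
      exact Sim.symm hE (Or.inr hZ)
  have hB : vstab hE Cᶜ ≠ ⊥ := by
    obtain ⟨F, hF, hCF⟩ := hmax
    obtain ⟨Z, hZ⟩ := exists_cov hdisc hE hCorb hF hCF
    have hsim : Sim (orb C) Z Cᶜ := by
      refine Sim.symm hE (Or.inr ?_)
      rw [compl_compl]; exact hZ
    obtain ⟨g, hg | hg⟩ := hZ.2.1
    · exfalso
      apply hno g
      rw [← hg]
      exact hsim
    · intro hbot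
      have h1 : g ∈ vstab hE Cᶜ := by
        rw [mem_vstab, ← hg]
        exact hsim
      rw [hbot, Subgroup.mem_bot] at h1
      rw [h1, one_smul] at hg
      rw [hg] at hZ
      obtain ⟨x, hx⟩ := hne
      exact (hZ.2.2.1.subset hx) hx
  refine ⟨K, ?_, ?_⟩
  · intro i
    cases i
    · exact hB
    · exact hA
  · refine bijective_of_pingpong htf K ?_ (fun b => cond b C Cᶜ) ?_ ?_ ?_ ?_ ?_
    · intro i
      cases i
      · exact hB
      · exact hA
    · intro i
      cases i
      · exact hne'
      · exact hne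
    · exact disjoint_compl_right
    · intro a ha ha1
      have h1 : Sim (orb C) (a • C) C := ha
      have h2 := (h1.disj fun h => ha1 (hstab a h)).subset
      rw [← Set.smul_set_compl] at h2
      exact h2
    · intro b hb hb1
      have h1 : Sim (orb C) (b • Cᶜ) Cᶜ := hb
      have h2 := (h1.disj fun h => hb1 (hstab b (by
        rw [Set.smul_set_compl, compl_inj_iff] at h; exact h))).subset
      rw [Set.smul_set_compl, compl_compl] at h2
      exact h2
    · exact generation hstab hinv hdisc hE _ le_sup_left le_sup_right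
        (fun g hg => absurd hg (hno g))

include hne' hstab hinv hdisc in
/-- The HNN case. -/
lemma splits_case_two (htf : ∀ g : V, IsOfFinOrder g → g = 1) (hE : NestFam (orb C))
    {t : V} (ht : Sim (orb C) (t • C) Cᶜ) : Splits V ∨ IsCyclic V := by
  have ht1 : C ⊂ t • C := by
    have h1 := ht.disj (hinv t)
    rw [ssubset_compl, compl_compl] at h1
    exact h1
  have ht' : Sim (orb C) C (t⁻¹ • Cᶜ) := by
    have h1 := sim_smul t⁻¹ ht
    rw [inv_smul_smul] at h1
    exact h1
  have htne : t ≠ 1 := by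
    rintro rfl
    rw [one_smul] at ht1
    exact ht1.ne rfl
  have hgen : vstab hE C ⊔ Subgroup.zpowers t = ⊤ := by
    have htm : t ∈ vstab hE C ⊔ Subgroup.zpowers t :=
      (le_sup_right : Subgroup.zpowers t ≤ _) (Subgroup.mem_zpowers t)
    have key : ∀ g : V, Sim (orb C) (g • C) Cᶜ → g ∈ vstab hE C ⊔ Subgroup.zpowers t := by
      intro g hg
      have h1 : t⁻¹ * g ∈ vstab hE C := by
        rw [mem_vstab, mul_smul]
        have h2 := sim_smul t⁻¹ (hg.trans hE (ht.symm hE))
        rw [inv_smul_smul] at h2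
        exact h2
      have h3 := Subgroup.mul_mem _ htm ((le_sup_left : vstab hE C ≤ _) h1)
      rwa [mul_inv_cancel_left] at h3
    refine generation hstab hinv hdisc hE _ le_sup_left ?_ key
    intro b hb
    -- `b t • C ~ b • Cᶜ ~ Cᶜ`
    have h1 : Sim (orb C) ((b * t) • C) Cᶜ := by
      rw [mul_smul]
      exact (sim_smul b ht).trans hE hb
    have h2 := key _ h1
    have h3 := Subgroup.mul_mem _ h2 (Subgroup.inv_mem _ htm)
    rwa [mul_inv_cancel_right] at h3
  by_cases hA : vstab hE C = ⊥
  · right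
    rw [hA, bot_sup_eq] at hgen
    exact ⟨t, fun g => by
      have : g ∈ Subgroup.zpowers t := by rw [hgen]; trivial
      exact this⟩
  · left
    have hZ : Subgroup.zpowers t ≠ ⊥ := by
      rw [Ne, Subgroup.zpowers_eq_bot]; exact htne
    let K : Bool → Subgroup V := fun b => cond b (vstab hE C) (Subgroup.zpowers t)
    have hKne : ∀ i, K i ≠ ⊥ := by
      intro i
      cases i
      · exact hZ
      · exact hA
    refine ⟨K, hKne, ?_⟩
    let Xt : Set V := Cᶜ ∪ t⁻¹ • C
    let XA : Set V := {x | ∃ a ∈ vstab hE C, a ≠ 1 ∧ x ∈ a • Xt}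
    -- complements of distinct members of the class of `C` are disjoint
    have hdis : ∀ D D' : Set V, Sim (orb C) D C → Sim (orb C) D' C → D ≠ D' → ∀ x, x ∈ Dᶜ →
        x ∉ D'ᶜ := by
      intro D D' h1 h2 h3 x hx hx'
      exact hx' (((h1.trans hE (h2.symm hE)).disj h3).subset hx)
    have hXt : ∀ x, x ∈ Xt ↔ x ∈ Cᶜ ∨ x ∈ (t⁻¹ • Cᶜ)ᶜ := by
      intro x
      rw [Set.smul_set_compl, compl_compl]
      rfl
    refine bijective_of_pingpong htf K hKne (fun b => cond b XA Xt) ?_ ?_ ?_ ?_ hgen
    · intro i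
      cases i
      · exact hne'.mono (Set.subset_union_left)
      · obtain ⟨a, ha⟩ := Subgroup.ne_bot_iff_exists_ne_one.1 hA
        obtain ⟨x, hx⟩ := hne'
        exact ⟨(a : V) • x, a, a.2, fun h => ha (Subtype.ext h),
          Set.smul_mem_smul_set (Or.inl hx)⟩
    · rw [Set.disjoint_left]
      rintro x ⟨a, ha, ha1, hx⟩ hx'
      have hsa : Sim (orb C) (a • C) C := ha
      have hsa' : Sim (orb C) (a • t⁻¹ • Cᶜ) C := (sim_smul a (ht'.symm hE)).trans hE hsa
      have hx1 : x ∈ (a • C)ᶜ ∨ x ∈ (a • t⁻¹ • Cᶜ)ᶜ := by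
        rw [Set.mem_smul_set_iff_inv_smul_mem, hXt] at hx
        rcases hx with hx | hx
        · left
          rw [← Set.smul_set_compl, Set.mem_smul_set_iff_inv_smul_mem]; exact hx
        · right
          rw [← Set.smul_set_compl, Set.mem_smul_set_iff_inv_smul_mem]; exact hx
      rw [Bool.cond_false, hXt] at hx'
      rcases hx1 with hx1 | hx1 <;> rcases hx' with hx' | hx'
      · exact hdis _ _ hsa (Or.inl rfl) (fun h => ha1 (hstab a h)) x hx1 hx'
      · refine hdis _ _ hsa (ht'.symm hE) (fun h => ?_) x hx1 hx'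
        have h1 := congrArg (fun Y => t • Y) h
        simp only [smul_inv_smul] at h1
        rw [← mul_smul] at h1
        exact hinv _ h1
      · refine hdis _ _ hsa' (Or.inl rfl) (fun h => ?_) x hx1 hx'
        rw [← mul_smul] at h
        have h1 : (a * t⁻¹) • C = Cᶜ := by
          rw [← compl_inj_iff, ← Set.smul_set_compl, h, compl_compl]
        exact hinv _ h1
      · refine hdis _ _ hsa' (ht'.symm hE) (fun h => ?_) x hx1 hx'
        have h1 := congrArg (fun Y => t • Y) h
        simp only [smul_inv_smul] at h1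
        rw [← mul_smul, ← mul_smul, Set.smul_set_compl, compl_inj_iff] at h1
        have h2 := hstab _ h1
        apply ha1
        have h3 : a = t⁻¹ * (t * a * t⁻¹) * t := by group
        rw [h3, h2]; group
    · intro a ha ha1
      rintro x hx
      exact ⟨a, ha, ha1, hx⟩
    · intro b hb hb1
      obtain ⟨n, rfl⟩ := hb
      rintro _ ⟨x, hx, rfl⟩
      -- `x ∉ Xt`
      have hxt : x ∉ Xt := by
        obtain ⟨a, ha, ha1, hxa⟩ := hx
        intro hx'
        have hsa : Sim (orb C) (a • C) C := ha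
        have hsa' : Sim (orb C) (a • t⁻¹ • Cᶜ) C := (sim_smul a (ht'.symm hE)).trans hE hsa
        have hx1 : x ∈ (a • C)ᶜ ∨ x ∈ (a • t⁻¹ • Cᶜ)ᶜ := by
          rw [Set.mem_smul_set_iff_inv_smul_mem, hXt] at hxa
          rcases hxa with hx | hx
          · left
            rw [← Set.smul_set_compl, Set.mem_smul_set_iff_inv_smul_mem]; exact hx
          · right
            rw [← Set.smul_set_compl, Set.mem_smul_set_iff_inv_smul_mem]; exact hx
        rw [hXt] at hx'
        rcases hx1 with hx1 | hx1 <;> rcases hx' with hx' | hx'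
        · exact hdis _ _ hsa (Or.inl rfl) (fun h => ha1 (hstab a h)) x hx1 hx'
        · refine hdis _ _ hsa (ht'.symm hE) (fun h => ?_) x hx1 hx'
          have h1 := congrArg (fun Y => t • Y) h
          simp only [smul_inv_smul] at h1
          rw [← mul_smul] at h1
          exact hinv _ h1
        · refine hdis _ _ hsa' (Or.inl rfl) (fun h => ?_) x hx1 hx'
          rw [← mul_smul] at h
          have h1 : (a * t⁻¹) • C = Cᶜ := by
            rw [← compl_inj_iff, ← Set.smul_set_compl, h, compl_compl]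
          exact hinv _ h1
        · refine hdis _ _ hsa' (ht'.symm hE) (fun h => ?_) x hx1 hx'
          have h1 := congrArg (fun Y => t • Y) h
          simp only [smul_inv_smul] at h1
          rw [← mul_smul, ← mul_smul, Set.smul_set_compl, compl_inj_iff] at h1
          have h2 := hstab _ h1
          apply ha1
          have h3 : a = t⁻¹ * (t * a * t⁻¹) * t := by group
          rw [h3, h2]; group
      have hxC : x ∈ C := by
        by_contra h
        exact hxt (Or.inl h)
      have hxtC : x ∉ t⁻¹ • C := fun h => hxt (Or.inr h)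
      have hn : n ≠ 0 := by
        rintro rfl
        exact hb1 (zpow_zero t)
      have hpos : ∀ m : ℕ, t ^ (m + 1) • x ∈ Cᶜ := by
        intro m
        induction m with
        | zero =>
          rw [zero_add, pow_one]
          intro h
          apply hxtC
          rw [Set.mem_smul_set_iff_inv_smul_mem, inv_inv]
          exact h
        | succ m ih =>
          rw [pow_succ', mul_smul]
          intro h
          apply ih
          -- `t • y ∈ C ⊂ t • C`
          have h1 := ht1.subset h
          rwa [Set.smul_mem_smul_set_iff] at h1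
      have hneg : ∀ m : ℕ, (t⁻¹) ^ (m + 1) • x ∈ t⁻¹ • C := by
        intro m
        induction m with
        | zero =>
          rw [zero_add, pow_one]
          exact Set.smul_mem_smul_set hxC
        | succ m ih =>
          rw [pow_succ', mul_smul]
          refine Set.smul_mem_smul_set ?_
          rw [Set.mem_smul_set_iff_inv_smul_mem, inv_inv] at ih
          by_contra hcon
          have h1 := ht1.subset ih
          rw [Set.smul_mem_smul_set_iff] at h1
          exact hcon h1
      rcases lt_or_gt_of_ne hn with hn | hn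
      · right
        obtain ⟨m, hm⟩ : ∃ m : ℕ, n = -(m + 1 : ℕ) := ⟨n.natAbs - 1, by omega⟩
        have := hneg m
        rw [inv_pow, ← zpow_natCast, ← zpow_neg] at this
        simpa [hm] using this
      · left
        obtain ⟨m, hm⟩ : ∃ m : ℕ, n = (m + 1 : ℕ) := ⟨n.natAbs - 1, by omega⟩
        have := hpos m
        rw [← zpow_natCast] at this
        simpa [hm] using this

end

end Pool.Agent.H5
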