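import Mathlib
import Pool.Agent.H5.Split2

/-!
Stallings' theorem for finitely generated torsion-free groups.
-/

namespace Pool.Agent.H5

open Pointwise Relation

variable {V : Type} [Group V] {T : Finset V}

lemma cob2_smul (g : V) (F : Set V) :
    cob2 (adj T) (g • F) = (fun e : V × V => (g * e.1, g * e.2)) '' cob2 (adj T) F := by
  ext ⟨a, b⟩
  constructor
  · rintro ⟨h1, h2, h3⟩
    refine ⟨(g⁻¹ * a, g⁻¹ * b), ⟨(adj_mul _ _ _).2 h1, ?_, ?_⟩, by simp⟩
    · rw [Set.mem_smul_set_iff_inv_smul_mem] at h2; exact h2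
    · rw [Set.mem_smul_set_iff_inv_smul_mem] at h3; exact h3
  · rintro ⟨⟨c, d⟩, ⟨h1, h2, h3⟩, h4⟩
    obtain ⟨rfl, rfl⟩ := Prod.mk.inj h4
    refine ⟨(adj_mul _ _ _).2 h1, Set.smul_mem_smul_set h2, ?_⟩
    intro h
    exact h3 (Set.smul_mem_smul_set_iff.1 h)

lemma cob2_smul_encard (g : V) (F : Set V) :
    (cob2 (adj T) (g • F)).encard = (cob2 (adj T) F).encard := by
  rw [cob2_smul]
  refine Function.Injective.encard_image ?_ _
  rintro ⟨a, b⟩ ⟨c, d⟩ h
  simpa using h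

lemma isCut_smul (g : V) {F : Set V} (h : IsCut (adj T) F) : IsCut (adj T) (g • F) := by
  refine ⟨h.1.smul_set, ?_, ?_⟩
  · rw [← Set.smul_set_compl]; exact h.2.1.smul_set
  · rw [cob2_smul]; exact h.2.2.image _

lemma minCuts_smul (g : V) {k : ℕ} {F : Set V} (h : F ∈ minCuts (adj T) k) :
    g • F ∈ minCuts (adj T) k :=
  ⟨isCut_smul g h.1, by rw [cob2_smul_encard]; exact h.2⟩

lemma nn_smul (g : V) (k : ℕ) (C : Set V) : nn (adj T) k (g • C) = nn (adj T) k C := by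
  unfold nn
  have : {F | F ∈ minCuts (adj T) k ∧ ¬ Nested (g • C) F}
      = (fun F => g • F) '' {F | F ∈ minCuts (adj T) k ∧ ¬ Nested C F} := by
    ext F
    constructor
    · rintro ⟨h1, h2⟩
      refine ⟨g⁻¹ • F, ⟨minCuts_smul _ h1, ?_⟩, smul_inv_smul _ _⟩
      rw [← nested_smul (g := g), smul_inv_smul]
      exact h2
    · rintro ⟨D, ⟨h1, h2⟩, rfl⟩
      exact ⟨minCuts_smul _ h1, by rw [nested_smul]; exact h2⟩
  rw [this]
  exact Set.ncard_image_of_injective _ (MulAction.injective g)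

/-- A finite set is contained in a finite set star-connected from `b₀`. -/
lemma exists_star (hc : ∀ a b, ReflTransGen (adj T) a b) (b₀ : V) {U : Set V} (hU : U.Finite) :
    ∃ B : Set V, B.Finite ∧ U ⊆ B ∧
      ∀ b ∈ B, ReflTransGen (fun u v => adj T u v ∧ u ∈ B ∧ v ∈ B) b₀ b := by
  have h1 : ∀ u : V, ∃ B : Set V, B.Finite ∧ u ∈ B ∧ b₀ ∈ B ∧
      ∀ b ∈ B, ReflTransGen (fun u v => adj T u v ∧ u ∈ B ∧ v ∈ B) b₀ b := by
    intro u
    induction hc b₀ u with
    | refl =>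
      refine ⟨{b₀}, Set.finite_singleton _, rfl, rfl, ?_⟩
      rintro b rfl
      exact ReflTransGen.refl
    | tail _ hbc ih =>
      rename_i b c _
      obtain ⟨B, hB, hbB, h0, hB'⟩ := ih
      have hmono : ∀ d ∈ B, ReflTransGen
          (fun u v => adj T u v ∧ u ∈ insert c B ∧ v ∈ insert c B) b₀ d := by
        intro d hd
        exact rtg_mono (fun u v h => ⟨h.1, Or.inr h.2.1, Or.inr h.2.2⟩) (hB' d hd)
      refine ⟨insert c B, hB.insert c, Or.inl rfl, Or.inr h0, ?_⟩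
      rintro d (rfl | hd)
      · exact (hmono b hbB).tail ⟨hbc, Or.inr hbB, Or.inl rfl⟩
      · exact hmono d hd
  choose B hB1 hB2 hB3 hB4 using h1
  refine ⟨⋃ u ∈ U, B u, hU.biUnion fun u _ => hB1 u, ?_, ?_⟩
  · intro u hu
    simp only [Set.mem_iUnion]
    exact ⟨u, hu, hB2 u⟩
  · intro b hb
    simp only [Set.mem_iUnion] at hb
    obtain ⟨u, hu, hb⟩ := hb
    refine rtg_mono ?_ (hB4 u b hb)
    rintro v w ⟨h1, h2, h3⟩
    refine ⟨h1, ?_, ?_⟩ <;> simp only [Set.mem_iUnion]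
    · exact ⟨u, hu, h2⟩
    · exact ⟨u, hu, h3⟩

/-- No minimal cut is maximal in its orbit. -/
lemma exists_larger (hT : ∀ s ∈ T, s⁻¹ ∈ T) (hc : ∀ a b, ReflTransGen (adj T) a b) {k : ℕ}
    (hk : ∀ F, IsCut (adj T) F → (k : ℕ∞) ≤ (cob2 (adj T) F).encard) {C : Set V}
    (hC : C ∈ minCuts (adj T) k) (hstab : ∀ g : V, g • C = C → g = 1)
    (hinv : ∀ g : V, g • C ≠ Cᶜ) : ∃ F ∈ orb C, C ⊂ F := by
  classical
  have hr := adj_symm hT
  let U : Set V := Prod.fst '' cob2 (adj T) C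
  have hU : U.Finite := hC.1.2.2.image _
  obtain ⟨a, ha⟩ := hC.1.1.nonempty
  obtain ⟨b, hb⟩ := hC.1.2.1.nonempty
  obtain ⟨⟨u0, v0⟩, huv⟩ := cob2_nonempty hc ha hb
  have hu0 : u0 ∈ U := ⟨_, huv, rfl⟩
  obtain ⟨B, hB, hUB, hBc⟩ := exists_star hc u0 hU
  have hu0B : u0 ∈ B := hUB hu0
  -- choose `g`
  have hfin : (Set.image2 (fun u b => u * b⁻¹) U B).Finite := hU.image2 _ hB
  have hinf : ((fun c => c * u0⁻¹) '' Cᶜ).Infinite :=
    hC.1.2.1.image (mul_left_injective _).injOn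
  obtain ⟨g, hg, hgn⟩ := (hinf.sdiff hfin).nonempty
  obtain ⟨c, hcC, rfl⟩ := hg
  set g := c * u0⁻¹ with hgdef
  have hgB : ∀ b ∈ B, g * b ∉ C := by
    intro b hb
    have h1 := hBc b hb
    clear hb
    induction h1 with
    | refl => rw [hgdef, inv_mul_cancel_right]; exact hcC
    | tail _ hbc ih =>
      rename_i b d _
      intro hd
      apply hgn
      refine ⟨g * d, ⟨(g * d, g * b), ⟨(adj_mul _ _ _).2 (hr _ _ hbc.1), hd, ih⟩, rfl⟩, d,
        hbc.2.2, ?_⟩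
      change g * d * d⁻¹ = g
      rw [mul_inv_cancel_right]
  have hg1 : g ≠ 1 := by
    intro h
    have := hgB u0 hu0B
    rw [h, one_mul] at this
    exact this huv.2.1
  have hconn := conn_of_minCut hr hc hk hC
  by_cases h : ∃ x ∈ C, x ∈ g • C
  · by_cases h' : ∃ y ∈ C, y ∉ g • C
    · exfalso
      obtain ⟨x, hx, hx'⟩ := h
      obtain ⟨y, hy, hy'⟩ := h'
      obtain ⟨u, v, huv', hu, -⟩ := conn_meets (C := g • C) hconn hx hy hx' hy'
      rw [cob2_smul] at huv'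
      obtain ⟨⟨u', v'⟩, h1, h2⟩ := huv'
      obtain ⟨rfl, rfl⟩ := Prod.mk.inj h2
      exact hgB u' (hUB ⟨_, h1, rfl⟩) hu
    · push Not at h'
      refine ⟨g • C, orb_smul g (self_mem_orb C), Set.ssubset_iff_subset_ne.2 ⟨h', ?_⟩⟩
      intro h2
      exact hg1 (hstab g h2.symm)
  · push Not at h
    refine ⟨g • Cᶜ, orb_smul g (orb_compl (self_mem_orb C)),
      Set.ssubset_iff_subset_ne.2 ⟨?_, ?_⟩⟩
    · rw [Set.smul_set_compl]; exact h
    · intro h2
      rw [Set.smul_set_compl] at h2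
      exact hinv g (eq_compl_comm.1 h2)

lemma orb_compl_eq (C : Set V) : orb Cᶜ = orb C := by
  ext F
  unfold orb
  simp only [Set.mem_ofPred_eq, compl_compl]
  exact exists_congr fun g => or_comm

/-- Stallings' theorem for finitely generated torsion-free groups. -/
theorem stallings (hT : ∀ s ∈ T, s⁻¹ ∈ T) (hgen : Subgroup.closure (T : Set V) = ⊤)
    (htf : ∀ g : V, IsOfFinOrder g → g = 1) {F₀ : Set V} (hF₀ : IsCut (adj T) F₀) :
    Splits V ∨ IsCyclic V := by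
  classical
  have hr := adj_symm hT
  have hc := adj_conn hT hgen
  -- minimal size
  obtain ⟨k, ⟨C₀, hC₀⟩, hk⟩ : ∃ k : ℕ, (∃ C, C ∈ minCuts (adj T) k) ∧
      ∀ F, IsCut (adj T) F → (k : ℕ∞) ≤ (cob2 (adj T) F).encard := by
    have hex : ∃ k : ℕ, ∃ C, C ∈ minCuts (adj T) k := by
      obtain ⟨n, hn⟩ := ENat.ne_top_iff_exists.1 (Set.encard_ne_top_iff.2 hF₀.2.2)
      exact ⟨n, F₀, hF₀, hn.symm⟩
    refine ⟨Nat.find hex, Nat.find_spec hex, ?_⟩
    intro F hF
    obtain ⟨n, hn⟩ := ENat.ne_top_iff_exists.1 (Set.encard_ne_top_iff.2 hF.2.2)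
    rw [← hn]
    have := Nat.find_min' hex ⟨F, hF, hn.symm⟩
    exact_mod_cast this
  -- optimally nested
  obtain ⟨C, hC, hμ⟩ : ∃ C ∈ minCuts (adj T) k, ∀ F ∈ minCuts (adj T) k,
      nn (adj T) k C ≤ nn (adj T) k F := by
    have hex : ∃ n : ℕ, ∃ C ∈ minCuts (adj T) k, nn (adj T) k C = n := ⟨_, C₀, hC₀, rfl⟩
    obtain ⟨C, hC, hn⟩ := Nat.find_spec hex
    refine ⟨C, hC, ?_⟩
    intro F hF
    rw [hn]
    exact Nat.find_min' hex ⟨F, hF, rfl⟩
  have hnest : ∀ g : V, Nested C (g • C) := fun g =>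
    nested_of_opt hr hc hk hμ hC (minCuts_smul g hC) rfl (nn_smul g k C)
  have hstab : ∀ g : V, g • C = C → g = 1 := by
    intro g hg
    apply htf
    by_contra hnf
    obtain ⟨a, ha⟩ := hC.1.1.nonempty
    obtain ⟨b, hb⟩ := hC.1.2.1.nonempty
    obtain ⟨⟨u, v⟩, huv⟩ := cob2_nonempty hc ha hb
    have hpow : ∀ n : ℕ, g ^ n • C = C := by
      intro n
      induction n with
      | zero => rw [pow_zero, one_smul]
      | succ n ih => rw [pow_succ, mul_smul, hg, ih]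
    have hmem : ∀ n : ℕ, (g ^ n * u, g ^ n * v) ∈ cob2 (adj T) C := by
      intro n
      rw [← hpow n, cob2_smul]
      exact ⟨(u, v), huv, rfl⟩
    have hinj : Function.Injective (fun n : ℕ => (g ^ n * u, g ^ n * v)) := by
      intro m n hmn
      have h1 := (Prod.mk.inj hmn).1
      exact (injective_pow_iff_not_isOfFinOrder.2 hnf) (mul_right_cancel h1)
    exact Set.infinite_range_of_injective hinj
      (hC.1.2.2.subset (by rintro _ ⟨n, rfl⟩; exact hmem n))
  have hinv : ∀ g : V, g • C ≠ Cᶜ := by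
    intro g hg
    have h1 : (g * g) • C = C := by
      rw [mul_smul, hg, Set.smul_set_compl, hg, compl_compl]
    have h2 := hstab _ h1
    have h3 : g = 1 := by
      apply htf
      rw [isOfFinOrder_iff_pow_eq_one]
      exact ⟨2, by norm_num, by rw [pow_two]; exact h2⟩
    rw [h3, one_smul] at hg
    obtain ⟨a, ha⟩ := hC.1.1.nonempty
    have ha' := ha
    rw [hg] at ha'
    exact ha' ha
  have horb : ∀ F ∈ orb C, F ∈ minCuts (adj T) k := by
    rintro F ⟨g, rfl | rfl⟩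
    · exact minCuts_smul g hC
    · exact minCuts_smul g (minCuts_compl hr hC)
  have hdisc : ∀ u v : V, {F | F ∈ orb C ∧ u ∈ F ∧ v ∉ F}.Finite := by
    intro u v
    refine (finite_sep hr hc hk u v).subset ?_
    rintro F ⟨h1, h2⟩
    exact ⟨horb F h1, h2⟩
  have hne := hC.1.1.nonempty
  have hne' := hC.1.2.1.nonempty
  have hE := orb_nestFam hne hne' hnest
  have hmax := exists_larger hT hc hk hC hstab hinv
  have hmax' : ∃ F ∈ orb C, Cᶜ ⊂ F := by
    have h1 := exists_larger hT hc hk (minCuts_compl hr hC) (fun g hg => hstab g (by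
      rw [Set.smul_set_compl, compl_inj_iff] at hg; exact hg)) (fun g hg => hinv g (by
      rw [Set.smul_set_compl, compl_inj_iff] at hg; exact hg))
    rw [orb_compl_eq] at h1
    exact h1
  by_cases h : ∃ t : V, Sim (orb C) (t • C) Cᶜ
  · obtain ⟨t, ht⟩ := h
    exact splits_case_two hne' hstab hinv hdisc htf hE ht
  · push Not at h
    exact Or.inl (splits_case_one hne hne' hstab hinv hdisc htf hE hmax hmax' h)

end Pool.Agent.H5
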