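import Mathlib
import Pool.Agent.H5.Aug
import Pool.Agent.H5.Stallings

/-!
Groups whose augmentation ideal is finitely generated projective, via derivations.
-/

namespace Pool.Agent.H5

open MonoidAlgebra

variable {V : Type} [Group V]

/-- The augmentation ideal is a direct summand of `ℤ[V]^n` via `h - 1 ↦ D h`, split by
right multiplication with the column `c`. -/
def Pr (V : Type) [Group V] (n : ℕ) : Prop :=
  ∃ (D : V → Fin n → MonoidAlgebra ℤ V) (c : Fin n → MonoidAlgebra ℤ V),
    (∀ g h, D (g * h) = D g + el g • D h) ∧ (∀ h, D h ⬝ᵥ c = el h - 1) ∧ ∀ i, aug V (c i) = 0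

lemma coeff_el_mul (g : V) (r : MonoidAlgebra ℤ V) (v : V) :
    (el g * r).coeff v = r.coeff (g⁻¹ * v) := by
  change (MonoidAlgebra.single g 1 * r).coeff v = _
  rw [MonoidAlgebra.coeff_single_mul_apply, one_mul]

section Potential

variable {D : V → MonoidAlgebra ℤ V} (hD : ∀ g h, D (g * h) = D g + el g * D h)

/-- The potential of a derivation. -/
noncomputable def pot (D : V → MonoidAlgebra ℤ V) (v : V) : ℤ := (D v).coeff v

include hD in
lemma pot_spec (h v : V) : (D h).coeff v = pot D v - pot D (h⁻¹ * v) := by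
  have h1 := hD h (h⁻¹ * v)
  rw [mul_inv_cancel_left] at h1
  unfold pot
  conv_rhs => rw [h1]
  rw [MonoidAlgebra.coeff_add, Finsupp.add_apply, coeff_el_mul]
  ring

include hD in
lemma pot_almost (h : V) : {v | pot D v ≠ pot D (h⁻¹ * v)}.Finite := by
  refine ((D h).coeff.support.finite_toSet).subset ?_
  intro v hv
  rw [Finset.mem_coe, Finsupp.mem_support_iff, pot_spec hD]
  exact sub_ne_zero.2 hv

include hD in
/-- If the potential is almost constant then the derivation is inner. -/
lemma inner_of_almost_const (k : ℤ) (hk : {v | pot D v ≠ k}.Finite) :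
    ∃ b : MonoidAlgebra ℤ V, ∀ h, D h = b - el h * b := by
  classical
  let b0 : V →₀ ℤ := Finsupp.onFinset hk.toFinset (fun v => pot D v - k) (by
    intro v hv
    rw [Set.Finite.mem_toFinset]
    exact sub_ne_zero.1 hv)
  let b : MonoidAlgebra ℤ V := MonoidAlgebra.ofCoeff b0
  have hb : ∀ v, b.coeff v = pot D v - k := fun v => rfl
  refine ⟨b, fun h => ?_⟩
  ext v
  rw [MonoidAlgebra.coeff_sub, Finsupp.sub_apply, coeff_el_mul, hb, hb, pot_spec hD]
  ring

end Potential

/-- An almost invariant function which is not almost constant gives a cut. -/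
lemma exists_cut {T : Finset V} (hT : ∀ s ∈ T, s⁻¹ ∈ T)
    (hgen : Subgroup.closure (T : Set V) = ⊤) [Infinite V] (f : V → ℤ)
    (hf : ∀ s ∈ T, {v | f v ≠ f (v * s)}.Finite) (hk : ∀ k, ¬ {v | f v ≠ k}.Finite) :
    ∃ F : Set V, IsCut (adj T) F := by
  classical
  have hr := adj_symm hT
  have hc := adj_conn hT hgen
  -- the exceptional edges
  let Ed : Set (V × V) := {e | adj T e.1 e.2 ∧ f e.1 ≠ f e.2}
  have hEd : Ed.Finite := by
    have h1 : (⋃ s ∈ (T : Set V), (fun v => (v, v * s)) '' {v | f v ≠ f (v * s)}).Finite :=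
      T.finite_toSet.biUnion fun s hs => (hf s hs).image _
    refine h1.subset ?_
    rintro ⟨a, b⟩ ⟨h2, h3⟩
    simp only [Set.mem_iUnion]
    refine ⟨a⁻¹ * b, h2, a, ?_, ?_⟩
    · change f a ≠ f (a * (a⁻¹ * b))
      rw [mul_inv_cancel_left]; exact h3
    · simp
  have hsub : ∀ k, cob2 (adj T) {v | f v = k} ⊆ Ed := by
    rintro k ⟨a, b⟩ ⟨h1, h2, h3⟩
    refine ⟨h1, fun h => h3 ?_⟩
    change f b = k
    rw [← h]; exact h2
  -- the values
  have hval : (Set.range f).Finite := by
    by_cases hconst : ∃ k, ∀ v, f v = k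
    · obtain ⟨k, hk⟩ := hconst
      refine (Set.finite_singleton k).subset ?_
      rintro _ ⟨v, rfl⟩
      exact hk v
    · push Not at hconst
      refine (hEd.image fun e => f e.1).subset ?_
      rintro _ ⟨v, rfl⟩
      obtain ⟨w, hw⟩ := hconst (f v)
      obtain ⟨⟨a, b⟩, hab⟩ := cob2_nonempty hc (F := {x | f x = f v}) (a := v) (b := w) rfl hw
      exact ⟨(a, b), hsub _ hab, hab.2.1⟩
  -- an infinite level set
  obtain ⟨k, hkinf⟩ : ∃ k, {v | f v = k}.Infinite := by
    by_contra hcon
    push Not at hcon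
    have h1 : (⋃ k ∈ Set.range f, {v | f v = k}).Finite :=
      hval.biUnion fun k _ => hcon k
    refine Set.infinite_univ (h1.subset ?_)
    intro v _
    simp only [Set.mem_iUnion]
    exact ⟨f v, ⟨v, rfl⟩, rfl⟩
  exact ⟨{v | f v = k}, hkinf, hk k, hEd.subset (hsub k)⟩

/-- A left invariant element for an infinite group vanishes. -/
lemma eq_zero_of_invariant [Infinite V] {u : MonoidAlgebra ℤ V} (hu : ∀ h : V, el h * u = u) :
    u = 0 := by
  classical
  by_contra hne
  have hconst : ∀ v, u.coeff v = u.coeff 1 := by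
    intro v
    have h1 := congrArg (fun x : MonoidAlgebra ℤ V => x.coeff v) (hu v)
    simp only [coeff_el_mul, inv_mul_cancel] at h1
    exact h1.symm
  by_cases h1 : u.coeff 1 = 0
  · apply hne
    ext v
    rw [hconst v, h1]; rfl
  · have h2 : (u.coeff.support : Set V) = Set.univ := by
      ext v
      simp only [Finset.mem_coe, Finsupp.mem_support_iff, Set.mem_univ, iff_true]
      rw [hconst v]; exact h1
    have h3 := u.coeff.support.finite_toSet
    rw [h2] at h3
    exact Set.infinite_univ h3

/-- In an infinite group with `Pr`, there is a cut. -/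
lemma Pr.exists_cut {n : ℕ} (hP : Pr V n) [Infinite V] {T : Finset V} (hT : ∀ s ∈ T, s⁻¹ ∈ T)
    (hgen : Subgroup.closure (T : Set V) = ⊤) : ∃ F : Set V, IsCut (adj T) F := by
  classical
  obtain ⟨D, c, hD, hDc, hc⟩ := hP
  have hDi : ∀ i g h, D (g * h) i = D g i + el g * D h i := by
    intro i g h
    rw [hD]; rfl
  by_contra hcon
  have hinner : ∀ i, ∃ b : MonoidAlgebra ℤ V, ∀ h, D h i = b - el h * b := by
    intro i
    have h1 : ∃ k, {v | pot (fun g => D g i) v ≠ k}.Finite := by
      by_contra hk
      push Not at hk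
      apply hcon
      refine H5.exists_cut hT hgen (fun v => pot (fun g => D g i) v⁻¹) ?_ ?_
      · intro s _
        have h2 := pot_almost (D := fun g => D g i) (hDi i) s
        refine (h2.preimage (f := fun v : V => v⁻¹) inv_injective.injOn).subset ?_
        intro v hv
        simp only [Set.mem_ofPred_eq, Set.mem_preimage, mul_inv_rev] at *
        exact hv
      · intro k hfin
        refine hk k ?_
        refine (hfin.preimage (f := fun v : V => v⁻¹) inv_injective.injOn).subset ?_
        intro v hv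
        simp only [Set.mem_ofPred_eq, Set.mem_preimage, inv_inv] at *
        exact hv
    obtain ⟨k, hk⟩ := h1
    exact inner_of_almost_const (hDi i) k hk
  choose b hb using hinner
  have h1 : b ⬝ᵥ c + 1 = 0 := by
    apply eq_zero_of_invariant
    intro h
    have h2 := hDc h
    have h3 : D h = b - el h • b := by
      funext i; exact hb i h
    rw [h3, sub_dotProduct, smul_dotProduct, smul_eq_mul] at h2
    rw [mul_add, mul_one]
    have h4 : el h * (b ⬝ᵥ c) = b ⬝ᵥ c - (el h - 1) := by rw [← h2]; abel
    rw [h4]; abel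
  have h2 := congrArg (aug V) h1
  rw [map_add, map_one, map_zero, dotProduct, map_sum] at h2
  have h3 : ∑ i, aug V (b i * c i) = 0 := by
    refine Finset.sum_eq_zero fun i _ => ?_
    rw [map_mul, hc i, mul_zero]
  rw [h3] at h2
  simp at h2

end Pool.Agent.H5
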