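import Mathlib
import Pool.Agent.H5.PrDef

/-!
Groups with `Pr` are torsion-free.
-/

namespace Pool.Agent.H5

open MonoidAlgebra

variable {V : Type} [Group V]

/-- A representative of the right coset `K v`. -/
noncomputable def rrep (K : Subgroup V) (v : V) : V :=
  (Quotient.mk (QuotientGroup.rightRel K) v).out

lemma rrep_mem (K : Subgroup V) (v : V) : v * (rrep K v)⁻¹ ∈ K := by
  have h : (QuotientGroup.rightRel K) (rrep K v) v := Quotient.mk_out v
  rw [QuotientGroup.rightRel_apply] at h
  exact h

lemma rrep_mul (K : Subgroup V) {h : V} (hh : h ∈ K) (v : V) : rrep K (h * v) = rrep K v := by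
  unfold rrep
  congr 1
  apply Quotient.sound
  change (QuotientGroup.rightRel K) (h * v) v
  rw [QuotientGroup.rightRel_apply, mul_inv_rev, mul_inv_cancel_left]
  exact K.inv_mem hh

lemma rrep_mul_inv (K : Subgroup V) {h : V} (hh : h ∈ K) (v : V) :
    rrep K (h⁻¹ * v) = rrep K v := rrep_mul K (K.inv_mem hh) v

/-- Divisibility of the augmentation of an element invariant under a finite subgroup. -/
lemma card_dvd_aug (K : Subgroup V) [Finite K] {u : MonoidAlgebra ℤ V}
    (hu : ∀ h ∈ K, el h * u = u) : (Nat.card K : ℤ) ∣ aug V u := by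
  classical
  have := Fintype.ofFinite K
  let u0 : MonoidAlgebra ℤ V := MonoidAlgebra.ofCoeff (u.coeff.filter fun v => rrep K v = v)
  have hu0 : ∀ v, u0.coeff v = if rrep K v = v then u.coeff v else 0 := by
    intro v
    exact Finsupp.filter_apply _ _ _
  have hinv : ∀ h ∈ K, ∀ v, u.coeff (h⁻¹ * v) = u.coeff v := by
    intro h hh v
    have h1 := congrArg (fun x : MonoidAlgebra ℤ V => x.coeff v) (hu h hh)
    simp only [coeff_el_mul] at h1
    exact h1
  have key : u = ∑ h : K, el (h : V) * u0 := by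
    ext v
    rw [MonoidAlgebra.coeff_sum, Finsupp.finsetSum_apply]
    simp only [coeff_el_mul, hu0]
    rw [Finset.sum_eq_single ⟨_, rrep_mem K v⟩]
    · have h1 := rrep_mem K v
      rw [if_pos, hinv _ h1]
      rw [rrep_mul_inv K h1]
      group
    · rintro ⟨h, hh⟩ _ hne
      rw [if_neg]
      intro h2
      apply hne
      rw [rrep_mul_inv K hh] at h2
      refine Subtype.ext ?_
      change h = v * (rrep K v)⁻¹
      rw [h2]; group
    · intro h; exact absurd (Finset.mem_univ _) h
  rw [key, map_sum]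
  simp only [map_mul, aug_el, one_mul, Finset.sum_const, Finset.card_univ]
  rw [Nat.card_eq_fintype_card, nsmul_eq_mul]
  exact dvd_mul_right _ _

/-- A derivation is inner on a finite subgroup. -/
lemma inner_on_finite {D : V → MonoidAlgebra ℤ V} (hD : ∀ g h, D (g * h) = D g + el g * D h)
    (K : Subgroup V) [Finite K] :
    ∃ b : MonoidAlgebra ℤ V, ∀ h ∈ K, D h = b - el h * b := by
  classical
  have hfin : (⋃ h ∈ (K : Set V), ((D h).coeff.support : Set V)).Finite := by
    have : Finite (K : Set V) := ‹Finite K›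
    exact (Set.toFinite (K : Set V)).biUnion fun h _ => (D h).coeff.support.finite_toSet
  let b0 : V →₀ ℤ := Finsupp.onFinset hfin.toFinset (fun v => pot D v - pot D (rrep K v)) (by
    intro v hv
    rw [Set.Finite.mem_toFinset]
    simp only [Set.mem_iUnion]
    refine ⟨v * (rrep K v)⁻¹, rrep_mem K v, ?_⟩
    rw [Finset.mem_coe, Finsupp.mem_support_iff, pot_spec hD]
    have : (v * (rrep K v)⁻¹)⁻¹ * v = rrep K v := by group
    rw [this]
    exact hv)
  let b : MonoidAlgebra ℤ V := MonoidAlgebra.ofCoeff b0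
  have hb : ∀ v, b.coeff v = pot D v - pot D (rrep K v) := fun v => rfl
  refine ⟨b, fun h hh => ?_⟩
  ext v
  rw [MonoidAlgebra.coeff_sub, Finsupp.sub_apply, coeff_el_mul, hb, hb, pot_spec hD,
    rrep_mul_inv K hh]
  ring

/-- Finite subgroups are trivial. -/
lemma Pr.finite_trivial {n : ℕ} (hP : Pr V n) (K : Subgroup V) [Finite K] : Nat.card K = 1 := by
  classical
  obtain ⟨D, c, hD, hDc, hc⟩ := hP
  have hDi : ∀ i g h, D (g * h) i = D g i + el g * D h i := by
    intro i g h
    rw [hD]; rfl
  choose b hb using fun i => inner_on_finite (D := fun g => D g i) (hDi i) K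
  have h1 : ∀ h ∈ K, el h * (b ⬝ᵥ c + 1) = b ⬝ᵥ c + 1 := by
    intro h hh
    have h2 := hDc h
    have h3 : D h = b - el h • b := by
      funext i; exact hb i h hh
    rw [h3, sub_dotProduct, smul_dotProduct, smul_eq_mul] at h2
    rw [mul_add, mul_one]
    have h4 : el h * (b ⬝ᵥ c) = b ⬝ᵥ c - (el h - 1) := by rw [← h2]; abel
    rw [h4]; abel
  have h2 := card_dvd_aug K h1
  have h3 : aug V (b ⬝ᵥ c) = 0 := by
    rw [dotProduct, map_sum]
    refine Finset.sum_eq_zero fun i _ => ?_
    rw [map_mul, hc i, mul_zero]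
  rw [map_add, map_one, h3, zero_add] at h2
  have h4 := Int.eq_one_of_dvd_one (by positivity) h2
  exact_mod_cast h4

/-- Groups with `Pr` are torsion-free. -/
lemma Pr.torsionfree {n : ℕ} (hP : Pr V n) (g : V) (hg : IsOfFinOrder g) : g = 1 := by
  have : Finite (Subgroup.zpowers g) := (finite_zpowers.2 hg).to_subtype
  have h1 := hP.finite_trivial (Subgroup.zpowers g)
  rw [Nat.card_zpowers, orderOf_eq_one_iff] at h1
  exact h1

end Pool.Agent.H5
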