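import Mathlib
import Pool.Agent.H5.PrTF

/-!
A bound for the number of independent nontrivial subgroups of a finitely generated residually
finite group.
-/

namespace Pool.Agent.H5

open RegularWreathProduct

/-- The group of order two. -/
abbrev D2 := Multiplicative (ZMod 2)

section Count

variable {Q : Type} [Group Q] [Finite Q]

/-- The map `φ ↦ φ / (q φ)`. -/
def delt (q : Q) : (Q → D2) →* (Q → D2) where
  toFun φ := fun x => φ x * (φ (q⁻¹ * x))⁻¹
  map_one' := by funext x; simp
  map_mul' φ ψ := by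
    funext x
    simp only [Pi.mul_apply, mul_inv]
    exact mul_mul_mul_comm _ _ _ _

lemma card_D2 : Nat.card D2 = 2 := by
  rw [Nat.card_congr Multiplicative.toAdd]
  simp

omit [Group Q] in
lemma card_fun : Nat.card (Q → D2) = 2 ^ Nat.card Q := by
  rw [Nat.card_fun, card_D2]

lemma card_ker_sq (q : Q) (hq : q ≠ 1) :
    Nat.card (delt q).ker * Nat.card (delt q).ker ≤ 2 ^ Nat.card Q := by
  classical
  rw [← card_fun, ← Nat.card_prod]
  let K := Subgroup.zpowers q
  have hinv : ∀ φ : (delt q).ker, ∀ x, φ.1 (q⁻¹ * x) = φ.1 x := by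
    intro φ x
    have h1 := congrFun (show delt q φ.1 = 1 from φ.2) x
    change φ.1 x * (φ.1 (q⁻¹ * x))⁻¹ = 1 at h1
    rw [mul_inv_eq_one] at h1
    exact h1.symm
  have hinv' : ∀ φ : (delt q).ker, ∀ k ∈ K, ∀ x, φ.1 (k * x) = φ.1 x := by
    intro φ k hk
    have hk' : k ∈ Subgroup.closure {q⁻¹} := by
      rw [← Subgroup.zpowers_eq_closure, Subgroup.zpowers_inv]; exact hk
    induction hk' using Subgroup.closure_induction with
    | mem y hy => rw [Set.mem_singleton_iff] at hy; rw [hy]; exact hinv φ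
    | one => intro x; rw [one_mul]
    | mul a b ha hb iha ihb =>
      intro x
      have h1 : Subgroup.closure {q⁻¹} = K := by
        rw [← Subgroup.zpowers_eq_closure, Subgroup.zpowers_inv]
      rw [mul_assoc, iha (h1 ▸ ha), ihb (h1 ▸ hb)]
    | inv a ha iha =>
      intro x
      have h1 : Subgroup.closure {q⁻¹} = K := by
        rw [← Subgroup.zpowers_eq_closure, Subgroup.zpowers_inv]
      rw [← iha (h1 ▸ ha) (a⁻¹ * x), mul_inv_cancel_left]
  let Φ : (delt q).ker × (delt q).ker → (Q → D2) := fun p x =>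
    if rrep K x = x then p.1.1 x else p.2.1 x
  have hidem : ∀ x, rrep K (rrep K x) = rrep K x := by
    intro x
    have h1 := rrep_mul K (K.inv_mem (rrep_mem K x)) x
    have h2 : (x * (rrep K x)⁻¹)⁻¹ * x = rrep K x := by group
    rw [h2] at h1
    exact h1
  have hrep : ∀ x, ∃ k ∈ K, x = k * rrep K x := fun x => ⟨_, rrep_mem K x, by group⟩
  refine Nat.card_le_card_of_injective Φ ?_
  rintro ⟨φ, ψ⟩ ⟨φ', ψ'⟩ h
  have h1 : ∀ x, φ.1 x = φ'.1 x := by
    intro x
    obtain ⟨k, hk, hx⟩ := hrep x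
    have h2 := congrFun h (rrep K x)
    simp only [Φ, hidem, if_true] at h2
    rw [hx, hinv' φ k hk, hinv' φ' k hk, h2]
  have h2 : ∀ x, ψ.1 x = ψ'.1 x := by
    intro x
    obtain ⟨k, hk, hx⟩ := hrep x
    have hqK : q ∈ K := Subgroup.mem_zpowers q
    have hne : rrep K (q * rrep K x) ≠ q * rrep K x := by
      rw [rrep_mul K hqK, hidem]
      intro h3
      exact hq (mul_eq_right.1 h3.symm)
    have h2 := congrFun h (q * rrep K x)
    simp only [Φ, if_neg hne] at h2
    rw [hinv' ψ q hqK, hinv' ψ' q hqK] at h2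
    rw [hx, hinv' ψ k hk, hinv' ψ' k hk, h2]
  rw [Prod.mk.injEq]
  exact ⟨Subtype.ext (funext h1), Subtype.ext (funext h2)⟩

lemma card_range_sq (q : Q) (hq : q ≠ 1) :
    2 ^ Nat.card Q ≤ Nat.card (delt q).range * Nat.card (delt q).range := by
  have h1 := card_ker_sq q hq
  have h2 : Nat.card (delt q).ker * Nat.card (delt q).range = 2 ^ Nat.card Q := by
    rw [← card_fun, ← Subgroup.index_ker, Subgroup.card_mul_index]
  have h3 : 0 < Nat.card (delt q).ker := Nat.card_pos
  set a := Nat.card (delt q).ker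
  set b := Nat.card (delt q).range
  set c := 2 ^ Nat.card Q
  -- a * a ≤ c, a * b = c, so a ≤ b
  have h4 : a * a ≤ a * b := by rw [h2]; exact h1
  have h5 : a ≤ b := Nat.le_of_mul_le_mul_left h4 h3
  calc c = a * b := h2.symm
    _ ≤ b * b := Nat.mul_le_mul_right b h5

end Count

/-- Independent nontrivial subgroups. -/
def Ind (V : Type) [Group V] (m : ℕ) : Prop :=
  ∃ B : Fin m → Subgroup V, (∀ i, B i ≠ ⊥) ∧
    ∀ (W : Type) [Group W] (f : ∀ i, B i →* W), ∃ F : V →* W, ∀ i (b : B i), F b = f i b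

/-- Residual finiteness. -/
def ResFin (V : Type) [Group V] : Prop :=
  ∀ g : V, g ≠ 1 → ∃ K : Subgroup V, K.FiniteIndex ∧ g ∉ K

lemma ResFin.exists_normal {V : Type} [Group V] (hV : ResFin V) {m : ℕ} (b : Fin m → V)
    (hb : ∀ i, b i ≠ 1) : ∃ N : Subgroup V, N.Normal ∧ N.FiniteIndex ∧ ∀ i, b i ∉ N := by
  choose K hK hKb using fun i => hV (b i) (hb i)
  have h1 : (⨅ i, K i).FiniteIndex := Subgroup.finiteIndex_iInf fun i => hK i
  refine ⟨(⨅ i, K i).normalCore, inferInstance, inferInstance, ?_⟩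
  intro i hi
  exact hKb i ((iInf_le K i) (Subgroup.normalCore_le _ hi))

/-- The number of independent nontrivial subgroups is bounded. -/
theorem ind_bound {V : Type} [Group V] {d m : ℕ} (hV : ResFin V) {x : Fin d → V}
    (hx : Subgroup.closure (Set.range x) = ⊤) (hI : Ind V m) : m ≤ 4 * d := by
  classical
  obtain ⟨B, hB, hext⟩ := hI
  choose b hb using fun i => Subgroup.ne_bot_iff_exists_ne_one.1 (hB i)
  obtain ⟨N, hN, hNf, hbN⟩ := hV.exists_normal (fun i => (b i : V))
    (fun i h => hb i (Subtype.ext h))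
  let Q := V ⧸ N
  let π : V →* Q := QuotientGroup.mk' N
  have hπ : ∀ i, π (b i) ≠ 1 := by
    intro i h
    exact hbN i ((QuotientGroup.eq_one_iff _).1 h)
  let W := D2 ≀ᵣ Q
  let w : (Q → D2) → W := fun φ => ⟨φ, 1⟩
  let f : ∀ i, (Q → D2) → (B i →* W) := fun i φ =>
    ((MulAut.conj (w φ)).toMonoidHom.comp (inl.comp π)).comp (B i).subtype
  have hf : ∀ i φ, (f i φ (b i)).left = delt (π (b i)) φ := by
    intro i φ
    funext y
    change RegularWreathProduct.left ((⟨φ, 1⟩ : D2 ≀ᵣ Q) * inl (π (b i)) * (⟨φ, 1⟩)⁻¹) y = _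
    simp [delt]
  let S : Fin m → Set W := fun i => Set.range fun φ => f i φ (b i)
  have hS : ∀ i, 2 ^ Nat.card Q ≤ Nat.card (S i) * Nat.card (S i) := by
    intro i
    refine (card_range_sq (π (b i)) (hπ i)).trans ?_
    have h1 : Nat.card (delt (π (b i))).range ≤ Nat.card (S i) := by
      refine Nat.card_le_card_of_surjective
        (fun s : S i => (⟨(s : W).left, ?_⟩ : (delt (π (b i))).range)) ?_
      · obtain ⟨φ, hφ⟩ := s.2
        exact ⟨φ, by rw [← hf, ← hφ]⟩
      · rintro ⟨_, φ, rfl⟩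
        exact ⟨⟨_, φ, rfl⟩, Subtype.ext (hf i φ)⟩
    exact Nat.mul_le_mul h1 h1
  -- choose homomorphisms
  have hch : ∀ s : ∀ i, S i, ∃ F : V →* W, ∀ i, F (b i) = s i := by
    intro s
    choose φ hφ using fun i => (s i).2
    obtain ⟨F, hF⟩ := hext W fun i => f i (φ i)
    exact ⟨F, fun i => by rw [hF, ← hφ i]⟩
  choose F hF using hch
  have hinj : Function.Injective (fun (s : ∀ i, S i) (j : Fin d) => F s (x j)) := by
    intro s s' h
    have h1 : F s = F s' := by
      refine MonoidHom.eq_of_eqOn_dense hx ?_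
      rintro _ ⟨j, rfl⟩
      exact congrFun h j
    funext i
    refine Subtype.ext ?_
    rw [← hF s i, ← hF s' i, h1]
  have hcard := Nat.card_le_card_of_injective _ hinj
  have hW : Nat.card W = 2 ^ Nat.card Q * Nat.card Q := by
    rw [RegularWreathProduct.card, card_D2]
  rw [Nat.card_pi, Nat.card_fun, Nat.card_eq_fintype_card (α := Fin d), Fintype.card_fin, hW]
    at hcard
  -- numbers
  set c := 2 ^ Nat.card Q with hc
  have hQc : Nat.card Q ≤ c := Nat.lt_two_pow_self.le
  have hc2 : 1 < c := by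
    have : 0 < Nat.card Q := Nat.card_pos
    exact Nat.one_lt_two_pow this.ne'
  have h1 : c ^ m ≤ (∏ i, Nat.card (S i)) * (∏ i, Nat.card (S i)) := by
    rw [← Finset.prod_mul_distrib]
    calc c ^ m = ∏ _i : Fin m, c := by simp
      _ ≤ _ := Finset.prod_le_prod' fun i _ => hS i
  have h2 : c ^ m ≤ c ^ (4 * d) := by
    calc c ^ m ≤ (∏ i, Nat.card (S i)) * (∏ i, Nat.card (S i)) := h1
      _ ≤ (c * Nat.card Q) ^ d * (c * Nat.card Q) ^ d := Nat.mul_le_mul hcard hcard
      _ ≤ (c * c) ^ d * (c * c) ^ d := by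
        have : (c * Nat.card Q) ^ d ≤ (c * c) ^ d :=
          Nat.pow_le_pow_left (Nat.mul_le_mul_left c hQc) d
        exact Nat.mul_le_mul this this
      _ = c ^ (4 * d) := by
        clear_value c
        rw [← pow_two c, ← pow_mul, ← pow_add]
        congr 1
        ring
  exact (Nat.pow_le_pow_iff_right hc2).1 h2

end Pool.Agent.H5
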