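import Mathlib

/-!
From a matrix resolution over `k[G]` to Mathlib's group cohomology.
-/

open MonoidAlgebra CategoryTheory

namespace Pool.Agent.H5

universe u

section

variable {k : Type} [CommRing k] {G : Type} [Group G]

/-- The action of the group ring on a representation. -/
noncomputable abbrev act (A : Rep.{0} k G) (r : MonoidAlgebra k G) (a : A) : A :=
  A.ρ.asAlgebraHom r a

lemma freeLift_apply {A : Rep.{0} k G} {α : Type} (f : α → A) (v : α →₀ MonoidAlgebra k G) :
    (Representation.freeLift A.ρ f) v = v.sum (fun i r => act A r (f i)) := by
  induction v using Finsupp.induction_linear with
  | zero => simp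
  | add v w hv hw =>
    rw [map_add, hv, hw, Finsupp.sum_add_index']
    · intro a; simp [act]
    · intro a b c; simp [act]
  | single i r =>
    rw [Finsupp.sum_single_index (by simp [act])]
    induction r using MonoidAlgebra.induction_linear with
    | zero => simp [act]
    | add r s hr hs => rw [Finsupp.single_add, map_add, hr, hs]; simp [act]
    | single g n =>
      rw [Representation.freeLift_single_single]
      simp [act, Representation.asAlgebraHom_single]

lemma act_leftRegular (r x : MonoidAlgebra k G) :
    act (Rep.leftRegular k G) r x = r * x := by
  induction r using MonoidAlgebra.induction_linear with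
  | zero => simp [act]
  | add r s hr hs =>
    have : act (Rep.leftRegular k G) (r + s) x = act (Rep.leftRegular k G) r x
        + act (Rep.leftRegular k G) s x := by
      simp [act]
    rw [this, hr, hs, add_mul]
  | single g n =>
    induction x using MonoidAlgebra.induction_linear with
    | zero => simp [act]
    | add x y hx hy =>
      have : act (Rep.leftRegular k G) (MonoidAlgebra.single g n) (x + y)
        = act (Rep.leftRegular k G) (MonoidAlgebra.single g n) x
          + act (Rep.leftRegular k G) (MonoidAlgebra.single g n) y := by simp [act]
      rw [this, hx, hy, mul_add]
    | single h l => simp [act, Representation.asAlgebraHom_single]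

lemma act_free {α : Type} (r : MonoidAlgebra k G) (w : α →₀ MonoidAlgebra k G) :
    act (Rep.free k G α) r w = r • w := by
  induction w using Finsupp.induction_linear with
  | zero => simp [act]
  | add v w hv hw =>
    have : act (Rep.free k G α) r (v + w) =
      act (Rep.free k G α) r v + act (Rep.free k G α) r w := by
      simp [act]
    rw [this, hv, hw, smul_add]
  | single i x =>
    induction r using MonoidAlgebra.induction_linear with
    | zero => simp [act]
    | add r s hr hs =>
      have : act (Rep.free k G α) (r + s) (Finsupp.single i x)
        = act (Rep.free k G α) r (Finsupp.single i x)
          + act (Rep.free k G α) s (Finsupp.single i x) := by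
        simp [act]
      rw [this, hr, hs, add_smul]
    | single g n =>
      simp only [act, Representation.asAlgebraHom_single, LinearMap.smul_apply,
        Representation.finsupp_single, Finsupp.smul_single, smul_eq_mul]
      congr 1
      have := act_leftRegular (k := k) (MonoidAlgebra.single g n) x
      rw [← this]
      simp [act, Representation.asAlgebraHom_single]

end

end Pool.Agent.H5
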