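import Mathlib
import Pool.Agent.H5.Bridge

/-!
From a matrix resolution over `k[G]` to a projective resolution in `Rep k G`.
-/

open MonoidAlgebra CategoryTheory

namespace Pool.Agent.H5

variable {k : Type} [CommRing k] {G : Type} [Group G]

variable (k G) in
/-- Augmentation with coefficients in `k`. -/
noncomputable def augk : MonoidAlgebra k G →ₐ[k] k := MonoidAlgebra.lift k k G 1

@[simp] lemma augk_single (g : G) (n : k) :
    augk k G (MonoidAlgebra.single g n) = n := by
  simp [augk]

lemma act_trivial (r : MonoidAlgebra k G) (x : k) :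
    act (Rep.trivial k G k) r x = augk k G r * x := by
  induction r using MonoidAlgebra.induction_linear with
  | zero => simp [act]
  | add r s hr hs =>
    have : act (Rep.trivial k G k) (r + s) x = act (Rep.trivial k G k) r x
        + act (Rep.trivial k G k) s x := by
      simp [act]
    rw [this, hr, hs, map_add, add_mul]
  | single g n => simp [act, Representation.asAlgebraHom_single]

/-- A matrix resolution. -/
structure MatRes (k : Type) [CommRing k] (G : Type) [Group G] where
  m : ℕ → ℕ
  D : ∀ i, Fin (m (i + 1)) → Fin (m i) → MonoidAlgebra k G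
  dd : ∀ i (j : Fin (m (i + 2))) (l : Fin (m i)), ∑ t, D (i + 1) j t * D i t l = 0
  ex : ∀ i (v : Fin (m (i + 1)) → MonoidAlgebra k G), (∀ l, ∑ t, v t * D i t l = 0) →
    ∃ w : Fin (m (i + 2)) → MonoidAlgebra k G, ∀ t, v t = ∑ s, w s * D (i + 1) s t
  d0 : ∀ t, ∑ l, augk k G (D 0 t l) = 0
  ex0 : ∀ v : Fin (m 0) → MonoidAlgebra k G, ∑ l, augk k G (v l) = 0 →
    ∃ w : Fin (m 1) → MonoidAlgebra k G, ∀ l, v l = ∑ t, w t * D 0 t l
  ne : 0 < m 0

namespace MatRes

variable (M : MatRes k G)

/-- rows as finitely supported functions -/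
noncomputable def row (i : ℕ) (j : Fin (M.m (i + 1))) : Fin (M.m i) →₀ MonoidAlgebra k G :=
  Finsupp.equivFunOnFinite.symm (M.D i j)

@[simp] lemma row_apply (i : ℕ) (j : Fin (M.m (i + 1))) (l : Fin (M.m i)) :
    M.row i j l = M.D i j l := rfl

/-- The differential. -/
noncomputable def diff (i : ℕ) :
    Rep.free k G (Fin (M.m (i + 1))) ⟶ Rep.free k G (Fin (M.m i)) :=
  Rep.freeLift k G (A := Rep.free k G (Fin (M.m i))) (M.row i)

/-- The differential as a function on finitely supported functions. -/
noncomputable def app (i : ℕ) (v : Fin (M.m (i + 1)) →₀ MonoidAlgebra k G) :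
    Fin (M.m i) →₀ MonoidAlgebra k G := (M.diff i).hom v

lemma app_apply (i : ℕ) (v : Fin (M.m (i + 1)) →₀ MonoidAlgebra k G) (l : Fin (M.m i)) :
    M.app i v l = ∑ t, v t * M.D i t l := by
  have h1 : M.app i v = v.sum (fun t r => act (Rep.free k G (Fin (M.m i))) r (M.row i t)) :=
    freeLift_apply (A := Rep.free k G (Fin (M.m i))) (M.row i) v
  rw [h1]
  simp only [act_free]
  rw [Finsupp.sum_fintype _ _ (by simp), Finsupp.finsetSum_apply]
  simp

lemma single_sum {i : ℕ} (j : Fin (M.m (i + 1))) (t : Fin (M.m i)) :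
    ∑ s, (Finsupp.single j (MonoidAlgebra.single (1 : G) (1 : k))) s * M.D i s t = M.D i j t := by
  rw [Finset.sum_eq_single j]
  · rw [Finsupp.single_eq_same, ← MonoidAlgebra.one_def, one_mul]
  · intro b _ hb
    rw [Finsupp.single_eq_of_ne hb, zero_mul]
  · simp

lemma diff_diff (i : ℕ) : M.diff (i + 1) ≫ M.diff i = 0 := by
  refine Rep.free_ext k G _ _ _ ?_
  intro j
  change M.app i (M.app (i + 1) (Finsupp.single j (MonoidAlgebra.single 1 1)))
    = (0 : Fin (M.m i) →₀ MonoidAlgebra k G)
  refine Finsupp.ext fun l => ?_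
  rw [app_apply]
  simp only [app_apply, single_sum, M.dd]
  rfl

/-- The chain complex. -/
noncomputable def complex : ChainComplex (Rep.{0} k G) ℕ :=
  ChainComplex.of (fun i => Rep.free k G (Fin (M.m i))) M.diff M.diff_diff

/-- The augmentation. -/
noncomputable def eps : Rep.free k G (Fin (M.m 0)) ⟶ Rep.trivial k G k :=
  Rep.freeLift k G (A := Rep.trivial k G k) (fun _ => (1 : k))

/-- The augmentation as a function. -/
noncomputable def epsf (v : Fin (M.m 0) →₀ MonoidAlgebra k G) : k := M.eps.hom v

lemma epsf_apply (v : Fin (M.m 0) →₀ MonoidAlgebra k G) :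
    M.epsf v = ∑ t, augk k G (v t) := by
  have h1 : M.epsf v = v.sum (fun _ r => act (Rep.trivial k G k) r (1 : k)) :=
    freeLift_apply (A := Rep.trivial k G k) (fun _ => (1 : k)) v
  rw [h1]
  simp only [act_trivial, mul_one]
  rw [Finsupp.sum_fintype _ _ (by simp)]

lemma diff_eps : M.diff 0 ≫ M.eps = 0 := by
  refine Rep.free_ext k G _ _ _ ?_
  intro j
  change M.epsf (M.app 0 (Finsupp.single j (MonoidAlgebra.single 1 1))) = (0 : k)
  rw [epsf_apply]
  simp only [app_apply, single_sum, M.d0]

lemma complex_d (i : ℕ) : M.complex.d (i + 1) i = M.diff i := by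
  unfold complex
  exact ChainComplex.of_d (fun i => Rep.free k G (Fin (M.m i))) M.diff i

/-- The augmentation as a chain map. -/
noncomputable def pi : M.complex ⟶ (ChainComplex.single₀ (Rep.{0} k G)).obj (Rep.trivial k G k) :=
  (M.complex.toSingle₀Equiv _).symm ⟨M.eps, by rw [complex_d]; exact M.diff_eps⟩

lemma exact_succ (i : ℕ) (v : Fin (M.m (i + 1)) →₀ MonoidAlgebra k G) (hv : M.app i v = 0) :
    ∃ w, M.app (i + 1) w = v := by
  obtain ⟨w, hw⟩ := M.ex i v (fun l => by rw [← app_apply, hv]; rfl)
  refine ⟨Finsupp.equivFunOnFinite.symm w, Finsupp.ext fun l => ?_⟩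
  rw [app_apply, hw l]
  rfl

lemma exact_zero (v : Fin (M.m 0) →₀ MonoidAlgebra k G) (hv : M.epsf v = 0) :
    ∃ w, M.app 0 w = v := by
  obtain ⟨w, hw⟩ := M.ex0 v (by rw [← epsf_apply, hv])
  refine ⟨Finsupp.equivFunOnFinite.symm w, Finsupp.ext fun l => ?_⟩
  rw [app_apply, hw l]
  rfl

set_option backward.isDefEq.respectTransparency false in
lemma quasiIso_pi : QuasiIso M.pi where
  quasiIsoAt n := by
    cases n with
    | zero =>
      simp only [pi]
      rw [ChainComplex.quasiIsoAt₀_iff, ShortComplex.quasiIso_iff_of_zeros' _ rfl rfl rfl]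
      constructor
      · apply (forget₂ _ (ModuleCat k)).reflects_exact_of_faithful
        rw [ShortComplex.moduleCat_exact_iff]
        intro x hx
        obtain ⟨w, hw⟩ := M.exact_zero x hx
        refine ⟨w, ?_⟩
        change (M.complex.d 1 0).hom w = x
        rw [complex_d]
        exact hw
      · rw [Rep.epi_iff_surjective]
        intro x
        refine ⟨Finsupp.single ⟨0, M.ne⟩ (MonoidAlgebra.single 1 x), ?_⟩
        change M.epsf (Finsupp.single ⟨0, M.ne⟩ (MonoidAlgebra.single 1 x)) = x
        rw [epsf_apply, Finset.sum_eq_single ⟨0, M.ne⟩]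
        · simp
        · intro b _ hb
          rw [Finsupp.single_eq_of_ne hb, map_zero]
        · simp
    | succ n =>
      rw [quasiIsoAt_iff_exactAt' (hL := ChainComplex.exactAt_succ_single_obj ..),
          HomologicalComplex.exactAt_iff' _ (n + 2) (n + 1) n (by simp) (by simp)]
      apply (forget₂ _ (ModuleCat k)).reflects_exact_of_faithful
      rw [ShortComplex.moduleCat_exact_iff]
      intro x hx
      change (M.complex.d (n + 1) n).hom x = 0 at hx
      rw [complex_d] at hx
      obtain ⟨w, hw⟩ := M.exact_succ n x hx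
      refine ⟨w, ?_⟩
      change (M.complex.d (n + 2) (n + 1)).hom w = x
      rw [complex_d]
      exact hw

/-- The projective resolution. -/
noncomputable def res : ProjectiveResolution (Rep.trivial k G k) where
  complex := M.complex
  projective n := inferInstanceAs (Projective (Rep.free k G (Fin (M.m n))))
  π := M.pi
  quasiIso := M.quasiIso_pi

end MatRes

end Pool.Agent.H5
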