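import Mathlib
import Pool.Agent.H5.Bridge2

/-!
Group cohomology from a matrix resolution.
-/

open MonoidAlgebra CategoryTheory

namespace Pool.Agent.H5

variable {k : Type} [CommRing k] {G : Type} [Group G]

namespace MatRes

variable (M : MatRes k G) (A : Rep.{0} k G)

/-- The coboundary `A^{m i} → A^{m (i+1)}`. -/
noncomputable def cob (i : ℕ) (f : Fin (M.m i) → A) : Fin (M.m (i + 1)) → A :=
  fun j => ∑ l, act A (M.D i j l) (f l)

lemma comp_freeLift (i : ℕ) (f : Fin (M.m i) → A) :
    M.diff i ≫ Rep.freeLift k G (A := A) f = Rep.freeLift k G (A := A) (M.cob A i f) := by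
  refine Rep.free_ext k G _ _ _ ?_
  intro j
  have h1 : (M.diff i ≫ Rep.freeLift k G (A := A) f).hom
      (Finsupp.single j (MonoidAlgebra.single 1 1))
      = (Representation.freeLift A.ρ f) (M.app i (Finsupp.single j (MonoidAlgebra.single 1 1))) := rfl
  have h2 : (Rep.freeLift k G (A := A) (M.cob A i f)).hom
      (Finsupp.single j (MonoidAlgebra.single 1 1)) = M.cob A i f j := by
    change (Representation.freeLift A.ρ (M.cob A i f)) (Finsupp.single j (MonoidAlgebra.single 1 1)) = _
    rw [Representation.freeLift_single_single]; simp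
  rw [h1, h2, freeLift_apply, Finsupp.sum_fintype _ _ (by simp [act])]
  simp only [app_apply, single_sum]
  rfl

lemma exists_freeLift (i : ℕ) (φ : M.complex.X i ⟶ A) :
    ∃ f : Fin (M.m i) → A, φ = Rep.freeLift k G (A := A) f :=
  ⟨(Rep.freeLiftLEquiv k G (Fin (M.m i)) A) φ,
    ((Rep.freeLiftLEquiv k G (Fin (M.m i)) A).symm_apply_apply φ).symm⟩

lemma freeLift_inj {α : Type} {f g : α → A}
    (h : Rep.freeLift k G (A := A) f = Rep.freeLift k G (A := A) g) : f = g :=
  (Rep.freeLiftLEquiv k G α A).symm.injective h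

lemma subsingleton_succ (i : ℕ)
    (h : ∀ f : Fin (M.m (i + 1)) → A, M.cob A (i + 1) f = 0 → ∃ g, M.cob A i g = f) :
    Subsingleton (groupCohomology A (i + 1)) := by
  have e := groupCohomologyIso A (i + 1) M.res
  have hz : Limits.IsZero ((M.res.complex.linearYonedaObj k A).homology (i + 1)) := by
    apply HomologicalComplex.ExactAt.isZero_homology
    rw [HomologicalComplex.exactAt_iff' _ i (i + 1) (i + 2) (by simp) (by simp)]
    rw [ShortComplex.moduleCat_exact_iff]
    intro φ hφ
    obtain ⟨f, rfl⟩ := M.exists_freeLift A (i + 1) φ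
    have h1 : M.diff (i + 1) ≫ Rep.freeLift k G (A := A) f = 0 := by
      have h0 : M.complex.d (i + 2) (i + 1) ≫ Rep.freeLift k G (A := A) f = 0 := hφ
      rw [complex_d] at h0
      exact h0
    rw [comp_freeLift] at h1
    have h2 : M.cob A (i + 1) f = 0 := by
      apply freeLift_inj A
      rw [h1]
      refine Rep.free_ext k G _ _ _ ?_
      intro j
      change (0 : A) = (Representation.freeLift A.ρ 0) (Finsupp.single j (MonoidAlgebra.single 1 1))
      rw [Representation.freeLift_single_single]; simp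
    obtain ⟨g, hg⟩ := h f h2
    refine ⟨Rep.freeLift k G (A := A) g, ?_⟩
    have h3 : M.diff i ≫ Rep.freeLift k G (A := A) g = Rep.freeLift k G (A := A) f := by
      rw [comp_freeLift, hg]
    have h4 : M.complex.d (i + 1) i ≫ Rep.freeLift k G (A := A) g
        = Rep.freeLift k G (A := A) f := by
      rw [complex_d]
      exact h3
    exact h4
  exact ModuleCat.subsingleton_of_isZero (hz.of_iso e)

lemma subsingleton_zero (h : ∀ f : Fin (M.m 0) → A, M.cob A 0 f = 0 → f = 0) :
    Subsingleton (groupCohomology A 0) := by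
  have e := groupCohomologyIso A 0 M.res
  have hz : Limits.IsZero ((M.res.complex.linearYonedaObj k A).homology 0) := by
    apply HomologicalComplex.ExactAt.isZero_homology
    rw [HomologicalComplex.exactAt_iff' _ 0 0 1 (by simp) (by simp)]
    rw [ShortComplex.moduleCat_exact_iff]
    intro φ hφ
    obtain ⟨f, rfl⟩ := M.exists_freeLift A 0 φ
    have h1 : M.diff 0 ≫ Rep.freeLift k G (A := A) f = 0 := by
      have h0 : M.complex.d 1 0 ≫ Rep.freeLift k G (A := A) f = 0 := hφ
      rw [complex_d] at h0
      exact h0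
    rw [comp_freeLift] at h1
    have h0 : ∀ {α : Type}, (Rep.freeLift k G (A := A) (0 : α → A)) = 0 := by
      intro α
      refine Rep.free_ext k G _ _ _ ?_
      intro j
      change (Representation.freeLift A.ρ 0) (Finsupp.single j (MonoidAlgebra.single 1 1)) = (0 : A)
      rw [Representation.freeLift_single_single]; simp
    have h2 : M.cob A 0 f = 0 := by
      apply freeLift_inj A
      rw [h1, h0]
    refine ⟨0, ?_⟩
    rw [h f h2, h0, map_zero]
    rfl
  exact ModuleCat.subsingleton_of_isZero (hz.of_iso e)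

omit A in
lemma finite_X (i : ℕ) :
    Module.Finite (MonoidAlgebra k G) (M.res.complex.X i).ρ.asModule :=
  Module.Finite.of_basis (Representation.freeAsModuleBasis k G (Fin (M.m i)))

omit A in
lemma isZero_X (i : ℕ) (hi : M.m i = 0) : Limits.IsZero (M.res.complex.X i) := by
  rw [Limits.IsZero.iff_id_eq_zero]
  refine Rep.free_ext k G (α := Fin (M.m i)) _ _ _ ?_
  intro j
  have := j.2
  omega

/-- Computation of a top cohomology group. -/
lemma equiv_top (i : ℕ) (hm : M.m (i + 2) = 0) {N : Type} [AddCommGroup N] [Module k N]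
    (θ : (Fin (M.m (i + 1)) → A) →ₗ[k] N) (hθ : Function.Surjective θ)
    (hker : ∀ f, θ f = 0 ↔ ∃ g, M.cob A i g = f) :
    Nonempty (groupCohomology A (i + 1) ≃ₗ[k] N) := by
  classical
  let S := (M.res.complex.linearYonedaObj k A).sc' i (i + 1) (i + 2)
  have hiso : (M.res.complex.linearYonedaObj k A).homology (i + 1) ≅ S.homology :=
    ShortComplex.homologyMapIso
      ((M.res.complex.linearYonedaObj k A).isoSc' i (i + 1) (i + 2) (by simp) (by simp))
  have e := (groupCohomologyIso A (i + 1) M.res ≪≫ hiso ≪≫ S.moduleCatHomologyIso).toLinearEquiv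
  let E : (Rep.free k G (Fin (M.m (i + 1))) ⟶ A) ≃ₗ[k] (Fin (M.m (i + 1)) → A) :=
    Rep.freeLiftLEquiv k G (Fin (M.m (i + 1))) A
  let Θ : LinearMap.ker S.g.hom →ₗ[k] N :=
    (θ ∘ₗ E.toLinearMap) ∘ₗ (LinearMap.ker S.g.hom).subtype
  have hΘ : Function.Surjective Θ := by
    intro y
    obtain ⟨f, hf⟩ := hθ y
    refine ⟨⟨E.symm f, ?_⟩, ?_⟩
    · refine LinearMap.mem_ker.2 ?_
      have h1 : M.complex.d (i + 2) (i + 1) ≫ Rep.freeLift k G (A := A) f = 0 := by
        rw [complex_d]
        have : M.diff (i + 1) ≫ Rep.freeLift k G (A := A) f = 0 := by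
          rw [comp_freeLift]
          refine Rep.free_ext k G _ _ _ ?_
          intro j
          have hj : (j : ℕ) < M.m (i + 2) := j.2
          omega
        exact this
      exact h1
    · have : E (E.symm f) = f := E.apply_symm_apply f
      change θ (E (E.symm f)) = y
      rw [this, hf]
  have hk : LinearMap.ker Θ = LinearMap.range S.moduleCatToCycles := by
    ext x
    have key : Θ x = θ (E x.1) := rfl
    rw [LinearMap.mem_ker, key, hker, LinearMap.mem_range]
    constructor
    · rintro ⟨g, hg⟩
      refine ⟨Rep.freeLift k G (A := A) g, Subtype.ext ?_⟩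
      have h3 : M.diff i ≫ Rep.freeLift k G (A := A) g = (x.1 : Rep.free k G (Fin (M.m (i + 1))) ⟶ A) := by
        rw [comp_freeLift, hg]
        exact E.symm_apply_apply x.1
      have h4 : M.complex.d (i + 1) i ≫ Rep.freeLift k G (A := A) g = x.1 := by
        rw [complex_d]
        exact h3
      exact h4
    · rintro ⟨φ, hφ⟩
      obtain ⟨g, rfl⟩ := M.exists_freeLift A i φ
      refine ⟨g, ?_⟩
      have h4 : M.complex.d (i + 1) i ≫ Rep.freeLift k G (A := A) g = x.1 :=
        congrArg Subtype.val hφ
      rw [complex_d] at h4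
      have h3 : M.diff i ≫ Rep.freeLift k G (A := A) g = (x.1 : Rep.free k G (Fin (M.m (i + 1))) ⟶ A) := h4
      rw [comp_freeLift] at h3
      have h5 : E.symm (M.cob A i g) = x.1 := h3
      rw [← h5, E.apply_symm_apply]
  exact ⟨e.trans ((Submodule.quotEquivOfEq _ _ hk.symm).trans (Θ.quotKerEquivOfSurjective hΘ))⟩

end MatRes

end Pool.Agent.H5
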