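import Mathlib
import Pool.Agent.H5.Aug
import Pool.Agent.H5.Bridge3

/-!
The resolution for the flat 3-manifold group and its cohomology with group ring coefficients.
-/

open MonoidAlgebra CategoryTheory

namespace Pool.Agent.H5


/-- ranks -/
def mm : ℕ → ℕ
  | 0 => 1
  | 1 => 3
  | 2 => 3
  | 3 => 1
  | (_ + 4) => 0

/-- the matrices -/
noncomputable def DD : ∀ i, Fin (mm (i + 1)) → Fin (mm i) → MonoidAlgebra ℤ FG
  | 0 => ![![el ga - 1], ![el gu - 1], ![el gv - 1]]
  | 1 => ![![el gu - 1, 1 + el gu * el ga, 0], ![el gv - 1, 0, 1 + el gv * el ga],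
      ![0, el gv - 1, -(el gu - 1)]]
  | 2 => ![![el gv - 1, -(el gu - 1), -(1 - el gu * el gv * el ga)]]
  | (_ + 3) => fun j => j.elim0

lemma augk_eq (r : MonoidAlgebra ℤ FG) : augk ℤ FG r = aug FG r := rfl

lemma augk_el (g : FG) : augk ℤ FG (el g) = 1 := by simp [el]

/-- The resolution. -/
noncomputable def flatRes : MatRes ℤ FG where
  m := mm
  D := DD
  dd := by
    intro i
    match i with
    | 0 =>
      intro j l
      change Fin 3 at j
      change Fin 1 at l
      change ∑ t : Fin 3, DD 1 j t * DD 0 t l = 0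
      rw [Fin.sum_univ_three]
      fin_cases l
      fin_cases j
      · change (el gu - 1) * (el ga - 1) + (1 + el gu * el ga) * (el gu - 1) + 0 * (el gv - 1) = 0
        rw [G_id1]; noncomm_ring
      · change (el gv - 1) * (el ga - 1) + 0 * (el gu - 1) + (1 + el gv * el ga) * (el gv - 1) = 0
        rw [G_id2]; noncomm_ring
      · change 0 * (el ga - 1) + (el gv - 1) * (el gu - 1) + -(el gu - 1) * (el gv - 1) = 0
        rw [G_comm]; noncomm_ring
    | 1 =>
      intro j l
      change Fin 1 at j
      change Fin 3 at l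
      change ∑ t : Fin 3, DD 2 j t * DD 1 t l = 0
      rw [Fin.sum_univ_three]
      fin_cases j
      fin_cases l
      · change (el gv - 1) * (el gu - 1) + -(el gu - 1) * (el gv - 1)
          + -(1 - el gu * el gv * el ga) * 0 = 0
        rw [G_comm]; noncomm_ring
      · change (el gv - 1) * (1 + el gu * el ga) + -(el gu - 1) * 0
          + -(1 - el gu * el gv * el ga) * (el gv - 1) = 0
        rw [neg_mul, neg_mul, G_id3]; noncomm_ring
      · change (el gv - 1) * 0 + -(el gu - 1) * (1 + el gv * el ga)
          + -(1 - el gu * el gv * el ga) * (-(el gu - 1)) = 0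
        have : -(1 - el gu * el gv * el ga) * (-(el gu - 1))
          = (1 - el gu * el gv * el ga) * (el gu - 1) := by noncomm_ring
        rw [this, G_id4]; noncomm_ring
    | (n + 2) => intro j; exact j.elim0
  ex := by
    intro i
    match i with
    | 0 =>
      intro v hv
      change Fin 3 → _ at v
      have h := hv (0 : Fin 1)
      change ∑ t : Fin 3, v t * DD 0 t (0 : Fin 1) = 0 at h
      rw [Fin.sum_univ_three] at h
      obtain ⟨p, q, s, h1, h2, h3⟩ := G_exact1 (α := v 0) (β := v 1) (γ := v 2) h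
      refine ⟨(![p, q, s] : Fin 3 → _), ?_⟩
      intro t
      change Fin 3 at t
      change v t = ∑ r : Fin 3, (![p, q, s] : Fin 3 → _) r * DD 1 r t
      rw [Fin.sum_univ_three]
      fin_cases t
      · change v 0 = p * (el gu - 1) + q * (el gv - 1) + s * 0
        rw [h1]; noncomm_ring
      · change v 1 = p * (1 + el gu * el ga) + q * 0 + s * (el gv - 1)
        rw [h2]; noncomm_ring
      · change v 2 = p * 0 + q * (1 + el gv * el ga) + s * (-(el gu - 1))
        rw [h3]; noncomm_ring
    | 1 =>
      intro v hv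
      change Fin 3 → _ at v
      have ha := hv (0 : Fin 3)
      have hb := hv (1 : Fin 3)
      change ∑ t : Fin 3, v t * DD 1 t (0 : Fin 3) = 0 at ha
      change ∑ t : Fin 3, v t * DD 1 t (1 : Fin 3) = 0 at hb
      rw [Fin.sum_univ_three] at ha hb
      change v 0 * (el gu - 1) + v 1 * (el gv - 1) + v 2 * 0 = 0 at ha
      change v 0 * (1 + el gu * el ga) + v 1 * 0 + v 2 * (el gv - 1) = 0 at hb
      rw [mul_zero, add_zero] at ha hb
      obtain ⟨w, h1, h2, h3⟩ := G_exact2 (p := v 0) (q := v 1) (s := v 2) ha hb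
      refine ⟨(![w] : Fin 1 → _), ?_⟩
      intro t
      change Fin 3 at t
      change v t = ∑ r : Fin 1, (![w] : Fin 1 → _) r * DD 2 r t
      rw [Fin.sum_univ_one]
      fin_cases t
      · change v 0 = w * (el gv - 1)
        exact h1
      · change v 1 = w * (-(el gu - 1))
        rw [h2]; noncomm_ring
      · change v 2 = w * (-(1 - el gu * el gv * el ga))
        rw [h3]; noncomm_ring
    | 2 =>
      intro v hv
      change Fin 1 → _ at v
      have ha := hv (0 : Fin 3)
      change ∑ t : Fin 1, v t * DD 2 t (0 : Fin 3) = 0 at ha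
      rw [Fin.sum_univ_one] at ha
      change v 0 * (el gv - 1) = 0 at ha
      have h0 := mul_sub_one_eq_zero gv_inf ha
      refine ⟨fun j => j.elim0, ?_⟩
      intro t
      change Fin 1 at t
      fin_cases t
      change v 0 = ∑ r : Fin 0, _
      rw [Fin.sum_univ_zero]
      exact h0
    | (n + 3) =>
      intro v hv
      exact ⟨fun j => j.elim0, fun t => t.elim0⟩
  d0 := by
    intro t
    change Fin 3 at t
    change ∑ l : Fin 1, augk ℤ FG (DD 0 t l) = 0
    rw [Fin.sum_univ_one]
    fin_cases t
    · change augk ℤ FG (el ga - 1) = 0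
      rw [map_sub, augk_el, map_one, sub_self]
    · change augk ℤ FG (el gu - 1) = 0
      rw [map_sub, augk_el, map_one, sub_self]
    · change augk ℤ FG (el gv - 1) = 0
      rw [map_sub, augk_el, map_one, sub_self]
  ex0 := by
    intro v hv
    change Fin 1 → _ at v
    change ∑ l : Fin 1, augk ℤ FG (v l) = 0 at hv
    rw [Fin.sum_univ_one, augk_eq] at hv
    obtain ⟨α, β, γ, h⟩ := G_exact0 hv
    refine ⟨(![α, β, γ] : Fin 3 → _), ?_⟩
    intro l
    change Fin 1 at l
    fin_cases l
    change v 0 = ∑ t : Fin 3, (![α, β, γ] : Fin 3 → _) t * DD 0 t (0 : Fin 1)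
    rw [Fin.sum_univ_three]
    exact h
  ne := by decide

end Pool.Agent.H5
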