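import Mathlib
import Pool.Agent.H5.FlatRes

/-!
Cohomology of the flat 3-manifold group with group ring coefficients.
-/

open MonoidAlgebra CategoryTheory

namespace Pool.Agent.H5

lemma flat_cob (i : ℕ) (f : Fin (mm i) → MonoidAlgebra ℤ FG) (j : Fin (mm (i + 1))) :
    flatRes.cob (Rep.leftRegular ℤ FG) i f j = ∑ l, DD i j l * f l := by
  unfold MatRes.cob
  refine Finset.sum_congr rfl fun l _ => ?_
  exact act_leftRegular _ _

lemma flat_H0 : Subsingleton (groupCohomology (Rep.leftRegular ℤ FG) 0) := by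
  refine flatRes.subsingleton_zero _ ?_
  intro f hf
  change Fin 1 → MonoidAlgebra ℤ FG at f
  have h := (flat_cob 0 f (2 : Fin 3)).symm.trans (congrFun hf (2 : Fin 3))
  change ∑ l : Fin 1, DD 0 (2 : Fin 3) l * f l = 0 at h
  rw [Fin.sum_univ_one] at h
  change (el gv - 1) * f 0 = 0 at h
  funext l
  fin_cases l
  exact sub_one_mul_eq_zero gv_inf h

lemma flat_H1 : Subsingleton (groupCohomology (Rep.leftRegular ℤ FG) 1) := by
  refine flatRes.subsingleton_succ _ 0 ?_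
  intro f hf
  change Fin 3 → MonoidAlgebra ℤ FG at f
  have h1 := (flat_cob 1 f (1 : Fin 3)).symm.trans (congrFun hf (1 : Fin 3))
  have h2 := (flat_cob 1 f (2 : Fin 3)).symm.trans (congrFun hf (2 : Fin 3))
  change ∑ l : Fin 3, DD 1 (1 : Fin 3) l * f l = 0 at h1
  change ∑ l : Fin 3, DD 1 (2 : Fin 3) l * f l = 0 at h2
  rw [Fin.sum_univ_three] at h1 h2
  change (el gv - 1) * f 0 + 0 * f 1 + (1 + el gv * el ga) * f 2 = 0 at h1
  change 0 * f 0 + (el gv - 1) * f 1 + -(el gu - 1) * f 2 = 0 at h2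
  rw [zero_mul, add_zero] at h1
  rw [zero_mul, zero_add, neg_mul, ← sub_eq_add_neg] at h2
  obtain ⟨r, hx, hy, hz⟩ := G_dual1 h1 h2
  refine ⟨(fun _ => r : Fin 1 → MonoidAlgebra ℤ FG), ?_⟩
  funext j
  change Fin 3 at j
  refine (flat_cob 0 (fun _ => r : Fin 1 → MonoidAlgebra ℤ FG) j).trans ?_
  change ∑ l : Fin 1, DD 0 j l * r = f j
  rw [Fin.sum_univ_one]
  fin_cases j
  · exact hx.symm
  · exact hy.symm
  · exact hz.symm

lemma flat_H2 : Subsingleton (groupCohomology (Rep.leftRegular ℤ FG) 2) := by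
  refine flatRes.subsingleton_succ _ 1 ?_
  intro f hf
  change Fin 3 → MonoidAlgebra ℤ FG at f
  have h1 := (flat_cob 2 f (0 : Fin 1)).symm.trans (congrFun hf (0 : Fin 1))
  change ∑ l : Fin 3, DD 2 (0 : Fin 1) l * f l = 0 at h1
  rw [Fin.sum_univ_three] at h1
  change (el gv - 1) * f 0 + -(el gu - 1) * f 1 + -(1 - el gu * el gv * el ga) * f 2 = 0 at h1
  rw [neg_mul, neg_mul, ← sub_eq_add_neg, ← sub_eq_add_neg] at h1
  obtain ⟨a, b, c, hx, hy, hz⟩ := G_dual2 h1
  refine ⟨(![a, b, c] : Fin 3 → MonoidAlgebra ℤ FG), ?_⟩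
  funext j
  change Fin 3 at j
  refine (flat_cob 1 (![a, b, c] : Fin 3 → MonoidAlgebra ℤ FG) j).trans ?_
  change ∑ l : Fin 3, DD 1 j l * (![a, b, c] : Fin 3 → MonoidAlgebra ℤ FG) l = f j
  rw [Fin.sum_univ_three]
  fin_cases j
  · change (el gu - 1) * a + (1 + el gu * el ga) * b + 0 * c = f 0
    rw [hx]; noncomm_ring
  · change (el gv - 1) * a + 0 * b + (1 + el gv * el ga) * c = f 1
    rw [hy]; noncomm_ring
  · change 0 * a + (el gv - 1) * b + -(el gu - 1) * c = f 2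
    rw [hz]; noncomm_ring

lemma flat_H4 (i : ℕ) : Subsingleton (groupCohomology (Rep.leftRegular ℤ FG) (i + 4)) := by
  refine flatRes.subsingleton_succ _ (i + 3) ?_
  intro f _
  refine ⟨0, ?_⟩
  funext j
  exact j.elim0

/-- The map `θ`. -/
noncomputable def flatTheta : (Fin (mm 3) → MonoidAlgebra ℤ FG) →ₗ[ℤ] ℤ :=
  (aug FG).toAddMonoidHom.toIntLinearMap ∘ₗ LinearMap.proj (0 : Fin 1)

lemma flat_H3 : Nonempty (groupCohomology (Rep.leftRegular ℤ FG) 3 ≃ₗ[ℤ] ℤ) := by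
  refine flatRes.equiv_top (Rep.leftRegular ℤ FG) 2 rfl (N := ℤ) flatTheta ?_ ?_
  · intro n
    refine ⟨(fun _ => MonoidAlgebra.single 1 n : Fin 1 → MonoidAlgebra ℤ FG), ?_⟩
    exact aug_single _ _
  · intro f
    change Fin 1 → MonoidAlgebra ℤ FG at f
    change aug FG (f 0) = 0 ↔ _
    constructor
    · intro h
      obtain ⟨x, y, z, hxyz⟩ := G_dual3 h
      refine ⟨(![x, y, z] : Fin 3 → MonoidAlgebra ℤ FG), ?_⟩
      funext j
      change Fin 1 at j
      refine (flat_cob 2 (![x, y, z] : Fin 3 → MonoidAlgebra ℤ FG) j).trans ?_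
      change ∑ l : Fin 3, DD 2 j l * (![x, y, z] : Fin 3 → MonoidAlgebra ℤ FG) l = f j
      rw [Fin.sum_univ_three]
      fin_cases j
      change (el gv - 1) * x + -(el gu - 1) * y + -(1 - el gu * el gv * el ga) * z = f 0
      rw [hxyz]; noncomm_ring
    · rintro ⟨g, hg⟩
      change Fin 3 → MonoidAlgebra ℤ FG at g
      have h := (flat_cob 2 g (0 : Fin 1)).symm.trans (congrFun hg (0 : Fin 1))
      change ∑ l : Fin 3, DD 2 (0 : Fin 1) l * g l = f 0 at h
      rw [Fin.sum_univ_three] at h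
      change (el gv - 1) * g 0 + -(el gu - 1) * g 1 + -(1 - el gu * el gv * el ga) * g 2 = f 0 at h
      rw [← h]
      simp

lemma flat_zero (i : ℕ) (hi : 3 < i) : Limits.IsZero (flatRes.res.complex.X i) := by
  obtain ⟨n, rfl⟩ : ∃ n, i = n + 4 := ⟨i - 4, by omega⟩
  exact flatRes.isZero_X (n + 4) rfl

end Pool.Agent.H5
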