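import Mathlib
import Pool.Agent.H5.FlatGroup

/-!
Subgroups of the flat 3-manifold group.
-/

namespace Pool.Agent.H5

/-- Nontrivial elements of the two factors of a free product do not commute. -/
lemma coprod_not_commute {A B : Type*} [Group A] [Group B] {x : A} {y : B} (hx : x ≠ 1)
    (hy : y ≠ 1) :
    (Monoid.Coprod.inl x : Monoid.Coprod A B) * Monoid.Coprod.inr y ≠
      Monoid.Coprod.inr y * Monoid.Coprod.inl x := by
  classical
  let σ : Equiv.Perm (A ⊕ B) := Equiv.swap (Sum.inl 1) (Sum.inr 1)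
  let α : A →* Equiv.Perm (A ⊕ B) :=
    { toFun := fun a => Equiv.Perm.sumCongr (Equiv.mulLeft a) 1
      map_one' := by ext z; cases z <;> simp
      map_mul' := by intro a b; ext z; cases z <;> simp [mul_assoc] }
  let β : B →* Equiv.Perm (A ⊕ B) :=
    { toFun := fun b => σ * Equiv.Perm.sumCongr 1 (Equiv.mulLeft b) * σ
      map_one' := by
        have : Equiv.Perm.sumCongr (1 : Equiv.Perm A) (Equiv.mulLeft (1 : B)) = 1 := by
          ext z; cases z <;> simp
        rw [this]; simp [σ]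
      map_mul' := by
        intro a b
        have : Equiv.Perm.sumCongr (1 : Equiv.Perm A) (Equiv.mulLeft (a * b)) =
          Equiv.Perm.sumCongr (1 : Equiv.Perm A) (Equiv.mulLeft a) *
          Equiv.Perm.sumCongr (1 : Equiv.Perm A) (Equiv.mulLeft b) := by
          ext z; cases z <;> simp [mul_assoc]
        rw [this]
        have hσ : σ * σ = 1 := by simp [σ]
        calc _ = σ * Equiv.Perm.sumCongr 1 (Equiv.mulLeft a) * 1
              * Equiv.Perm.sumCongr 1 (Equiv.mulLeft b) * σ := by simp only [mul_assoc, one_mul]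
          _ = _ := by rw [← hσ]; simp only [mul_assoc] }
  intro h
  have h2 := congrArg (Monoid.Coprod.lift α β) h
  rw [map_mul, map_mul, Monoid.Coprod.lift_apply_inl, Monoid.Coprod.lift_apply_inr] at h2
  have h3 := congrArg (fun p : Equiv.Perm (A ⊕ B) => p (Sum.inl 1)) h2
  have e1 : (α x * β y) (Sum.inl 1) = Sum.inr y := by
    change α x (σ (Equiv.Perm.sumCongr 1 (Equiv.mulLeft y) (σ (Sum.inl 1)))) = Sum.inr y
    have : σ (Sum.inl 1) = Sum.inr 1 := Equiv.swap_apply_left _ _
    rw [this]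
    have h4 : Equiv.Perm.sumCongr (1 : Equiv.Perm A) (Equiv.mulLeft y) (Sum.inr 1) = Sum.inr y := by
      simp
    rw [h4]
    have h5 : σ (Sum.inr y) = Sum.inr y :=
      Equiv.swap_apply_of_ne_of_ne (by simp) (by simpa using hy)
    rw [h5]
    rfl
  have e2 : (β y * α x) (Sum.inl 1) = Sum.inl x := by
    change σ (Equiv.Perm.sumCongr 1 (Equiv.mulLeft y) (σ (α x (Sum.inl 1)))) = Sum.inl x
    have : α x (Sum.inl 1) = Sum.inl x := by
      change Equiv.Perm.sumCongr (Equiv.mulLeft x) 1 (Sum.inl 1) = _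
      simp
    rw [this]
    have h5 : σ (Sum.inl x) = Sum.inl x :=
      Equiv.swap_apply_of_ne_of_ne (by simpa using hx) (by simp)
    rw [h5]
    have h4 : Equiv.Perm.sumCongr (1 : Equiv.Perm A) (Equiv.mulLeft y) (Sum.inl x) = Sum.inl x := by
      simp
    rw [h4, h5]
  have h6 : (Sum.inr y : A ⊕ B) = Sum.inl x := by rw [← e1, ← e2]; exact h3
  simp at h6

/-- The Klein bottle subgroup `U = ⟨u, a⟩`. -/
def US : Subgroup FG where
  carrier := {g | g.j = 0}
  one_mem' := rfl
  mul_mem' := by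
    intro x y hx hy
    simp only [Set.mem_ofPred_eq] at *
    simp [hx, hy]
  inv_mem' := by
    intro x hx
    simp only [Set.mem_ofPred_eq] at *
    simp [hx]

/-- The normal subgroup `N = ⟨u, a²⟩`. -/
def NS : Subgroup FG where
  carrier := {g | g.j = 0 ∧ Even g.k}
  one_mem' := ⟨rfl, by simp⟩
  mul_mem' := by
    rintro x y ⟨hx, hx'⟩ ⟨hy, hy'⟩
    exact ⟨by simp [hx, hy], by simpa using hx'.add hy'⟩
  inv_mem' := by
    rintro x ⟨hx, hx'⟩
    exact ⟨by simp [hx], by simpa using hx'⟩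

lemma mem_US {g : FG} : g ∈ US ↔ g.j = 0 := Iff.rfl
lemma mem_NS {g : FG} : g ∈ NS ↔ g.j = 0 ∧ Even g.k := Iff.rfl

lemma NS_le_US : NS ≤ US := fun _ h => h.1

lemma sg_even {k : ℤ} (h : Even k) : sg k = 1 := by
  simp [sg, Int.negOnePow_even k h]

instance NS_normal : NS.Normal where
  conj_mem := by
    rintro n ⟨h1, h2⟩ g
    refine ⟨?_, ?_⟩
    · have h3 : sg n.k = 1 := sg_even h2
      simp only [FG.mul_j, FG.mul_k, FG.inv_j, h1, sg_add, h3]
      have := sg_mul_self g.k
      linear_combination (-g.j) * this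
    · simpa using h2

lemma US_eq_closure : US = Subgroup.closure {gu, ga} := by
  apply le_antisymm
  · intro g hg
    rw [mem_US] at hg
    have : g = gu ^ g.i * ga ^ g.k := by
      rw [gu_zpow, ga_zpow]; ext <;> simp [hg]
    rw [this]
    exact Subgroup.mul_mem _ (Subgroup.zpow_mem _ (Subgroup.subset_closure (by simp)) _)
      (Subgroup.zpow_mem _ (Subgroup.subset_closure (by simp)) _)
  · rw [Subgroup.closure_le]
    rintro _ (rfl | rfl) <;> rfl

lemma US_fg : US.FG := by
  classical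
  rw [US_eq_closure]
  exact ⟨{gu, ga}, by simp⟩

lemma gv_pow_mem (H : Subgroup FG) (hH : ∀ n : ℤ, n ≠ 0 → gv ^ n ∉ H) : ¬ H.FiniteIndex := by
  intro h
  obtain ⟨m, hm, -, hmem⟩ := Subgroup.exists_pow_mem_of_index_ne_zero h.index_ne_zero gv
  exact hH m (by exact_mod_cast hm.ne') (by simpa using hmem)

lemma US_index : ¬ US.FiniteIndex := by
  refine gv_pow_mem _ ?_
  intro n hn
  rw [gv_zpow, mem_US]
  exact hn

lemma normalizer_US_index : ¬ (Subgroup.normalizer (US : Set FG)).FiniteIndex := by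
  refine gv_pow_mem _ ?_
  intro n hn h
  have h1 := (Subgroup.mem_normalizer_iff.1 h ga).1 (by rfl)
  rw [gv_zpow] at h1
  change FG.j _ = 0 at h1
  simp [ga] at h1
  omega

lemma NS_not_cyclic : ¬ IsCyclic NS := by
  rintro ⟨⟨g, hg⟩, hgen⟩
  obtain ⟨n, hn⟩ := hgen ⟨gu, by exact ⟨rfl, by simp [gu]⟩⟩
  obtain ⟨m, hm⟩ := hgen ⟨ga ^ (2 : ℤ), by rw [ga_zpow]; exact ⟨rfl, by simp⟩⟩
  have hn' : g ^ n = gu := congrArg Subtype.val hn
  have hm' : g ^ m = ga ^ (2 : ℤ) := congrArg Subtype.val hm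
  have hk : ∀ p : ℤ, (g ^ p).k = p * g.k := by
    intro p
    induction p using Int.induction_on with
    | zero => simp
    | succ p ih => rw [zpow_add_one, FG.mul_k, ih]; ring
    | pred p ih => rw [zpow_sub_one, FG.mul_k, ih, FG.inv_k]; ring
  have h1 := hk n
  rw [hn'] at h1
  have h2 := hk m
  rw [hm', ga_zpow] at h2
  simp only [gu] at h1
  rcases mul_eq_zero.1 h1.symm with h3 | h3
  · rw [h3, zpow_zero] at hn'
    have := congrArg FG.i hn'
    simp [gu] at this
  · rw [h3] at h2; simp at h2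

lemma US_nontrivial : Nontrivial US :=
  ⟨⟨1, ⟨gu, by rfl⟩, by
    intro h
    have := congrArg FG.i (congrArg Subtype.val h)
    simp [gu] at this⟩⟩

lemma US_sq_ne_one {x : FG} (hx : x ∈ US) (h1 : x ≠ 1) : x * x ≠ 1 := by
  intro h
  have hk := congrArg FG.k h
  have hi := congrArg FG.i h
  simp only [FG.mul_k, FG.mul_i, FG.one_k, FG.one_i] at hk hi
  have hk0 : x.k = 0 := by omega
  rw [hk0, sg_zero] at hi
  apply h1
  ext
  · simp; omega
  · exact hx
  · exact hk0

lemma US_sq_comm {x y : FG} (hx : x ∈ US) (hy : y ∈ US) : (x * x) * (y * y) = (y * y) * (x * x) := by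
  rw [mem_US] at hx hy
  have h1 : sg (x.k + x.k) = 1 := sg_even ⟨_, rfl⟩
  have h2 : sg (y.k + y.k) = 1 := sg_even ⟨_, rfl⟩
  ext
  · simp [h1, h2]; ring
  · simp [hx, hy]
  · simp; ring

lemma US_indecomposable (A B : Type) [Group A] [Group B] (e : US ≃* Monoid.Coprod A B) :
    Subsingleton A ∨ Subsingleton B := by
  by_contra hcon
  rw [not_or, not_subsingleton_iff_nontrivial, not_subsingleton_iff_nontrivial] at hcon
  obtain ⟨hA, hB⟩ := hcon
  obtain ⟨x, hx⟩ := exists_ne (1 : A)
  obtain ⟨y, hy⟩ := exists_ne (1 : B)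
  have hinl : Function.Injective (Monoid.Coprod.inl : A →* Monoid.Coprod A B) :=
    Monoid.Coprod.inl_injective
  have hinr : Function.Injective (Monoid.Coprod.inr : B →* Monoid.Coprod A B) :=
    Monoid.Coprod.inr_injective
  set X := e.symm (Monoid.Coprod.inl x) with hX
  set Y := e.symm (Monoid.Coprod.inr y) with hY
  have hX1 : X.1 ≠ 1 := by
    intro h
    have : X = 1 := Subtype.ext h
    rw [hX, MulEquiv.map_eq_one_iff] at this
    exact hx (hinl (by rw [this, map_one]))
  have hY1 : Y.1 ≠ 1 := by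
    intro h
    have : Y = 1 := Subtype.ext h
    rw [hY, MulEquiv.map_eq_one_iff] at this
    exact hy (hinr (by rw [this, map_one]))
  have hxx : x * x ≠ 1 := by
    intro h
    apply US_sq_ne_one X.2 hX1
    have : X * X = 1 := by rw [hX, ← map_mul, ← map_mul, h, map_one, map_one]
    exact congrArg Subtype.val this
  have hyy : y * y ≠ 1 := by
    intro h
    apply US_sq_ne_one Y.2 hY1
    have : Y * Y = 1 := by rw [hY, ← map_mul, ← map_mul, h, map_one, map_one]
    exact congrArg Subtype.val this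
  apply coprod_not_commute hxx hyy
  apply e.symm.injective
  have e1 : e.symm (Monoid.Coprod.inl (x * x) * Monoid.Coprod.inr (y * y)) = X * X * (Y * Y) := by
    rw [hX, hY]; simp only [map_mul]
  have e2 : e.symm (Monoid.Coprod.inr (y * y) * Monoid.Coprod.inl (x * x)) = Y * Y * (X * X) := by
    rw [hX, hY]; simp only [map_mul]
  rw [e1, e2]
  exact Subtype.ext (US_sq_comm X.2 Y.2)

end Pool.Agent.H5
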