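import Mathlib

/-!
Invariant functionals for `p`-groups acting on finite abelian `p`-groups.
-/

namespace Pool.Agent.H5

lemma exists_field_functional {K : Type} [Field K] {B : Type} [AddCommGroup B] [Module K B]
    {b : B} (hb : b ≠ 0) : ∃ φ : B →+ K, φ b ≠ 0 := by
  by_contra hcon
  push Not at hcon
  exact hb ((Module.forall_dual_apply_eq_zero_iff K b).1 fun φ => hcon φ.toAddMonoidHom)

lemma exists_zmod_functional {p : ℕ} [hp : Fact p.Prime] {B : Type} [AddCommGroup B]
    (hB : ∀ b : B, p • b = 0) {b : B} (hb : b ≠ 0) : ∃ φ : B →+ ZMod p, φ b ≠ 0 := by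
  let _ : Module (ZMod p) B := AddCommGroup.zmodModule hB
  exact exists_field_functional hb

lemma exists_addHom_ne_zero {p : ℕ} [hp : Fact p.Prime] {A : Type} [AddCommGroup A]
    [Nontrivial A] {j : ℕ} (hA : ∀ a : A, p ^ j • a = 0) :
    ∃ f : A →+ ZMod p, f ≠ 0 := by
  classical
  let m : A →+ A := nsmulAddMonoidHom p
  have hne : m.range ≠ ⊤ := by
    intro h
    have hs : ∀ (i : ℕ) (a : A), ∃ b, p ^ i • b = a := by
      intro i
      induction i with
      | zero => intro a; exact ⟨a, by simp⟩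
      | succ i ih =>
        intro a
        have : a ∈ m.range := by rw [h]; trivial
        obtain ⟨b, hb⟩ := this
        obtain ⟨c, hc⟩ := ih b
        refine ⟨c, ?_⟩
        rw [pow_succ', mul_smul, hc]
        exact hb
    obtain ⟨a, ha⟩ := exists_ne (0 : A)
    obtain ⟨b, hb⟩ := hs j a
    rw [hA b] at hb
    exact ha hb.symm
  let B := A ⧸ m.range
  have hB : ∀ b : B, p • b = 0 := by
    intro b
    obtain ⟨a, rfl⟩ := QuotientAddGroup.mk_surjective b
    rw [← QuotientAddGroup.mk_nsmul, QuotientAddGroup.eq_zero_iff]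
    exact ⟨a, rfl⟩
  obtain ⟨a, ha⟩ : ∃ a, a ∉ m.range := by
    by_contra h
    push Not at h
    exact hne (by ext; simp [h])
  have hb : (QuotientAddGroup.mk a : B) ≠ 0 := by
    rw [Ne, QuotientAddGroup.eq_zero_iff]; exact ha
  obtain ⟨φ, hφ⟩ := exists_zmod_functional hB hb
  refine ⟨φ.comp (QuotientAddGroup.mk' m.range), ?_⟩
  intro h
  exact hφ (DFunLike.congr_fun h a)

/-- A group acting on a nonzero finite abelian `p`-group through a `p`-group has a nonzero
invariant functional. -/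
lemma exists_invariant_functional {p : ℕ} [hp : Fact p.Prime] {A : Type} [AddCommGroup A]
    [Nontrivial A] [Finite A] {j : ℕ} (hA : ∀ a : A, p ^ j • a = 0) {P : Type} [Group P]
    [DistribMulAction P A] (hP : ∀ u : P, ∃ r : ℕ, ∀ a : A, u ^ p ^ r • a = a) :
    ∃ f : A →+ ZMod p, f ≠ 0 ∧ ∀ (u : P) (a : A), f (u • a) = f a := by
  classical
  obtain ⟨f0, hf0⟩ := exists_addHom_ne_zero (p := p) hA
  have hfin : Finite (A →+ ZMod p) := Finite.of_injective _ DFunLike.coe_injective
  let act : MulAction P (A →+ ZMod p) :=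
    { smul := fun u f => f.comp (DistribSMul.toAddMonoidHom A u⁻¹)
      one_smul := by
        intro f; ext a
        change f ((1 : P)⁻¹ • a) = f a
        simp
      mul_smul := by
        intro u v f; ext a
        change f ((u * v)⁻¹ • a) = f (v⁻¹ • (u⁻¹ • a))
        rw [mul_inv_rev, mul_smul] }
  have hact : ∀ (u : P) (f : A →+ ZMod p) (a : A), (u • f) a = f (u⁻¹ • a) := fun _ _ _ => rfl
  let φ : P →* Equiv.Perm (A →+ ZMod p) := MulAction.toPermHom P (A →+ ZMod p)
  have hrange : IsPGroup p φ.range := by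
    rintro ⟨_, ⟨u, rfl⟩⟩
    obtain ⟨r, hr⟩ := hP u⁻¹
    refine ⟨r, Subtype.ext ?_⟩
    change (φ u) ^ p ^ r = 1
    rw [← map_pow]
    ext f a
    change (u ^ p ^ r • f) a = f a
    rw [hact, ← inv_pow, hr]
  have hcard : p ∣ Nat.card (A →+ ZMod p) := by
    have h1 : p • f0 = 0 := by
      ext a; simp
    have h2 := addOrderOf_eq_prime h1 hf0
    exact (dvd_of_eq h2.symm).trans (addOrderOf_dvd_natCard f0)
  have hfix : (0 : A →+ ZMod p) ∈ MulAction.fixedPoints φ.range (A →+ ZMod p) := by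
    rintro ⟨_, ⟨u, rfl⟩⟩
    change u • (0 : A →+ ZMod p) = 0
    ext a; rfl
  obtain ⟨f, hf, hne⟩ :=
    hrange.exists_fixed_point_of_prime_dvd_card_of_fixed_point (A →+ ZMod p) hcard hfix
  refine ⟨f, hne.symm, ?_⟩
  intro u a
  have h1 : (u⁻¹ • f) = f := hf ⟨φ u⁻¹, ⟨_, rfl⟩⟩
  have h2 := DFunLike.congr_fun h1 a
  rw [hact, inv_inv] at h2
  exact h2

end Pool.Agent.H5
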