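import Mathlib
import Pool.Agent.H5.GroupRing

/-!
The Villamayor property of the relation module of a group with vanishing second homology.
-/

open MonoidAlgebra CategoryTheory groupHomology

namespace Pool.Agent.H5

variable {H : Type} [Group H]

/-- Right multiplication by inverses. -/
noncomputable def rightRep (H : Type) [Group H] : Representation ℤ H (MonoidAlgebra ℤ H) where
  toFun g := LinearMap.mulRight ℤ (el g⁻¹)
  map_one' := by
    ext1; simp [LinearMap.ext_iff]
  map_mul' g h := by
    refine LinearMap.ext fun a => ?_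
    simp only [LinearMap.mulRight_apply, mul_inv_rev, Module.End.mul_apply]
    rw [el_mul, ← mul_assoc]

lemma rightRep_apply (g : H) (a : MonoidAlgebra ℤ H) : rightRep H g a = a * el g⁻¹ := rfl

/-- The right ideal generated by a finite family. -/
noncomputable def rightIdeal {ι : Type} [Fintype ι] (k : ι → MonoidAlgebra ℤ H) :
    Submodule ℤ (MonoidAlgebra ℤ H) where
  carrier := {a | ∃ r : ι → MonoidAlgebra ℤ H, k ⬝ᵥ r = a}
  zero_mem' := ⟨0, by simp⟩
  add_mem' := by
    rintro _ _ ⟨r, rfl⟩ ⟨s, rfl⟩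
    exact ⟨r + s, by rw [dotProduct_add]⟩
  smul_mem' := by
    rintro n _ ⟨r, rfl⟩
    exact ⟨n • r, by rw [dotProduct_smul]⟩

lemma mem_rightIdeal {ι : Type} [Fintype ι] {k : ι → MonoidAlgebra ℤ H} {a : MonoidAlgebra ℤ H} :
    a ∈ rightIdeal k ↔ ∃ r : ι → MonoidAlgebra ℤ H, k ⬝ᵥ r = a := Iff.rfl

lemma rightIdeal_mul {ι : Type} [Fintype ι] {k : ι → MonoidAlgebra ℤ H} {a : MonoidAlgebra ℤ H}
    (ha : a ∈ rightIdeal k) (b : MonoidAlgebra ℤ H) : a * b ∈ rightIdeal k := by
  obtain ⟨r, rfl⟩ := ha
  refine ⟨fun i => r i * b, ?_⟩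
  simp only [dotProduct, Finset.sum_mul, mul_assoc]

/-- The quotient representation. -/
noncomputable def quotRep {ι : Type} [Fintype ι] (k : ι → MonoidAlgebra ℤ H) :
    Representation ℤ H (MonoidAlgebra ℤ H ⧸ rightIdeal k) where
  toFun g := (rightIdeal k).mapQ (rightIdeal k) (rightRep H g) (by
    intro a ha
    exact rightIdeal_mul ha _)
  map_one' := by
    refine LinearMap.ext fun a => ?_
    obtain ⟨a, rfl⟩ := Submodule.Quotient.mk_surjective _ a
    simp
  map_mul' g h := by
    refine LinearMap.ext fun a => ?_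
    obtain ⟨a, rfl⟩ := Submodule.Quotient.mk_surjective _ a
    change Submodule.Quotient.mk (rightRep H (g * h) a)
      = Submodule.Quotient.mk (rightRep H g (rightRep H h a))
    rw [map_mul]; rfl

lemma quotRep_mk {ι : Type} [Fintype ι] (k : ι → MonoidAlgebra ℤ H) (g : H)
    (a : MonoidAlgebra ℤ H) :
    quotRep k g (Submodule.Quotient.mk a) = Submodule.Quotient.mk (a * el g⁻¹) := rfl

/-- The contraction. -/
noncomputable def sOne (H : Type) [Group H] :
    (H →₀ MonoidAlgebra ℤ H) →+ (H × H →₀ MonoidAlgebra ℤ H) :=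
  Finsupp.liftAddHom fun h =>
    (Finsupp.liftAddHom fun g => ((Finsupp.singleAddHom (g, h)).comp
      (MonoidAlgebra.singleAddHom (R := ℤ) (1 : H)))).comp
      (MonoidAlgebra.coeffAddEquiv (R := ℤ) (M := H)).toAddMonoidHom

lemma sOne_single (g h : H) (n : ℤ) :
    sOne H (Finsupp.single h (MonoidAlgebra.single g n))
      = Finsupp.single (g, h) (MonoidAlgebra.single 1 n) := by
  simp [sOne]

/-- The contraction in degree zero. -/
noncomputable def sZero (H : Type) [Group H] :
    MonoidAlgebra ℤ H →+ (H →₀ MonoidAlgebra ℤ H) :=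
    (Finsupp.liftAddHom fun g => ((Finsupp.singleAddHom g).comp
      (MonoidAlgebra.singleAddHom (R := ℤ) (1 : H)))).comp
      (MonoidAlgebra.coeffAddEquiv (R := ℤ) (M := H)).toAddMonoidHom

lemma sZero_single (g : H) (n : ℤ) :
    sZero H (MonoidAlgebra.single g n) = Finsupp.single g (MonoidAlgebra.single 1 n) := by
  simp [sZero]

/-- `ℤ[H]` with the right multiplication. -/
noncomputable abbrev RR (H : Type) [Group H] : Rep.{0} ℤ H := Rep.of (rightRep H)

/-- the quotient -/
noncomputable abbrev QR {ι : Type} [Fintype ι] (k : ι → MonoidAlgebra ℤ H) : Rep.{0} ℤ H :=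
  Rep.of (quotRep k)

/-- The differential `C₃ → C₂` for `ℤ[H]` with right multiplication. -/
noncomputable def dd32 (H : Type) [Group H] :
    (H × H × H →₀ MonoidAlgebra ℤ H) →+ (H × H →₀ MonoidAlgebra ℤ H) :=
  (d₃₂ (RR H)).hom.toAddMonoidHom

/-- The differential `C₂ → C₁` for `ℤ[H]` with right multiplication. -/
noncomputable def dd21 (H : Type) [Group H] :
    (H × H →₀ MonoidAlgebra ℤ H) →+ (H →₀ MonoidAlgebra ℤ H) :=
  (d₂₁ (RR H)).hom.toAddMonoidHom

/-- The differential `C₁ → C₀` for `ℤ[H]` with right multiplication. -/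
noncomputable def dd10 (H : Type) [Group H] :
    (H →₀ MonoidAlgebra ℤ H) →+ MonoidAlgebra ℤ H :=
  (d₁₀ (RR H)).hom.toAddMonoidHom

lemma dd32_single (g : H × H × H) (a : MonoidAlgebra ℤ H) :
    dd32 H (Finsupp.single g a) = Finsupp.single (g.2.1, g.2.2) (a * el g.1)
      - Finsupp.single (g.1 * g.2.1, g.2.2) a +
      Finsupp.single (g.1, g.2.1 * g.2.2) a - Finsupp.single (g.1, g.2.1) a := by
  have h := d₃₂_single (A := RR H) g a
  rw [rightRep_apply, inv_inv] at h
  exact h

lemma dd21_single (g : H × H) (a : MonoidAlgebra ℤ H) :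
    dd21 H (Finsupp.single g a) = Finsupp.single g.2 (a * el g.1)
      - Finsupp.single (g.1 * g.2) a + Finsupp.single g.1 a := by
  have h := d₂₁_single (A := RR H) g a
  rw [rightRep_apply, inv_inv] at h
  exact h

lemma dd10_single (g : H) (a : MonoidAlgebra ℤ H) :
    dd10 H (Finsupp.single g a) = a * el g - a := by
  have h := d₁₀_single (RR H) g a
  rw [rightRep_apply, inv_inv] at h
  exact h

lemma dd21_dd32 (b : H × H × H →₀ MonoidAlgebra ℤ H) : dd21 H (dd32 H b) = 0 := by
  induction b using Finsupp.induction_linear with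
  | zero => simp
  | add c c' h h' => rw [map_add, map_add, h, h', add_zero]
  | single p a =>
    rw [dd32_single]
    simp only [map_sub, map_add, dd21_single]
    rw [el_mul, mul_assoc a, mul_assoc p.1]
    abel

lemma contraction (z : H →₀ MonoidAlgebra ℤ H) :
    dd21 H (sOne H z) + sZero H (dd10 H z) = z := by
  induction z using Finsupp.induction_linear with
  | zero => simp
  | add z w hz hw =>
    conv_rhs => rw [← hz, ← hw]
    simp only [map_add]
    abel
  | single h a =>
    induction a using MonoidAlgebra.induction_linear with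
    | zero => simp
    | add a b ha hb =>
      rw [Finsupp.single_add]
      conv_rhs => rw [← ha, ← hb]
      simp only [map_add]
      abel
    | single g n =>
      rw [sOne_single, dd21_single, dd10_single]
      have h1 : (MonoidAlgebra.single 1 n : MonoidAlgebra ℤ H) * el g = MonoidAlgebra.single g n := by
        simp [el]
      have h2 : (MonoidAlgebra.single g n : MonoidAlgebra ℤ H) * el h
        = MonoidAlgebra.single (g * h) n := by
        simp [el]
      rw [h1, h2, map_sub, sZero_single, sZero_single]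
      abel

/-- The column `x_i - 1`. -/
noncomputable def colX {ι : Type} (x : ι → H) : ι → MonoidAlgebra ℤ H := fun i => el (x i) - 1

/-- The relation module: rows `a` with `∑ a_i (x_i - 1) = 0`. -/
def relMod {ι : Type} [Fintype ι] (x : ι → H) : Submodule (MonoidAlgebra ℤ H)
    (ι → MonoidAlgebra ℤ H) where
  carrier := {a | a ⬝ᵥ colX x = 0}
  zero_mem' := by simp
  add_mem' := by
    intro a b ha hb
    simp only [Set.mem_ofPred_eq] at *
    rw [add_dotProduct, ha, hb, add_zero]
  smul_mem' := by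
    intro r a ha
    simp only [Set.mem_ofPred_eq] at *
    rw [smul_dotProduct, ha, smul_zero]

lemma mem_relMod {ι : Type} [Fintype ι] {x : ι → H} {a : ι → MonoidAlgebra ℤ H} :
    a ∈ relMod x ↔ a ⬝ᵥ colX x = 0 := Iff.rfl

lemma exists_row {ι : Type} [Fintype ι] {x : ι → H} (hx : Subgroup.closure (Set.range x) = ⊤)
    (g : H) : ∃ v : ι → MonoidAlgebra ℤ H, v ⬝ᵥ colX x = el g - 1 := by
  classical
  have hg : g ∈ Subgroup.closure (Set.range x) := by rw [hx]; trivial
  induction hg using Subgroup.closure_induction with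
  | mem g hg =>
    obtain ⟨i, rfl⟩ := hg
    exact ⟨Pi.single i 1, by rw [single_dotProduct]; simp [colX]⟩
  | one => exact ⟨0, by rw [el_one, sub_self, zero_dotProduct]⟩
  | mul g h _ _ ihg ihh =>
    obtain ⟨v, hv⟩ := ihg
    obtain ⟨w, hw⟩ := ihh
    refine ⟨v + el g • w, ?_⟩
    rw [add_dotProduct, smul_dotProduct, hv, hw, el_mul, smul_eq_mul]
    noncomm_ring
  | inv g _ ihg =>
    obtain ⟨v, hv⟩ := ihg
    refine ⟨-(el g⁻¹ • v), ?_⟩
    rw [neg_dotProduct, smul_dotProduct, hv, smul_eq_mul, mul_sub, ← el_mul, inv_mul_cancel,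
      el_one]
    noncomm_ring

/-- Rows `D₀ g` with `D₀ g (x - 1) = g - 1` and `D₀ x_i = e_i`. -/
lemma exists_D0 {ι : Type} [Fintype ι] [DecidableEq ι] {x : ι → H} (hinj : Function.Injective x)
    (hx : Subgroup.closure (Set.range x) = ⊤) :
    ∃ D : H → ι → MonoidAlgebra ℤ H, (∀ g, D g ⬝ᵥ colX x = el g - 1) ∧
      ∀ i, D (x i) = Pi.single i 1 := by
  classical
  choose D hD using exists_row (x := x) hx
  refine ⟨fun g => if h : ∃ i, x i = g then Pi.single h.choose 1 else D g, ?_, ?_⟩
  · intro g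
    by_cases h : ∃ i, x i = g
    · simp only [dif_pos h]
      rw [single_dotProduct, one_mul, colX, h.choose_spec]
    · simp only [dif_neg h]
      exact hD g
  · intro i
    have h : ∃ j, x j = x i := ⟨i, rfl⟩
    simp only [dif_pos h]
    rw [hinj h.choose_spec]

section Villamayor

variable {ι : Type} [Fintype ι] [DecidableEq ι] {x : ι → H} {D : H → ι → MonoidAlgebra ℤ H}

/-- The map `C₁ → R^ι`, `a [g] ↦ a D g`. -/
noncomputable def PhiD (D : H → ι → MonoidAlgebra ℤ H) :
    (H →₀ MonoidAlgebra ℤ H) →+ (ι → MonoidAlgebra ℤ H) :=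
  Finsupp.liftAddHom fun g =>
    { toFun := fun a => a • D g
      map_zero' := zero_smul _ _
      map_add' := fun _ _ => add_smul _ _ _ }

lemma PhiD_single (g : H) (a : MonoidAlgebra ℤ H) :
    PhiD D (Finsupp.single g a) = a • D g := by simp [PhiD]

/-- The defect of `D` being a derivation. -/
noncomputable def defect (D : H → ι → MonoidAlgebra ℤ H) (p : H × H) : ι → MonoidAlgebra ℤ H :=
  el p.1 • D p.2 - D (p.1 * p.2) + D p.1

lemma defect_mem (hD : ∀ g, D g ⬝ᵥ colX x = el g - 1) (p : H × H) : defect D p ∈ relMod x := by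
  rw [mem_relMod, defect, add_dotProduct, sub_dotProduct, smul_dotProduct, hD, hD, hD, el_mul,
    smul_eq_mul]
  noncomm_ring

lemma PhiD_d21 (c : H × H →₀ MonoidAlgebra ℤ H) :
    PhiD D (dd21 H c) = c.sum fun p a => a • defect D p := by
  induction c using Finsupp.induction_linear with
  | zero => simp
  | add c c' h h' =>
    rw [map_add, map_add, h, h', Finsupp.sum_add_index']
    · intro p; rw [zero_smul]
    · intro p a b; rw [add_smul]
  | single p a =>
    rw [dd21_single, Finsupp.sum_single_index (by rw [zero_smul]), map_add, map_sub]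
    rw [PhiD_single, PhiD_single, PhiD_single, defect, smul_add, smul_sub, mul_smul]

/-- The Villamayor property. -/
lemma villamayor_one (hH : ∀ A : Rep.{0} ℤ H, Subsingleton (groupHomology A 2))
    (hinj : Function.Injective x) (hx : Subgroup.closure (Set.range x) = ⊤)
    (k : ι → MonoidAlgebra ℤ H) (hk : k ∈ relMod x) :
    ∃ θ : Matrix ι ι (MonoidAlgebra ℤ H), (∀ i, θ i ∈ relMod x) ∧ Matrix.vecMul k θ = k := by
  classical
  obtain ⟨D, hD, hDx⟩ := exists_D0 hinj hx
  let z : H →₀ MonoidAlgebra ℤ H := ∑ i, Finsupp.single (x i) (k i)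
  have hz0 : dd10 H z = 0 := by
    rw [map_sum]
    have h0 : k ⬝ᵥ colX x = 0 := hk
    refine Eq.trans ?_ h0
    rw [dotProduct]
    refine Finset.sum_congr rfl fun i _ => ?_
    rw [dd10_single, colX, mul_sub, mul_one]
  have hc : dd21 H (sOne H z) = z := by
    have := contraction z
    rw [hz0, map_zero, add_zero] at this
    exact this
  -- the quotient map
  let q : MonoidAlgebra ℤ H →ₗ[ℤ] (MonoidAlgebra ℤ H ⧸ rightIdeal k) := (rightIdeal k).mkQ
  have hq0 : ∀ a, q a = 0 ↔ a ∈ rightIdeal k := fun a => Submodule.Quotient.mk_eq_zero _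
  let q1 : (H →₀ MonoidAlgebra ℤ H) →+ (H →₀ (MonoidAlgebra ℤ H ⧸ rightIdeal k)) :=
    Finsupp.mapRange.addMonoidHom q.toAddMonoidHom
  let q2 : (H × H →₀ MonoidAlgebra ℤ H) →+ (H × H →₀ (MonoidAlgebra ℤ H ⧸ rightIdeal k)) :=
    Finsupp.mapRange.addMonoidHom q.toAddMonoidHom
  let q3 : (H × H × H →₀ MonoidAlgebra ℤ H) →+
      (H × H × H →₀ (MonoidAlgebra ℤ H ⧸ rightIdeal k)) :=
    Finsupp.mapRange.addMonoidHom q.toAddMonoidHom
  have hq1 : ∀ p a, q1 (Finsupp.single p a) = Finsupp.single p (q a) := by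
    intro p a; simp [q1]
  have hq2 : ∀ p a, q2 (Finsupp.single p a) = Finsupp.single p (q a) := by
    intro p a; simp [q2]
  have hq3 : ∀ p a, q3 (Finsupp.single p a) = Finsupp.single p (q a) := by
    intro p a; simp [q3]
  have nat21 : ∀ c, d₂₁ (QR k) (q2 c) = q1 (dd21 H c) := by
    intro c
    induction c using Finsupp.induction_linear with
    | zero => simp
    | add c c' h h' => rw [map_add, map_add, map_add, map_add, h, h']
    | single p a =>
      rw [hq2, d₂₁_single, dd21_single, map_add, map_sub, hq1, hq1, hq1]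
      change Finsupp.single p.2 (q (a * el p.1⁻¹⁻¹)) - _ + _ = _
      rw [inv_inv]
  have nat32 : ∀ c, d₃₂ (QR k) (q3 c) = q2 (dd32 H c) := by
    intro c
    induction c using Finsupp.induction_linear with
    | zero => simp
    | add c c' h h' => rw [map_add, map_add, map_add, map_add, h, h']
    | single p a =>
      rw [hq3, d₃₂_single, dd32_single, map_sub, map_add, map_sub, hq2, hq2, hq2, hq2]
      change Finsupp.single (p.2.1, p.2.2) (q (a * el p.1⁻¹⁻¹)) - _ + _ - _ = _
      rw [inv_inv]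
  -- the cycle in the quotient
  have hcyc : q2 (sOne H z) ∈ cycles₂ (QR k) := by
    change d₂₁ (QR k) (q2 (sOne H z)) = 0
    rw [nat21, hc]
    change q1 (∑ i, Finsupp.single (x i) (k i)) = 0
    rw [map_sum]
    refine Finset.sum_eq_zero fun i _ => ?_
    rw [hq1, (hq0 (k i)).2, Finsupp.single_zero]
    exact ⟨Pi.single i 1, by rw [dotProduct_single, mul_one]⟩
  have hbd : q2 (sOne H z) ∈ boundaries₂ (QR k) := by
    have h1 := hH (QR k)
    exact (H2π_eq_zero_iff (A := QR k) ⟨q2 (sOne H z), hcyc⟩).1 (Subsingleton.elim _ _)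
  obtain ⟨b', hb'⟩ := hbd
  obtain ⟨b, rfl⟩ : ∃ b, q3 b = b' := by
    have : Function.Surjective (q3 : _ → _) :=
      Finsupp.mapRange_surjective _ (map_zero _) (Submodule.mkQ_surjective _)
    exact this b'
  obtain ⟨c, hcdef⟩ : ∃ c : H × H →₀ MonoidAlgebra ℤ H, c = sOne H z - dd32 H b := ⟨_, rfl⟩
  have hc1 : dd21 H c = z := by
    rw [hcdef, map_sub, dd21_dd32, sub_zero, hc]
  have hc2 : ∀ p, c p ∈ rightIdeal k := by
    intro p
    have h3 : q2 c = 0 := by
      rw [hcdef, map_sub, ← nat32]
      exact sub_eq_zero.2 hb'.symm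
    have h4 := DFunLike.congr_fun h3 p
    exact (hq0 _).1 h4
  choose r hr using hc2
  let θ : Matrix ι ι (MonoidAlgebra ℤ H) := fun i => ∑ p ∈ c.support, r p i • defect D p
  refine ⟨θ, ?_, ?_⟩
  · intro i
    exact Submodule.sum_mem _ fun p _ => Submodule.smul_mem _ _ (defect_mem hD p)
  · have h5 : PhiD D z = k := by
      change PhiD D (∑ i, Finsupp.single (x i) (k i)) = k
      rw [map_sum]
      simp only [PhiD_single, hDx]
      funext j
      rw [Finset.sum_apply, Finset.sum_eq_single j]
      · simp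
      · intro i _ hij; simp [Pi.single_apply, hij.symm]
      · simp
    rw [← hc1, PhiD_d21, Finsupp.sum] at h5
    funext j
    have h6 := congrFun h5 j
    rw [← h6, Matrix.vecMul, dotProduct]
    simp only [θ, Finset.sum_apply, Pi.smul_apply, smul_eq_mul, Finset.mul_sum]
    rw [Finset.sum_comm]
    refine Finset.sum_congr rfl fun p _ => ?_
    rw [← hr p, dotProduct, Finset.sum_mul]
    refine Finset.sum_congr rfl fun i _ => ?_
    rw [mul_assoc]

/-- The Villamayor property for finite sets. -/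
lemma villamayor (hH : ∀ A : Rep.{0} ℤ H, Subsingleton (groupHomology A 2))
    (hinj : Function.Injective x) (hx : Subgroup.closure (Set.range x) = ⊤)
    (s : Finset (ι → MonoidAlgebra ℤ H)) (hs : ∀ k ∈ s, k ∈ relMod x) :
    ∃ θ : Matrix ι ι (MonoidAlgebra ℤ H), (∀ i, θ i ∈ relMod x) ∧
      ∀ k ∈ s, Matrix.vecMul k θ = k := by
  classical
  induction s using Finset.induction_on with
  | empty => exact ⟨0, fun i => Submodule.zero_mem _, by simp⟩
  | insert k s _ ih =>
    obtain ⟨θ₁, h1, h1'⟩ := ih fun k hk => hs k (Finset.mem_insert_of_mem hk)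
    have hk : k ∈ relMod x := hs k (Finset.mem_insert_self _ _)
    have hvec : ∀ (θ : Matrix ι ι (MonoidAlgebra ℤ H)), (∀ i, θ i ∈ relMod x) →
        ∀ v : ι → MonoidAlgebra ℤ H, Matrix.vecMul v θ ∈ relMod x := by
      intro θ hθ v
      have : Matrix.vecMul v θ = ∑ i, v i • θ i := by
        funext j
        simp [Matrix.vecMul, dotProduct]
      rw [this]
      exact Submodule.sum_mem _ fun i _ => Submodule.smul_mem _ _ (hθ i)
    obtain ⟨θ₂, h2, h2'⟩ := villamayor_one hH hinj hx (k - Matrix.vecMul k θ₁)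
      (Submodule.sub_mem _ hk (hvec θ₁ h1 k))
    refine ⟨θ₁ + θ₂ - θ₁ * θ₂, ?_, ?_⟩
    · intro i
      have : (θ₁ + θ₂ - θ₁ * θ₂) i = θ₁ i + θ₂ i - Matrix.vecMul (θ₁ i) θ₂ := by
        funext j
        simp [Matrix.mul_apply, Matrix.vecMul, dotProduct]
      rw [this]
      exact Submodule.sub_mem _ (Submodule.add_mem _ (h1 i) (h2 i)) (hvec θ₂ h2 _)
    · intro k' hk'
      rw [Matrix.vecMul_sub, Matrix.vecMul_add, ← Matrix.vecMul_vecMul]
      rcases Finset.mem_insert.1 hk' with rfl | hk'
      · rw [Matrix.sub_vecMul] at h2'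
        have : Matrix.vecMul k' θ₂ - Matrix.vecMul (Matrix.vecMul k' θ₁) θ₂
          = k' - Matrix.vecMul k' θ₁ := h2'
        calc _ = Matrix.vecMul k' θ₁ + (Matrix.vecMul k' θ₂
            - Matrix.vecMul (Matrix.vecMul k' θ₁) θ₂) := by abel
          _ = k' := by rw [this]; abel
      · rw [h1' k' hk']
        abel

end Villamayor

end Pool.Agent.H5
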