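import Mathlib
import Pool.Agent.H5.Vill
import Pool.Agent.H5.PFun

/-!
Lifting generators of the relation module through `p`-group quotients.
-/

open MonoidAlgebra

namespace Pool.Agent.H5

variable {H : Type} [Group H]

/-- The ring homomorphism `ℤ[H] → k[P]` induced by `π : H → P`. -/
noncomputable def gm (k : Type) [CommRing k] {P : Type} [Group P] (π : H →* P) :
    MonoidAlgebra ℤ H →+* MonoidAlgebra k P :=
  (MonoidAlgebra.lift ℤ (MonoidAlgebra k P) H ((MonoidAlgebra.of k P).comp π)).toRingHom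

lemma gm_single (k : Type) [CommRing k] {P : Type} [Group P] (π : H →* P) (g : H) (n : ℤ) :
    gm k π (MonoidAlgebra.single g n) = MonoidAlgebra.single (π g) (n : k) := by
  simp [gm, MonoidAlgebra.lift_single, zsmul_eq_mul]

lemma gm_el (k : Type) [CommRing k] {P : Type} [Group P] (π : H →* P) (g : H) :
    gm k π (el g) = MonoidAlgebra.single (π g) 1 := by
  change gm k π (MonoidAlgebra.single g 1) = _
  rw [gm_single, Int.cast_one]

instance finite_monoidAlgebra (k G : Type) [CommRing k] [Finite k] [Finite G] :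
    Finite (MonoidAlgebra k G) :=
  Finite.of_injective (fun r : MonoidAlgebra k G => (fun g => r.coeff g : G → k)) (by
    intro r s h
    ext g
    exact congrFun h g)

/-- Rows all of whose entries vanish under `gm k π`. -/
def kerRow (ι : Type) (k : Type) [CommRing k] {P : Type} [Group P] (π : H →* P) :
    Submodule (MonoidAlgebra ℤ H) (ι → MonoidAlgebra ℤ H) where
  carrier := {v | ∀ i, gm k π (v i) = 0}
  zero_mem' := fun i => by simp
  add_mem' := fun {a b} ha hb i => by
    rw [Pi.add_apply, map_add, ha i, hb i, add_zero]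
  smul_mem' := fun r a ha i => by
    rw [Pi.smul_apply, smul_eq_mul, map_mul, ha i, mul_zero]

lemma mem_kerRow {ι : Type} {k : Type} [CommRing k] {P : Type} [Group P] {π : H →* P}
    {v : ι → MonoidAlgebra ℤ H} : v ∈ kerRow ι k π ↔ ∀ i, gm k π (v i) = 0 := Iff.rfl

lemma kerRow_vecMul {ι : Type} [Fintype ι] {k : Type} [CommRing k] {P : Type} [Group P]
    {π : H →* P} {v : ι → MonoidAlgebra ℤ H} (hv : v ∈ kerRow ι k π)
    (θ : Matrix ι ι (MonoidAlgebra ℤ H)) : Matrix.vecMul v θ ∈ kerRow ι k π := by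
  intro j
  rw [Matrix.vecMul, dotProduct, map_sum]
  refine Finset.sum_eq_zero fun i _ => ?_
  rw [map_mul, hv i, zero_mul]

section Nakayama

variable {ι : Type} [Fintype ι]

/-- The key step: generators of `K` modulo `p` over `H/G₁` generate modulo `p^j` over `H/M`. -/
lemma nakayama {K : Submodule (MonoidAlgebra ℤ H) (ι → MonoidAlgebra ℤ H)}
    (hvil : ∀ k ∈ K, ∃ θ : Matrix ι ι (MonoidAlgebra ℤ H), (∀ i, θ i ∈ K) ∧
      Matrix.vecMul k θ = k)
    {p : ℕ} [hp : Fact p.Prime] (G₁ M : Subgroup H) [G₁.Normal] [M.Normal] [Finite (H ⧸ M)]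
    (hM : ∀ g ∈ G₁, ∃ r : ℕ, g ^ p ^ r ∈ M) (j : ℕ)
    (κ : Finset (ι → MonoidAlgebra ℤ H)) (hκ : ∀ k ∈ κ, k ∈ K)
    (hgen : ∀ k ∈ K, ∃ l ∈ κ, k - l ∈ kerRow ι (ZMod p) (QuotientGroup.mk' G₁)) :
    K ≤ Submodule.span _ (κ : Set (ι → MonoidAlgebra ℤ H)) ⊔
      kerRow ι (ZMod (p ^ j)) (QuotientGroup.mk' M) := by
  classical
  have : NeZero (p ^ j) := ⟨pow_ne_zero _ hp.out.ne_zero⟩
  set W := Submodule.span _ (κ : Set (ι → MonoidAlgebra ℤ H)) ⊔
      kerRow ι (ZMod (p ^ j)) (QuotientGroup.mk' M) with hW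
  have hJW : kerRow ι (ZMod (p ^ j)) (QuotientGroup.mk' M) ≤ W := le_sup_right
  -- finiteness of the quotient
  have hfin : Finite ((ι → MonoidAlgebra ℤ H) ⧸ W) := by
    let f : ((ι → MonoidAlgebra ℤ H) ⧸ W) → (ι → MonoidAlgebra (ZMod (p ^ j)) (H ⧸ M)) :=
      fun b i => gm (ZMod (p ^ j)) (QuotientGroup.mk' M) (b.out i)
    refine Finite.of_injective f ?_
    intro b c hbc
    have h1 : b.out - c.out ∈ W := by
      apply hJW
      intro i
      rw [Pi.sub_apply, map_sub, sub_eq_zero]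
      exact congrFun hbc i
    have h2 : (Submodule.Quotient.mk (b.out) : (ι → MonoidAlgebra ℤ H) ⧸ W)
      = Submodule.Quotient.mk (c.out) := (Submodule.Quotient.eq W).2 h1
    have h3 : (Submodule.Quotient.mk (b.out) : (ι → MonoidAlgebra ℤ H) ⧸ W) = b :=
      Quotient.out_eq b
    have h4 : (Submodule.Quotient.mk (c.out) : (ι → MonoidAlgebra ℤ H) ⧸ W) = c :=
      Quotient.out_eq c
    rw [← h3, ← h4, h2]
  let A : Submodule (MonoidAlgebra ℤ H) ((ι → MonoidAlgebra ℤ H) ⧸ W) := K.map W.mkQ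
  by_contra hcon
  have hA : Nontrivial A := by
    rw [Submodule.nontrivial_iff_ne_bot]
    intro h
    apply hcon
    intro k hk
    have h1 : W.mkQ k ∈ A := ⟨k, hk, rfl⟩
    rw [h, Submodule.mem_bot] at h1
    exact (Submodule.Quotient.mk_eq_zero W).1 h1
  have hAp : ∀ a : A, p ^ j • a = 0 := by
    rintro ⟨a, ha⟩
    obtain ⟨k, hk, rfl⟩ := ha
    refine Subtype.ext ?_
    change p ^ j • (W.mkQ k) = 0
    rw [← map_nsmul]
    refine (Submodule.Quotient.mk_eq_zero W).2 (hJW ?_)
    intro i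
    rw [Pi.smul_apply, map_nsmul]
    have : ((p ^ j : ℕ) : MonoidAlgebra (ZMod (p ^ j)) (H ⧸ M)) = 0 := by
      have h0 : ((p ^ j : ℕ) : ZMod (p ^ j)) = 0 := ZMod.natCast_self _
      have h1 := congrArg (algebraMap (ZMod (p ^ j)) (MonoidAlgebra (ZMod (p ^ j)) (H ⧸ M))) h0
      rw [map_natCast, map_zero] at h1
      exact h1
    rw [nsmul_eq_mul, this, zero_mul]
  let act : DistribMulAction G₁ A := DistribMulAction.compHom A
    ((MonoidAlgebra.of ℤ H).comp G₁.subtype)
  have hact : ∀ (u : G₁) (a : A), u • a = (el (u : H)) • a := fun _ _ => rfl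
  have hP : ∀ u : G₁, ∃ r : ℕ, ∀ a : A, u ^ p ^ r • a = a := by
    intro u
    obtain ⟨r, hr⟩ := hM u u.2
    refine ⟨r, ?_⟩
    rintro ⟨a, ha⟩
    obtain ⟨k, hk, rfl⟩ := ha
    refine Subtype.ext ?_
    rw [hact]
    change el ((u ^ p ^ r : G₁) : H) • (W.mkQ k) = W.mkQ k
    rw [← map_smul, ← sub_eq_zero, ← map_sub]
    refine (Submodule.Quotient.mk_eq_zero W).2 (hJW ?_)
    intro i
    rw [Pi.sub_apply, Pi.smul_apply, map_sub, smul_eq_mul, map_mul, gm_el]
    have h1 : QuotientGroup.mk' M ((u ^ p ^ r : G₁) : H) = 1 := by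
      rw [QuotientGroup.mk'_apply, QuotientGroup.eq_one_iff]
      simpa using hr
    rw [h1, ← MonoidAlgebra.one_def, one_mul, sub_self]
  obtain ⟨f, hf0, hf⟩ := exists_invariant_functional hAp hP
  -- the functional on `K`
  let F : K →+ ZMod p := f.comp ((W.mkQ.submoduleMap K).toAddMonoidHom)
  have hF0 : ∀ (k : ι → MonoidAlgebra ℤ H) (hk : k ∈ K), k ∈ W → F ⟨k, hk⟩ = 0 := by
    intro k hk hkW
    change f (W.mkQ.submoduleMap K ⟨k, hk⟩) = 0
    have : W.mkQ.submoduleMap K ⟨k, hk⟩ = 0 := by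
      refine Subtype.ext ?_
      exact (Submodule.Quotient.mk_eq_zero W).2 hkW
    rw [this, map_zero]
  have hFinv : ∀ (u : G₁) (k : K), F (el (u : H) • k) = F k := by
    intro u k
    change f (W.mkQ.submoduleMap K (el (u : H) • k)) = f (W.mkQ.submoduleMap K k)
    rw [map_smul, ← hact, hf]
  have hker : ∀ (t : K) (r : MonoidAlgebra ℤ H),
      gm (ZMod p) (QuotientGroup.mk' G₁) r = 0 → F (r • t) = 0 := by
    intro t r hr
    let T : MonoidAlgebra (ZMod p) (H ⧸ G₁) →+ ZMod p :=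
      (Finsupp.liftAddHom fun q : H ⧸ G₁ => AddMonoidHom.mulRight (F (el (q.out) • t))).comp
        (MonoidAlgebra.coeffAddEquiv (R := ZMod p) (M := H ⧸ G₁)).toAddMonoidHom
    have hT : ∀ (q : H ⧸ G₁) (c : ZMod p), T (MonoidAlgebra.single q c)
        = c * F (el (q.out) • t) := by
      intro q c
      simp [T]
    have hTr : ∀ r : MonoidAlgebra ℤ H, T (gm (ZMod p) (QuotientGroup.mk' G₁) r) = F (r • t) := by
      intro r
      induction r using MonoidAlgebra.induction_linear with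
      | zero => simp
      | add a b ha hb => rw [map_add, map_add, ha, hb, add_smul, map_add]
      | single g n =>
        rw [gm_single, hT]
        have h1 : (MonoidAlgebra.single g n : MonoidAlgebra ℤ H) = n • el g := by simp [el]
        rw [h1, smul_assoc, map_zsmul, zsmul_eq_mul]
        congr 1
        set q : H ⧸ G₁ := QuotientGroup.mk' G₁ g with hq
        have h2 : (q.out) * g⁻¹ ∈ G₁ := by
          have h3 : (QuotientGroup.mk (q.out) : H ⧸ G₁) = QuotientGroup.mk g :=
            Quotient.out_eq q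
          rw [QuotientGroup.eq_iff_div_mem, div_eq_mul_inv] at h3
          exact h3
        have h4 := hFinv ⟨_, h2⟩ (el g • t)
        rw [← h4, ← mul_smul]
        change F (el (q.out) • t) = F ((el (q.out * g⁻¹) * el g) • t)
        rw [← el_mul, inv_mul_cancel_right]
    rw [← hTr, hr, map_zero]
  have hFz : ∀ k : K, F k = 0 := by
    rintro ⟨k, hk⟩
    obtain ⟨l, hl, hkl⟩ := hgen k hk
    have hk' : k - l ∈ K := K.sub_mem hk (hκ l hl)
    obtain ⟨θ, hθ, hθk⟩ := hvil (k - l) hk'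
    have h1 : (⟨k, hk⟩ : K) = ⟨l, hκ l hl⟩ + ∑ i, (k - l) i • (⟨θ i, hθ i⟩ : K) := by
      refine Subtype.ext ?_
      have h2 : ∑ i, (k - l) i • θ i = k - l := by
        conv_rhs => rw [← hθk]
        funext j
        simp [Matrix.vecMul, dotProduct]
      rw [Submodule.coe_add, Submodule.coe_sum]
      change k = l + ∑ i, (k - l) i • θ i
      rw [h2]; abel
    rw [h1, map_add, map_sum, hF0 l (hκ l hl) (Submodule.mem_sup_left (Submodule.subset_span hl)),
      zero_add]
    exact Finset.sum_eq_zero fun i _ => hker _ _ (hkl i)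
  apply hf0
  ext ⟨a, ha⟩
  obtain ⟨k, hk, rfl⟩ := ha
  exact hFz ⟨k, hk⟩

end Nakayama

/-! ### The residual -/

/-- `M` is a normal subgroup of finite index of `H`, contained in `G₁`, and `G₁/M` is a
`p`-group. -/
structure PM (p : ℕ) (G₁ M : Subgroup H) : Prop where
  normal : M.Normal
  fin : M.FiniteIndex
  le : M ≤ G₁
  pow : ∀ g ∈ G₁, ∃ r : ℕ, g ^ p ^ r ∈ M

lemma PM.self {p : ℕ} {G₁ : Subgroup H} (h : G₁.Normal) (h' : G₁.FiniteIndex) : PM p G₁ G₁ :=
  ⟨h, h', le_rfl, fun g hg => ⟨0, by simpa using hg⟩⟩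

lemma PM.inf {p : ℕ} {G₁ M M' : Subgroup H} (h : PM p G₁ M) (h' : PM p G₁ M') :
    PM p G₁ (M ⊓ M') := by
  have h1 := h.normal
  have h2 := h'.normal
  have h3 := h.fin
  have h4 := h'.fin
  refine ⟨inferInstance, inferInstance, inf_le_left.trans h.le, ?_⟩
  intro g hg
  obtain ⟨r, hr⟩ := h.pow g hg
  obtain ⟨s, hs⟩ := h'.pow g hg
  refine ⟨r + s, ?_, ?_⟩
  · rw [pow_add, pow_mul]; exact M.pow_mem hr _
  · rw [add_comm, pow_add, pow_mul]; exact M'.pow_mem hs _

/-- The intersection of all such subgroups. -/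
def resid (p : ℕ) (G₁ : Subgroup H) : Subgroup H := sInf {M | PM p G₁ M}

lemma mem_resid {p : ℕ} {G₁ : Subgroup H} {g : H} :
    g ∈ resid p G₁ ↔ ∀ M, PM p G₁ M → g ∈ M := by
  simp [resid, Subgroup.mem_sInf]

instance resid_normal (p : ℕ) (G₁ : Subgroup H) : (resid p G₁).Normal where
  conj_mem := by
    intro n hn g
    rw [mem_resid] at *
    intro M hM
    exact hM.normal.conj_mem n (hn M hM) g

lemma resid_le {p : ℕ} {G₁ M : Subgroup H} (h : PM p G₁ M) : resid p G₁ ≤ M :=
  fun _ hg => mem_resid.1 hg M h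

lemma exists_PM_avoid {p : ℕ} {G₁ : Subgroup H} (h : G₁.Normal) (h' : G₁.FiniteIndex)
    (S : Finset H) : ∃ M, PM p G₁ M ∧ ∀ g ∈ S, g ∈ M → g ∈ resid p G₁ := by
  classical
  induction S using Finset.induction_on with
  | empty => exact ⟨G₁, PM.self h h', by simp⟩
  | insert a S _ ih =>
    obtain ⟨M, hM, hS⟩ := ih
    by_cases ha : a ∈ resid p G₁
    · refine ⟨M, hM, ?_⟩
      intro g hg hgM
      rcases Finset.mem_insert.1 hg with rfl | hg
      · exact ha
      · exact hS g hg hgM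
    · rw [mem_resid] at ha
      push Not at ha
      obtain ⟨M', hM', haM'⟩ := ha
      refine ⟨M ⊓ M', hM.inf hM', ?_⟩
      rintro g hg ⟨hgM, hgM'⟩
      rcases Finset.mem_insert.1 hg with rfl | hg
      · exact absurd hgM' haM'
      · exact hS g hg hgM

lemma gm_coeff (k : Type) [CommRing k] {P : Type} [Group P] [DecidableEq P] (π : H →* P)
    (r : MonoidAlgebra ℤ H) (q : P) :
    (gm k π r).coeff q = r.coeff.sum fun w n => if π w = q then (n : k) else 0 := by
  induction r using MonoidAlgebra.induction_linear with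
  | zero => simp
  | add a b ha hb =>
    rw [map_add, MonoidAlgebra.coeff_add, MonoidAlgebra.coeff_add, Finsupp.add_apply, ha, hb,
      Finsupp.sum_add_index']
    · intro w; simp
    · intro w m n
      split_ifs <;> simp
  | single g n =>
    rw [gm_single, MonoidAlgebra.coeff_single, MonoidAlgebra.coeff_single,
      Finsupp.sum_single_index (by simp), Finsupp.single_apply]

/-- Separation. -/
lemma separation {p : ℕ} [hp : Fact p.Prime] {G₁ : Subgroup H} (h : G₁.Normal)
    (h' : G₁.FiniteIndex) (r : MonoidAlgebra ℤ H)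
    (hr : ∀ (M : Subgroup H) [M.Normal], PM p G₁ M → ∀ j : ℕ,
      gm (ZMod (p ^ j)) (QuotientGroup.mk' M) r = 0) :
    gm ℤ (QuotientGroup.mk' (resid p G₁)) r = 0 := by
  classical
  ext q
  obtain ⟨g, rfl⟩ := QuotientGroup.mk'_surjective _ q
  rw [gm_coeff]
  obtain ⟨M, hM, hS⟩ := exists_PM_avoid (p := p) h h' (r.coeff.support.image fun w => w * g⁻¹)
  have hMn := hM.normal
  have key : (r.coeff.sum fun w n => if QuotientGroup.mk' (resid p G₁) w
      = QuotientGroup.mk' (resid p G₁) g then (Int.cast n : ℤ) else 0)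
      = (r.coeff.sum fun w n => if QuotientGroup.mk' M w = QuotientGroup.mk' M g then n else 0) := by
    refine Finset.sum_congr rfl fun w hw => ?_
    have h1 : (QuotientGroup.mk' (resid p G₁) w = QuotientGroup.mk' (resid p G₁) g) ↔
        (QuotientGroup.mk' M w = QuotientGroup.mk' M g) := by
      rw [QuotientGroup.mk'_apply, QuotientGroup.mk'_apply, QuotientGroup.mk'_apply,
        QuotientGroup.mk'_apply, QuotientGroup.eq_iff_div_mem, QuotientGroup.eq_iff_div_mem,
        div_eq_mul_inv]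
      constructor
      · intro h2; exact resid_le hM h2
      · intro h2; exact hS _ (Finset.mem_image_of_mem _ hw) h2
    simp only [h1, Int.cast_id]
  rw [key, MonoidAlgebra.coeff_zero, Finsupp.coe_zero, Pi.zero_apply]
  set c := (r.coeff.sum fun w n => if QuotientGroup.mk' M w = QuotientGroup.mk' M g then n else 0)
    with hc
  have hcj : ∀ j : ℕ, ((p ^ j : ℕ) : ℤ) ∣ c := by
    intro j
    have h2 := congrArg (fun x : MonoidAlgebra (ZMod (p ^ j)) (H ⧸ M) =>
      x.coeff (QuotientGroup.mk' M g)) (hr M hM j)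
    simp only [gm_coeff, MonoidAlgebra.coeff_zero, Finsupp.coe_zero, Pi.zero_apply] at h2
    rw [← ZMod.intCast_zmod_eq_zero_iff_dvd, ← h2, hc, Finsupp.sum, Finsupp.sum, Int.cast_sum]
    refine Finset.sum_congr rfl fun w _ => ?_
    split_ifs <;> simp
  by_contra hne
  have hne' : c ≠ 0 := hne
  have h3 := Int.natAbs_dvd_natAbs.2 (hcj c.natAbs)
  rw [Int.natAbs_natCast] at h3
  have h4 := Nat.le_of_dvd (Int.natAbs_pos.2 hne') h3
  exact absurd (Nat.lt_pow_self hp.out.one_lt (n := c.natAbs)) (not_lt.2 h4)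

end Pool.Agent.H5
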