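import Mathlib
import Pool.Agent.H5.PResid
import Pool.Agent.H5.Aug

/-!
The idempotent over `ℤ[H/N]` and perfection of the residual.
-/

open MonoidAlgebra

namespace Pool.Agent.H5

variable {H : Type} [Group H]

lemma gm_el_int {P : Type} [Group P] (π : H →* P) (g : H) : gm ℤ π (el g) = el (π g) := by
  rw [gm_el]; rfl

lemma gm_surjective {P : Type} [Group P] (π : H →* P) (hπ : Function.Surjective π) :
    Function.Surjective (gm ℤ π) := by
  intro r
  induction r using MonoidAlgebra.induction_linear with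
  | zero => exact ⟨0, map_zero _⟩
  | add a b ha hb =>
    obtain ⟨a, rfl⟩ := ha
    obtain ⟨b, rfl⟩ := hb
    exact ⟨a + b, map_add _ _ _⟩
  | single q n =>
    obtain ⟨g, rfl⟩ := hπ q
    exact ⟨MonoidAlgebra.single g n, by rw [gm_single]; rfl⟩

lemma gm_eq_mapDomain {P : Type} [Group P] (π : H →* P) (r : MonoidAlgebra ℤ H) :
    gm ℤ π r = MonoidAlgebra.mapDomain π r := by
  induction r using MonoidAlgebra.induction_linear with
  | zero => simp
  | add a b ha hb => rw [map_add, MonoidAlgebra.mapDomain_add, ha, hb]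
  | single q n => rw [gm_single]; simp

/-- Induction principle for the kernel of `gm ℤ π`. -/
lemma gm_eq_zero_induction {P : Type} [Group P] (π : H →* P) {p : MonoidAlgebra ℤ H → Prop}
    (h0 : p 0) (hadd : ∀ a b, p a → p b → p (a + b)) (hneg : ∀ a, p a → p (-a))
    (hgen : ∀ g h : H, π g = π h → p (el g - el h))
    (r : MonoidAlgebra ℤ H) (hr : gm ℤ π r = 0) : p r := by
  refine mapDomain_eq_zero_induction π h0 hadd hneg hgen r ?_
  rw [← gm_eq_mapDomain, hr]

section Fin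

variable {ι : Type} [Fintype ι]

/-- Existence of a finite set of generators modulo `p` over the finite quotient `H/G₁`. -/
lemma exists_kappa (K : Submodule (MonoidAlgebra ℤ H) (ι → MonoidAlgebra ℤ H))
    {k : Type} [CommRing k] [Finite k] {P : Type} [Group P] [Finite P] (π : H →* P) :
    ∃ κ : Finset (ι → MonoidAlgebra ℤ H), (∀ l ∈ κ, l ∈ K) ∧
      ∀ v ∈ K, ∃ l ∈ κ, v - l ∈ kerRow ι k π := by
  classical
  let f : (ι → MonoidAlgebra ℤ H) → (ι → MonoidAlgebra k P) := fun v i => gm k π (v i)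
  have hfin : (f '' (K : Set (ι → MonoidAlgebra ℤ H))).Finite := Set.toFinite _
  have hch : ∀ w : (f '' (K : Set (ι → MonoidAlgebra ℤ H))), ∃ v ∈ K, f v = w := fun w => w.2
  choose c hcK hc using hch
  have hfin' : Finite (f '' (K : Set (ι → MonoidAlgebra ℤ H))) := hfin
  refine ⟨(Set.toFinite (Set.range c)).toFinset, ?_, ?_⟩
  · intro l hl
    rw [Set.Finite.mem_toFinset] at hl
    obtain ⟨w, rfl⟩ := hl
    exact hcK w
  · intro v hv
    refine ⟨c ⟨f v, ⟨v, hv, rfl⟩⟩, ?_, ?_⟩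
    · rw [Set.Finite.mem_toFinset]
      exact ⟨_, rfl⟩
    · intro i
      have := congrFun (hc ⟨f v, ⟨v, hv, rfl⟩⟩) i
      rw [Pi.sub_apply, map_sub, sub_eq_zero]
      exact this.symm

/-- A matrix `θ` with rows in `K` acting as the identity on the image of `K` over `H/N`. -/
lemma exists_theta {K : Submodule (MonoidAlgebra ℤ H) (ι → MonoidAlgebra ℤ H)}
    (hvil : ∀ s : Finset (ι → MonoidAlgebra ℤ H), (∀ k ∈ s, k ∈ K) →
      ∃ θ : Matrix ι ι (MonoidAlgebra ℤ H), (∀ i, θ i ∈ K) ∧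
      ∀ k ∈ s, Matrix.vecMul k θ = k)
    (p : ℕ) [hp : Fact p.Prime] (G₁ : Subgroup H) [hG : G₁.Normal] [hG' : G₁.FiniteIndex] :
    ∃ θ : Matrix ι ι (MonoidAlgebra ℤ H), (∀ i, θ i ∈ K) ∧
      ∀ k ∈ K, ∀ (M : Subgroup H) [M.Normal], PM p G₁ M → ∀ j : ℕ,
        Matrix.vecMul k θ - k ∈ kerRow ι (ZMod (p ^ j)) (QuotientGroup.mk' M) := by
  classical
  obtain ⟨κ, hκ, hgen⟩ := exists_kappa K (k := ZMod p) (QuotientGroup.mk' G₁)
  obtain ⟨θ, hθ, hfix⟩ := hvil κ hκ
  refine ⟨θ, hθ, ?_⟩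
  intro k hk M hMn hM j
  have := hM.fin
  have hvil1 : ∀ k ∈ K, ∃ θ : Matrix ι ι (MonoidAlgebra ℤ H), (∀ i, θ i ∈ K) ∧
      Matrix.vecMul k θ = k := by
    intro k hk
    obtain ⟨θ, h1, h2⟩ := hvil {k} (by simpa using hk)
    exact ⟨θ, h1, h2 k (by simp)⟩
  have h1 := nakayama hvil1 G₁ M hM.pow j κ hκ hgen hk
  obtain ⟨c, hc, v, hv, rfl⟩ := Submodule.mem_sup.1 h1
  have h2 : Matrix.vecMul c θ = c := by
    clear hk h1
    induction hc using Submodule.span_induction with
    | mem x hx => exact hfix x hx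
    | zero => simp
    | add x y _ _ hx hy => rw [Matrix.add_vecMul, hx, hy]
    | smul a x _ hx => rw [Matrix.smul_vecMul, hx]
  rw [Matrix.add_vecMul, h2]
  have h3 : c + Matrix.vecMul v θ - (c + v) = Matrix.vecMul v θ - v := by abel
  rw [h3]
  exact Submodule.sub_mem _ (kerRow_vecMul hv θ) hv

end Fin

/-- A derivation to a finite abelian `p`-group on which `M` acts trivially vanishes on the
residual. -/
lemma derivation_resid {A : Type} [AddCommGroup A] [Finite A] {p j : ℕ}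
    (hA : ∀ a : A, (p ^ j) • a = 0) {G₁ M : Subgroup H} (hM : PM p G₁ M)
    (α : H →* AddMonoid.End A) (hα : ∀ m ∈ M, ∀ a : A, α m a = a) (E : H → A)
    (hE : ∀ a b, E (a * b) = E a + α a (E b)) {g : H} (hg : g ∈ resid p G₁) : E g = 0 := by
  have hMf := hM.fin
  have hE1 : E 1 = 0 := by
    have h1 := hE 1 1
    rw [mul_one, hα 1 M.one_mem] at h1
    exact left_eq_add.1 h1
  -- restricted to `M`, it is a homomorphism to a finite group
  let φ : M →* Multiplicative A :=
    { toFun := fun m => Multiplicative.ofAdd (E m)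
      map_one' := by
        change Multiplicative.ofAdd (E 1) = 1
        rw [hE1]; rfl
      map_mul' := by
        intro a b
        change Multiplicative.ofAdd (E (a * b)) = _
        rw [hE, hα a a.2]
        rfl }
  have hφ : ∀ m : M, φ m = 1 ↔ E m = 0 := fun m => Iff.rfl
  let M' : Subgroup H := φ.ker.map M.subtype
  have hmem : ∀ g, g ∈ M' ↔ g ∈ M ∧ E g = 0 := by
    intro g
    constructor
    · rintro ⟨m, hm, rfl⟩
      exact ⟨m.2, (hφ m).1 hm⟩
    · rintro ⟨h1, h2⟩
      exact ⟨⟨g, h1⟩, (hφ ⟨g, h1⟩).2 h2, rfl⟩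
  have hPM : PM p G₁ M' := by
    refine ⟨⟨?_⟩, ?_, ?_, ?_⟩
    · intro n hn a
      rw [hmem] at hn ⊢
      obtain ⟨h1, h2⟩ := hn
      have hMn : M.Normal := hM.normal
      refine ⟨hMn.conj_mem n h1 a, ?_⟩
      have h3 : E (a * n) = E a := by rw [hE, h2, map_zero, add_zero]
      have h4 : ∀ c, α (a * n) c = α a c := by
        intro c
        rw [map_mul]
        change α a (α n c) = α a c
        rw [hα n h1]
      have h5 := hE (a * n) a⁻¹
      have h6 := hE a a⁻¹
      rw [mul_inv_cancel, hE1] at h6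
      rw [h5, h3, h4, ← h6]
    · constructor
      have h1 : φ.ker.FiniteIndex := inferInstance
      have h2 : M'.relIndex M ≠ 0 := by
        have h3 : M'.subgroupOf M = φ.ker := by
          ext m
          rw [Subgroup.mem_subgroupOf, hmem]
          exact ⟨fun h => (hφ m).2 h.2, fun h => ⟨m.2, (hφ m).1 h⟩⟩
        rw [Subgroup.relIndex, h3]
        exact h1.index_ne_zero
      have h4 : M' ≤ M := fun g hg => ((hmem g).1 hg).1
      rw [← Subgroup.relIndex_mul_index h4]
      exact mul_ne_zero h2 hMf.index_ne_zero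
    · intro g hg
      exact hM.le ((hmem g).1 hg).1
    · intro g hg
      obtain ⟨r, hr⟩ := hM.pow g hg
      refine ⟨r + j, ?_⟩
      rw [pow_add, pow_mul, hmem]
      refine ⟨M.pow_mem hr _, ?_⟩
      have h1 : φ (⟨g ^ p ^ r, hr⟩ ^ p ^ j) = 1 := by
        rw [map_pow]
        exact hA (E (g ^ p ^ r))
      exact (hφ _).1 h1
  exact ((hmem g).1 (resid_le hPM hg)).2

section Main

variable {ι : Type} [Fintype ι] {x : ι → H}
  {D : H → ι → MonoidAlgebra ℤ H} (hD : ∀ g, D g ⬝ᵥ colX x = el g - 1)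
  {p : ℕ} [hp : Fact p.Prime] {G₁ : Subgroup H} [hG : G₁.Normal] [hG' : G₁.FiniteIndex]
  {θ : Matrix ι ι (MonoidAlgebra ℤ H)} (hθ : ∀ i, θ i ∈ relMod x)
  (hfix : ∀ k ∈ relMod x, ∀ (M : Subgroup H) [M.Normal], PM p G₁ M → ∀ j : ℕ,
        Matrix.vecMul k θ - k ∈ kerRow ι (ZMod (p ^ j)) (QuotientGroup.mk' M))

include hG hG' hfix in
/-- `θ` fixes the image of `K` over `H/N`. -/
lemma fix_int (k : ι → MonoidAlgebra ℤ H) (hk : k ∈ relMod x) :
    Matrix.vecMul k θ - k ∈ kerRow ι ℤ (QuotientGroup.mk' (resid p G₁)) := by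
  intro i
  refine separation hG hG' _ ?_
  intro M _ hM j
  exact hfix k hk M hM j i

lemma natCast_pow_eq_zero (p j : ℕ) (P : Type) [Group P] :
    ((p ^ j : ℕ) : MonoidAlgebra (ZMod (p ^ j)) P) = 0 := by
  have h0 : ((p ^ j : ℕ) : ZMod (p ^ j)) = 0 := ZMod.natCast_self _
  have h1 := congrArg (algebraMap (ZMod (p ^ j)) (MonoidAlgebra (ZMod (p ^ j)) P)) h0
  rw [map_natCast, map_zero] at h1
  exact h1

variable [DecidableEq ι]

include hG hG' hfix hD in
/-- The derivation `D (1 - θ)` vanishes on the residual, over `ℤ[H/N]`. -/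
lemma resid_row (g : H) (hg : g ∈ resid p G₁) :
    Matrix.vecMul (D g) (1 - θ) ∈ kerRow ι ℤ (QuotientGroup.mk' (resid p G₁)) := by
  classical
  intro i
  refine separation hG hG' _ ?_
  intro M _ hM j
  revert i
  -- the derivation over `S = ℤ/p^j [H/M]`
  have hMf := hM.fin
  have hne : NeZero (p ^ j) := ⟨pow_ne_zero _ hp.out.ne_zero⟩
  let π := gm (ZMod (p ^ j)) (QuotientGroup.mk' M)
  let E : H → ι → MonoidAlgebra (ZMod (p ^ j)) (H ⧸ M) :=
    fun g i => π (Matrix.vecMul (D g) (1 - θ) i)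
  have hE : ∀ a b : H, E (a * b) = E a + π (el a) • E b := by
    intro a b
    funext i
    have h1 := defect_mem (x := x) hD (a, b)
    have h2 := hfix _ h1 M hM j i
    have h3 : Matrix.vecMul (defect D (a, b)) θ - defect D (a, b)
        = Matrix.vecMul (D (a * b)) (1 - θ) - Matrix.vecMul (D a) (1 - θ)
          - el a • Matrix.vecMul (D b) (1 - θ) := by
      rw [defect, Matrix.vecMul_sub, Matrix.vecMul_sub, Matrix.vecMul_sub, Matrix.vecMul_one,
        Matrix.vecMul_one, Matrix.vecMul_one, Matrix.add_vecMul, Matrix.sub_vecMul,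
        Matrix.smul_vecMul, smul_sub]
      abel
    rw [h3, Pi.sub_apply, Pi.sub_apply, map_sub, map_sub, Pi.smul_apply, smul_eq_mul, map_mul,
      sub_sub, sub_eq_zero] at h2
    exact h2
  let α : H →* AddMonoid.End (ι → MonoidAlgebra (ZMod (p ^ j)) (H ⧸ M)) :=
    (DistribMulAction.toAddMonoidEnd (MonoidAlgebra (ZMod (p ^ j)) (H ⧸ M))
      (ι → MonoidAlgebra (ZMod (p ^ j)) (H ⧸ M))).comp
      ((π : MonoidAlgebra ℤ H →* MonoidAlgebra (ZMod (p ^ j)) (H ⧸ M)).comp (MonoidAlgebra.of ℤ H))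
  have hα : ∀ (a : H) (c : ι → MonoidAlgebra (ZMod (p ^ j)) (H ⧸ M)), α a c = π (el a) • c :=
    fun _ _ => rfl
  have hA : ∀ y : ι → MonoidAlgebra (ZMod (p ^ j)) (H ⧸ M), (p ^ j) • y = 0 := by
    intro y
    funext i
    rw [Pi.smul_apply, nsmul_eq_mul, natCast_pow_eq_zero, zero_mul]
    rfl
  have hfinal : E g = 0 := by
    refine derivation_resid hA hM α ?_ E hE hg
    intro m hm a
    rw [hα]
    have : π (el m) = 1 := by
      change gm (ZMod (p ^ j)) (QuotientGroup.mk' M) (el m) = 1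
      rw [gm_el, QuotientGroup.mk'_apply, (QuotientGroup.eq_one_iff m).2 hm]
      rfl
    rw [this, one_smul]
  intro i
  exact congrFun hfinal i

end Main

end Pool.Agent.H5
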