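import Mathlib
import Pool.Agent.H5.Bound
import Pool.Agent.H5.PMain

/-!
Finitely generated residually finite groups with `Pr` are free.
-/

namespace Pool.Agent.H5

open MonoidAlgebra

/-- A family of two subgroups has the extension property. -/
lemma ext_of_bijective {V : Type} [Group V] {K : Bool → Subgroup V}
    (hK : Function.Bijective (Monoid.CoprodI.lift fun i => (K i).subtype))
    {W : Type} [Group W] (f : ∀ i, K i →* W) : ∃ F : V →* W, ∀ i (k : K i), F k = f i k := by
  let e := MulEquiv.ofBijective _ hK
  refine ⟨(Monoid.CoprodI.lift f).comp e.symm.toMonoidHom, ?_⟩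
  intro i k
  have h1 : e.symm (k : V) = Monoid.CoprodI.of (M := fun i => K i) (i := i) k := by
    rw [MulEquiv.symm_apply_eq]
    change (k : V) = Monoid.CoprodI.lift (fun i => (K i).subtype)
      (Monoid.CoprodI.of (M := fun i => K i) (i := i) k)
    rw [Monoid.CoprodI.lift_of]
    rfl
  change Monoid.CoprodI.lift f (e.symm (k : V)) = _
  rw [h1, Monoid.CoprodI.lift_of]

lemma exists_retraction {V : Type} [Group V] {K : Bool → Subgroup V}
    (hK : Function.Bijective (Monoid.CoprodI.lift fun i => (K i).subtype)) (i : Bool) :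
    ∃ ρ : V →* K i, ∀ k : K i, ρ k = k := by
  cases i
  · obtain ⟨F, hF⟩ := ext_of_bijective hK (W := K false)
      (fun j => match j with
        | true => 1
        | false => MonoidHom.id _)
    exact ⟨F, hF false⟩
  · obtain ⟨F, hF⟩ := ext_of_bijective hK (W := K true)
      (fun j => match j with
        | true => MonoidHom.id _
        | false => 1)
    exact ⟨F, hF true⟩

lemma aug_gm {V P : Type} [Group V] [Group P] (π : V →* P) (r : MonoidAlgebra ℤ V) :
    aug P (gm ℤ π r) = aug V r := by
  induction r using MonoidAlgebra.induction_linear with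
  | zero => simp
  | add a b ha hb => rw [map_add, map_add, map_add, ha, hb]
  | single g n => rw [gm_single]; simp

lemma Pr.retract {V : Type} [Group V] {n : ℕ} (hP : Pr V n) (K : Subgroup V) (ρ : V →* K)
    (hρ : ∀ k : K, ρ k = k) : Pr K n := by
  obtain ⟨D, c, hD, hDc, hc⟩ := hP
  refine ⟨fun k i => gm ℤ ρ (D k i), fun i => gm ℤ ρ (c i), ?_, ?_, ?_⟩
  · intro g h
    funext i
    change gm ℤ ρ (D ((g * h : K) : V) i) = gm ℤ ρ (D g i) + el g * gm ℤ ρ (D h i)
    have h1 : D ((g * h : K) : V) i = D g i + el (g : V) * D h i := congrFun (hD g h) i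
    rw [h1, map_add, map_mul, gm_el_int, hρ]
  · intro h
    have h1 := congrArg (gm ℤ ρ) (hDc h)
    rw [dotProduct, map_sum, map_sub, map_one, gm_el_int, hρ] at h1
    rw [← h1, dotProduct]
    refine Finset.sum_congr rfl fun i _ => ?_
    rw [map_mul]
  · intro i
    rw [aug_gm, hc i]

lemma ResFin.subgroup {V : Type} [Group V] (hV : ResFin V) (K : Subgroup V) : ResFin K := by
  intro g hg
  obtain ⟨L, hL, hgL⟩ := hV g (fun h => hg (Subtype.ext h))
  refine ⟨L.subgroupOf K, inferInstance, ?_⟩
  rw [Subgroup.mem_subgroupOf]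
  exact hgL

lemma gen_retract {V : Type} [Group V] {d : ℕ} {x : Fin d → V}
    (hx : Subgroup.closure (Set.range x) = ⊤) (K : Subgroup V) (ρ : V →* K)
    (hρ : ∀ k : K, ρ k = k) : Subgroup.closure (Set.range fun i => ρ (x i)) = ⊤ := by
  have h1 : Set.range (fun i => ρ (x i)) = ρ '' Set.range x := by
    rw [← Set.range_comp]; rfl
  rw [h1, ← MonoidHom.map_closure, hx, ← MonoidHom.range_eq_map, MonoidHom.range_eq_top]
  exact fun k => ⟨k, hρ k⟩

lemma Ind.extend {V : Type} [Group V] {K : Bool → Subgroup V} (hKne : ∀ i, K i ≠ ⊥)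
    (hK : Function.Bijective (Monoid.CoprodI.lift fun i => (K i).subtype)) (i : Bool) {m : ℕ}
    (hI : Ind (K i) m) : Ind V (m + 1) := by
  obtain ⟨B, hB, hext⟩ := hI
  refine ⟨Fin.cons (K (!i)) fun j => (B j).map (K i).subtype, ?_, ?_⟩
  · intro j
    refine Fin.cases ?_ ?_ j
    · exact hKne _
    · intro j
      rw [Fin.cons_succ, Ne, Subgroup.map_eq_bot_iff_of_injective _ (K i).subtype_injective]
      exact hB j
  · intro W _ f
    -- the homomorphism on `K i`
    let g : ∀ j : Fin m, B j →* W := fun j =>
      (show (B j).map (K i).subtype →* W from f j.succ).comp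
        ((B j).equivMapOfInjective (K i).subtype (K i).subtype_injective).toMonoidHom
    obtain ⟨F1, hF1⟩ := hext W g
    let F0 : K (!i) →* W := f 0
    obtain ⟨F, hF⟩ : ∃ F : V →* W, (∀ k : K i, F k = F1 k) ∧ ∀ k : K (!i), F k = F0 k := by
      cases i
      · obtain ⟨F, hF⟩ := ext_of_bijective hK (W := W) (fun j => match j with
          | true => F0
          | false => F1)
        exact ⟨F, hF false, hF true⟩
      · obtain ⟨F, hF⟩ := ext_of_bijective hK (W := W) (fun j => match j with
          | true => F1
          | false => F0)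
        exact ⟨F, hF true, hF false⟩
    refine ⟨F, ?_⟩
    intro j
    refine Fin.cases ?_ ?_ j
    · intro b
      exact hF.2 b
    · intro j b
      obtain ⟨b', hb'⟩ : ∃ b' : B j, ((b' : K i) : V) = (b : V) := by
        obtain ⟨_, b', hb', rfl⟩ := b
        exact ⟨⟨b', hb'⟩, rfl⟩
      have h1 : F (b : V) = F1 (b' : K i) := by rw [← hb']; exact hF.1 _
      rw [h1, hF1]
      change f j.succ _ = f j.succ b
      congr 1
      exact Subtype.ext hb'

/-- Induction. -/
theorem free_of_Pr_aux (d n : ℕ) (m : ℕ) : ∀ (V : Type) [Group V] (_ : Pr V n) (_ : ResFin V)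
    (x : Fin d → V) (_ : Subgroup.closure (Set.range x) = ⊤) (_ : ∀ m', Ind V m' → m' ≤ m),
    IsFreeGroup V := by
  classical
  induction m using Nat.strong_induction_on with
  | _ m ih =>
    intro V _ hP hR x hx hI
    rcases subsingleton_or_nontrivial V with hs | hn
    · exact IsFreeGroup.ofMulEquiv (G := FreeGroup Empty) (H := V)
        { toFun := fun _ => 1
          invFun := fun _ => 1
          left_inv := fun _ => Subsingleton.elim _ _
          right_inv := fun _ => Subsingleton.elim _ _
          map_mul' := fun _ _ => Subsingleton.elim _ _ }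
    · have htf := hP.torsionfree
      have hinf : Infinite V := by
        obtain ⟨g, hg⟩ := exists_ne (1 : V)
        have h1 : ¬ IsOfFinOrder g := fun h => hg (htf g h)
        exact Infinite.of_injective _ (injective_pow_iff_not_isOfFinOrder.2 h1)
      -- a symmetric generating set
      let S : Finset V := Finset.univ.image x
      let T : Finset V := S ∪ S.image (fun s => s⁻¹)
      have hT : ∀ s ∈ T, s⁻¹ ∈ T := by
        intro s hs
        rcases Finset.mem_union.1 hs with hs | hs
        · exact Finset.mem_union_right _ (Finset.mem_image_of_mem _ hs)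
        · obtain ⟨t, ht, rfl⟩ := Finset.mem_image.1 hs
          rw [inv_inv]; exact Finset.mem_union_left _ ht
      have hgen : Subgroup.closure (T : Set V) = ⊤ := by
        rw [eq_top_iff, ← hx]
        refine Subgroup.closure_mono ?_
        rintro _ ⟨i, rfl⟩
        rw [Finset.mem_coe, Finset.mem_union]
        exact Or.inl (Finset.mem_image_of_mem _ (Finset.mem_univ i))
      obtain ⟨F₀, hF₀⟩ := hP.exists_cut hT hgen
      rcases stallings hT hgen htf hF₀ with hsplit | hcyc
      · obtain ⟨K, hKne, hK⟩ := hsplit
        have hfree : ∀ i, IsFreeGroup (K i) := by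
          intro i
          obtain ⟨ρ, hρ⟩ := exists_retraction hK i
          have h0 : 1 ≤ m := by
            apply hI
            refine Ind.extend hKne hK i (m := 0) ?_
            exact ⟨fun j => j.elim0, fun j => j.elim0, fun W _ f => ⟨1, fun j => j.elim0⟩⟩
          refine ih (m - 1) (by omega) (K i) (hP.retract (K i) ρ hρ) (hR.subgroup (K i))
            (fun j => ρ (x j)) (gen_retract hx (K i) ρ hρ) ?_
          intro m' hm'
          have := hI _ (Ind.extend hKne hK i hm')
          omega
        exact IsFreeGroup.ofMulEquiv (MulEquiv.ofBijective _ hK)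
      · exact IsFreeGroup.ofMulEquiv
          ((FreeGroup.mulEquivIntOfUnique (α := Unit)).trans (intCyclicMulEquiv (G := V)))

/-- Finitely generated residually finite groups with `Pr` are free. -/
theorem free_of_Pr {V : Type} [Group V] {n : ℕ} (hP : Pr V n) (hR : ResFin V) {d : ℕ}
    {x : Fin d → V} (hx : Subgroup.closure (Set.range x) = ⊤) : IsFreeGroup V :=
  free_of_Pr_aux d n (4 * d) V hP hR x hx (fun _ hm' => ind_bound hR hx hm')

end Pool.Agent.H5
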