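import Mathlib
import Pool.Agent.H5.PMain
import Pool.Agent.H5.Bridge3

/-!
The residual is perfect and the quotient has cohomological dimension at most one.
-/

open MonoidAlgebra

namespace Pool.Agent.H5

variable {H : Type} [Group H]

section Psi

variable (N : Subgroup H) [hN : N.Normal]

lemma nu_mem (g : H) : g * ((QuotientGroup.mk g : H ⧸ N).out)⁻¹ ∈ N := by
  have h3 : (QuotientGroup.mk ((QuotientGroup.mk g : H ⧸ N).out) : H ⧸ N) = QuotientGroup.mk g :=
    Quotient.out_eq _
  rw [eq_comm, QuotientGroup.eq_iff_div_mem, div_eq_mul_inv] at h3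
  exact h3

/-- The `N`-part of an element of `H`, in the abelianisation of `N`. -/
noncomputable def nu (g : H) : Additive (Abelianization N) :=
  Additive.ofMul (Abelianization.of ⟨_, nu_mem N g⟩)

lemma nu_mul (n g : H) (hn : n ∈ N) :
    nu N (n * g) = Additive.ofMul (Abelianization.of ⟨n, hn⟩) + nu N g := by
  have h1 : (QuotientGroup.mk (n * g) : H ⧸ N) = QuotientGroup.mk g := by
    rw [QuotientGroup.eq_iff_div_mem]
    simpa using hn
  rw [nu, nu, ← ofMul_mul, ← map_mul]
  congr 2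
  refine Subtype.ext ?_
  change n * g * ((QuotientGroup.mk (n * g) : H ⧸ N).out)⁻¹
    = n * (g * ((QuotientGroup.mk g : H ⧸ N).out)⁻¹)
  rw [h1, mul_assoc]

/-- The linear extension of `nu`. -/
noncomputable def Psi : MonoidAlgebra ℤ H →+ Additive (Abelianization N) :=
  (Finsupp.liftAddHom fun g : H => (zmultiplesHom _ (nu N g))).comp
        (MonoidAlgebra.coeffAddEquiv (R := ℤ) (M := H)).toAddMonoidHom

lemma Psi_el (g : H) : Psi N (el g) = nu N g := by
  simp [Psi, el]

lemma Psi_ker {b : MonoidAlgebra ℤ H} (hb : gm ℤ (QuotientGroup.mk' N) b = 0) (h : H) :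
    Psi N (b * (el h - 1)) = 0 := by
  refine gm_eq_zero_induction (QuotientGroup.mk' N) (p := fun b => Psi N (b * (el h - 1)) = 0)
    (by simp) ?_ ?_ ?_ b hb
  · intro a b ha hb
    rw [add_mul, map_add, ha, hb, add_zero]
  · intro a ha
    rw [neg_mul, map_neg, ha, neg_zero]
  · intro g g' hgg
    have h1 : g * g'⁻¹ ∈ N := by
      rw [QuotientGroup.mk'_apply, QuotientGroup.mk'_apply, QuotientGroup.eq_iff_div_mem,
        div_eq_mul_inv] at hgg
      exact hgg
    have h2 := nu_mul N (g * g'⁻¹) g' h1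
    have h3 := nu_mul N (g * g'⁻¹) (g' * h) h1
    rw [inv_mul_cancel_right] at h2
    rw [show g * g'⁻¹ * (g' * h) = g * h by group] at h3
    have h4 : (el g - el g') * (el h - 1) = el (g * h) - el (g' * h) - (el g - el g') := by
      rw [el_mul, el_mul]; noncomm_ring
    rw [h4, map_sub, map_sub, map_sub, Psi_el, Psi_el, Psi_el, Psi_el, h2, h3]
    abel

lemma perfect_of_rows {ι : Type} [Fintype ι] {x : ι → H}
    (hrow : ∀ g ∈ N, ∃ b ∈ kerRow ι ℤ (QuotientGroup.mk' N), b ⬝ᵥ colX x = el g - 1) :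
    ⁅N, N⁆ = N := by
  apply le_antisymm
  · exact Subgroup.commutator_le_right N N
  · intro g hg
    obtain ⟨b, hb, hbx⟩ := hrow g hg
    have h1 : Psi N (el g - 1) = 0 := by
      rw [← hbx, dotProduct, map_sum]
      exact Finset.sum_eq_zero fun i _ => Psi_ker N (hb i) _
    have h2 := nu_mul N g 1 hg
    rw [mul_one] at h2
    rw [← el_one, map_sub, Psi_el, Psi_el, h2, add_sub_cancel_right, ofMul_eq_zero] at h1
    have h3 : (⟨g, hg⟩ : N) ∈ commutator N := (QuotientGroup.eq_one_iff _).1 h1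
    have h4 : g ∈ (commutator N).map N.subtype := ⟨_, h3, rfl⟩
    rw [commutator_def, Subgroup.map_commutator, ← MonoidHom.range_eq_map,
      Subgroup.range_subtype] at h4
    exact h4

end Psi

section Res

variable {n : ℕ} {x : Fin n → H} (hx : Subgroup.closure (Set.range x) = ⊤)
  {N : Subgroup H} [hN : N.Normal] {θ : Matrix (Fin n) (Fin n) (MonoidAlgebra ℤ H)}
  (hθ : ∀ i, θ i ∈ relMod x)
  (hfix : ∀ k ∈ relMod x, Matrix.vecMul k θ - k ∈ kerRow (Fin n) ℤ (QuotientGroup.mk' N))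
  (hrow : ∀ g ∈ N, ∃ b ∈ kerRow (Fin n) ℤ (QuotientGroup.mk' N), b ⬝ᵥ colX x = el g - 1)

include hrow in
/-- Every element of the kernel of `ℤ[H] → ℤ[H/N]` is `b (x - 1)` with `b` in the kernel. -/
lemma exists_ker_row {r : MonoidAlgebra ℤ H} (hr : gm ℤ (QuotientGroup.mk' N) r = 0) :
    ∃ b ∈ kerRow (Fin n) ℤ (QuotientGroup.mk' N), b ⬝ᵥ colX x = r := by
  refine gm_eq_zero_induction (QuotientGroup.mk' N)
    (p := fun r => ∃ b ∈ kerRow (Fin n) ℤ (QuotientGroup.mk' N), b ⬝ᵥ colX x = r)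
    ⟨0, Submodule.zero_mem _, by simp⟩ ?_ ?_ ?_ r hr
  · rintro _ _ ⟨a, ha, rfl⟩ ⟨b, hb, rfl⟩
    exact ⟨a + b, Submodule.add_mem _ ha hb, by rw [add_dotProduct]⟩
  · rintro _ ⟨a, ha, rfl⟩
    exact ⟨-a, Submodule.neg_mem _ ha, by rw [neg_dotProduct]⟩
  · intro g g' hgg
    have h1 : g'⁻¹ * g ∈ N := by
      rw [QuotientGroup.mk'_apply, QuotientGroup.mk'_apply, eq_comm, QuotientGroup.eq] at hgg
      exact hgg
    obtain ⟨b, hb, hbx⟩ := hrow _ h1
    refine ⟨el g' • b, Submodule.smul_mem _ _ hb, ?_⟩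
    rw [smul_dotProduct, hbx, smul_eq_mul, mul_sub, ← el_mul, mul_inv_cancel_left, mul_one]

/-- The matrix over `ℤ[H/N]`. -/
noncomputable def thetaV (N : Subgroup H) [N.Normal]
    (θ : Matrix (Fin n) (Fin n) (MonoidAlgebra ℤ H)) :
    Matrix (Fin n) (Fin n) (MonoidAlgebra ℤ (H ⧸ N)) :=
  θ.map (gm ℤ (QuotientGroup.mk' N))

lemma vecMul_thetaV (v : Fin n → MonoidAlgebra ℤ H) :
    Matrix.vecMul (fun i => gm ℤ (QuotientGroup.mk' N) (v i)) (thetaV N θ)
      = fun i => gm ℤ (QuotientGroup.mk' N) (Matrix.vecMul v θ i) := by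
  funext i
  rw [RingHom.map_vecMul]
  rfl

lemma dot_colX (v : Fin n → MonoidAlgebra ℤ H) :
    (fun i => gm ℤ (QuotientGroup.mk' N) (v i)) ⬝ᵥ colX (fun i => QuotientGroup.mk' N (x i))
      = gm ℤ (QuotientGroup.mk' N) (v ⬝ᵥ colX x) := by
  rw [dotProduct, dotProduct, map_sum]
  refine Finset.sum_congr rfl fun i _ => ?_
  rw [map_mul, colX, colX, map_sub, gm_el_int, map_one]

include hrow hfix in
lemma relV_fix {v : Fin n → MonoidAlgebra ℤ (H ⧸ N)}
    (hv : v ⬝ᵥ colX (fun i => QuotientGroup.mk' N (x i)) = 0) :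
    Matrix.vecMul v (thetaV N θ) = v := by
  have hs := gm_surjective (QuotientGroup.mk' N) (QuotientGroup.mk'_surjective N)
  choose w hw using fun i => hs (v i)
  have hvw : v = fun i => gm ℤ (QuotientGroup.mk' N) (w i) := funext fun i => (hw i).symm
  rw [hvw, dot_colX] at hv
  obtain ⟨b, hb, hbx⟩ := exists_ker_row hrow hv
  have h1 : w - b ∈ relMod x := by
    rw [mem_relMod, sub_dotProduct, hbx, sub_self]
  have h2 := hfix _ h1
  have h3 : v = fun i => gm ℤ (QuotientGroup.mk' N) ((w - b) i) := by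
    rw [hvw]
    funext i
    rw [Pi.sub_apply, map_sub, hb i, sub_zero]
  rw [h3, vecMul_thetaV]
  funext i
  have h4 := h2 i
  rw [Pi.sub_apply, map_sub, sub_eq_zero] at h4
  exact h4

include hθ in
lemma thetaV_col (i : Fin n) :
    (thetaV N θ) i ⬝ᵥ colX (fun i => QuotientGroup.mk' N (x i)) = 0 := by
  have h1 := dot_colX (N := N) (x := x) (θ i)
  have h2 : θ i ⬝ᵥ colX x = 0 := hθ i
  rw [h2, map_zero] at h1
  exact h1

include hθ hfix hrow in
lemma thetaV_idem : thetaV N θ * thetaV N θ = thetaV N θ := by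
  funext i
  have h1 := relV_fix hfix hrow (thetaV_col (N := N) hθ i)
  rw [← h1]
  funext j
  simp [Matrix.mul_apply, Matrix.vecMul, dotProduct]

end Res

section AltRes

variable {V : Type} [Group V]

/-- The ranks of the resolution. -/
def mV (n : ℕ) : ℕ → ℕ
  | 0 => 1
  | (_ + 1) => n

/-- The matrices `T, 1 - T, T, …`. -/
noncomputable def altM {n : ℕ} (T : Matrix (Fin n) (Fin n) (MonoidAlgebra ℤ V)) (i : ℕ) :
    Matrix (Fin n) (Fin n) (MonoidAlgebra ℤ V) := if Even i then T else 1 - T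

lemma altM_add {n : ℕ} (T : Matrix (Fin n) (Fin n) (MonoidAlgebra ℤ V)) (i : ℕ) :
    altM T i + altM T (i + 1) = 1 := by
  unfold altM
  by_cases h : Even i
  · have h' : ¬ Even (i + 1) := by rw [Nat.even_add_one]; exact not_not.2 h
    simp [h, h']
  · have h' : Even (i + 1) := Nat.even_add_one.2 h
    simp [h, h']

lemma altM_mul {n : ℕ} {T : Matrix (Fin n) (Fin n) (MonoidAlgebra ℤ V)} (hT : T * T = T)
    (i : ℕ) : altM T (i + 1) * altM T i = 0 := by
  have h : altM T (i + 1) = 1 - altM T i := by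
    rw [eq_sub_iff_add_eq, add_comm, altM_add]
  rw [h, sub_mul, one_mul]
  unfold altM
  by_cases h : Even i
  · simp [h, hT]
  · simp only [h, if_false]
    rw [sub_mul, one_mul, mul_sub, mul_one, hT]
    abel

/-- The differentials of the resolution. -/
noncomputable def DV {n : ℕ} (y : Fin n → V) (T : Matrix (Fin n) (Fin n) (MonoidAlgebra ℤ V)) :
    ∀ i, Fin (mV n (i + 1)) → Fin (mV n i) → MonoidAlgebra ℤ V
  | 0 => fun j _ => colX y j
  | (i + 1) => fun j l => altM T i j l

/-- The resolution of `ℤ` over `ℤ[V]` defined by an idempotent. -/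
noncomputable def altRes {n : ℕ} (y : Fin n → V) (hy : Subgroup.closure (Set.range y) = ⊤)
    (T : Matrix (Fin n) (Fin n) (MonoidAlgebra ℤ V)) (hT : T * T = T)
    (hTy : ∀ i, T i ⬝ᵥ colX y = 0)
    (hfix : ∀ v : Fin n → MonoidAlgebra ℤ V, v ⬝ᵥ colX y = 0 → Matrix.vecMul v T = v) :
    MatRes ℤ V where
  m := mV n
  D := DV y T
  dd := by
    intro i
    match i with
    | 0 =>
      intro j l
      exact hTy j
    | (i + 1) =>
      intro j l
      exact congrFun (congrFun (altM_mul hT i) j) l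
  ex := by
    intro i
    match i with
    | 0 =>
      intro v hv
      change Fin n → _ at v
      have h0 : v ⬝ᵥ colX y = 0 := hv (0 : Fin 1)
      refine ⟨v, fun t => ?_⟩
      exact (congrFun (hfix v h0) t).symm
    | (i + 1) =>
      intro v hv
      change Fin n → _ at v
      have h0 : Matrix.vecMul v (altM T i) = 0 := funext hv
      refine ⟨v, fun t => ?_⟩
      have h1 : Matrix.vecMul v (altM T (i + 1)) = v := by
        have h2 := congrArg (Matrix.vecMul v) (altM_add T i)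
        rw [Matrix.vecMul_add, h0, zero_add, Matrix.vecMul_one] at h2
        exact h2
      exact (congrFun h1 t).symm
  d0 := by
    intro t
    change ∑ l : Fin 1, augk ℤ V (el (y t) - 1) = 0
    have : augk ℤ V (el (y t)) = 1 := by simp [el]
    rw [Fin.sum_univ_one, map_sub, map_one, this, sub_self]
  ex0 := by
    intro v hv
    change Fin 1 → _ at v
    have hv' : aug V (v 0) = 0 := by
      change ∑ l : Fin 1, augk ℤ V (v l) = 0 at hv
      rw [Fin.sum_univ_one] at hv
      exact hv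
    have h1 : ∃ w : Fin n → MonoidAlgebra ℤ V, w ⬝ᵥ colX y = v 0 := by
      refine aug_eq_zero_induction (p := fun r => ∃ w : Fin n → MonoidAlgebra ℤ V, w ⬝ᵥ colX y = r)
        ⟨0, by simp⟩ ?_ ?_ ?_ (v 0) hv'
      · rintro _ _ ⟨a, rfl⟩ ⟨b, rfl⟩
        exact ⟨a + b, by rw [add_dotProduct]⟩
      · rintro _ ⟨a, rfl⟩
        exact ⟨-a, by rw [neg_dotProduct]⟩
      · intro g
        exact exists_row hy g
    obtain ⟨w, hw⟩ := h1
    refine ⟨w, fun l => ?_⟩
    change Fin 1 at l
    fin_cases l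
    exact hw.symm
  ne := by
    change 0 < 1
    exact Nat.one_pos

lemma altRes_cd {n : ℕ} (y : Fin n → V) (hy : Subgroup.closure (Set.range y) = ⊤)
    (T : Matrix (Fin n) (Fin n) (MonoidAlgebra ℤ V)) (hT : T * T = T)
    (hTy : ∀ i, T i ⬝ᵥ colX y = 0)
    (hfix : ∀ v : Fin n → MonoidAlgebra ℤ V, v ⬝ᵥ colX y = 0 → Matrix.vecMul v T = v)
    (A : Rep.{0} ℤ V) (i : ℕ) (hi : 2 ≤ i) : Subsingleton (groupCohomology A i) := by
  obtain ⟨k, rfl⟩ : ∃ k, i = (k + 1) + 1 := ⟨i - 2, by omega⟩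
  refine (altRes y hy T hT hTy hfix).subsingleton_succ A (k + 1) ?_
  intro f hf
  change Fin n → A at f
  refine ⟨f, ?_⟩
  funext j
  change Fin n at j
  have h1 : ∑ l, act A (altM T (k + 1) j l) (f l) = 0 := congrFun hf j
  have h2 : ∑ l, act A (altM T k j l) (f l) + ∑ l, act A (altM T (k + 1) j l) (f l) = f j := by
    rw [← Finset.sum_add_distrib]
    have h3 : ∀ l, act A (altM T k j l) (f l) + act A (altM T (k + 1) j l) (f l)
        = act A ((1 : Matrix (Fin n) (Fin n) (MonoidAlgebra ℤ V)) j l) (f l) := by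
      intro l
      rw [← altM_add T k, Matrix.add_apply]
      simp [act]
    rw [Finset.sum_congr rfl fun l _ => h3 l, Finset.sum_eq_single j]
    · rw [Matrix.one_apply_eq]; simp [act]
    · intro l _ hl
      rw [Matrix.one_apply_ne hl.symm]; simp [act]
    · simp
  rw [h1, add_zero] at h2
  exact h2

end AltRes

/-- Main theorem in terms of a group `H` all of whose second homology groups vanish. -/
theorem resid_perfect_cd {H : Type} [Group H]
    (hH : ∀ A : Rep.{0} ℤ H, Subsingleton (groupHomology A 2)) (hfg : Group.FG H)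
    (p : ℕ) [Fact p.Prime] (G₁ : Subgroup H) [G₁.Normal] [G₁.FiniteIndex] :
    ⁅resid p G₁, resid p G₁⁆ = resid p G₁ ∧
      ∀ (A : Rep.{0} ℤ (H ⧸ resid p G₁)) (i : ℕ), 2 ≤ i → Subsingleton (groupCohomology A i) := by
  classical
  obtain ⟨S, hS⟩ := Group.fg_def.1 hfg
  let x : Fin S.card → H := fun i => (S.equivFin.symm i : H)
  have hinj : Function.Injective x := fun i j hij =>
    S.equivFin.symm.injective (Subtype.ext hij)
  have hrange : Set.range x = S := by
    ext g
    constructor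
    · rintro ⟨i, rfl⟩; exact (S.equivFin.symm i).2
    · intro hg; exact ⟨S.equivFin ⟨g, hg⟩, by simp [x]⟩
  have hx : Subgroup.closure (Set.range x) = ⊤ := by rw [hrange]; exact hS
  obtain ⟨D, hD, -⟩ := exists_D0 hinj hx
  obtain ⟨θ, hθ, hfix⟩ := exists_theta (K := relMod x) (villamayor hH hinj hx) p G₁
  have hfix' := fun k hk => fix_int (x := x) hfix k hk
  have hrow : ∀ g ∈ resid p G₁, ∃ b ∈ kerRow (Fin S.card) ℤ (QuotientGroup.mk' (resid p G₁)),
      b ⬝ᵥ colX x = el g - 1 := by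
    intro g hg
    refine ⟨_, resid_row hD hfix g hg, ?_⟩
    rw [Matrix.vecMul_sub, Matrix.vecMul_one, sub_dotProduct, hD]
    have h1 : Matrix.vecMul (D g) θ ⬝ᵥ colX x = 0 := by
      have : Matrix.vecMul (D g) θ = ∑ i, D g i • θ i := by
        funext j
        simp [Matrix.vecMul, dotProduct]
      have h2 : Matrix.vecMul (D g) θ ∈ relMod x := by
        rw [this]
        exact Submodule.sum_mem _ fun i _ => Submodule.smul_mem _ _ (hθ i)
      exact h2
    rw [h1, sub_zero]
  refine ⟨perfect_of_rows _ hrow, ?_⟩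
  have hy : Subgroup.closure (Set.range fun i => QuotientGroup.mk' (resid p G₁) (x i)) = ⊤ := by
    rw [Set.range_comp' , ← MonoidHom.map_closure, hx]
    rw [← MonoidHom.range_eq_map, MonoidHom.range_eq_top]
    exact QuotientGroup.mk'_surjective _
  exact altRes_cd _ hy (thetaV (resid p G₁) θ) (thetaV_idem hθ hfix' hrow)
    (thetaV_col hθ) (fun v hv => relV_fix hfix' hrow hv)

end Pool.Agent.H5
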