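import Mathlib
import Pool.Agent.H5.FreeInd
import Pool.Agent.H5.PFinal

/-!
The finite residual of a finitely generated group of homological dimension at most one is perfect
and the quotient is free.
-/

namespace Pool.Agent.H5

open MonoidAlgebra

lemma subsingleton_of_perfect_free (F : Type) [Group F] [IsFreeGroup F]
    (h : commutator F = ⊤) : Subsingleton F := by
  obtain ⟨ι, ⟨b⟩⟩ := IsFreeGroup.nonempty_basis (G := F)
  have hι : IsEmpty ι := by
    by_contra hne
    rw [not_isEmpty_iff] at hne
    obtain ⟨i⟩ := hne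
    let φ : F →* Multiplicative ℤ := b.lift fun _ => Multiplicative.ofAdd 1
    have h1 : φ (b i) = Multiplicative.ofAdd 1 := by
      change b.lift _ (b i) = _
      rw [FreeGroupBasis.lift_apply_apply, FreeGroupBasis.repr_apply_coe, FreeGroup.lift_apply_of]
    have h2 : b i ∈ commutator F := by rw [h]; trivial
    have h3 : commutator F ≤ φ.ker := Abelianization.commutator_subset_ker φ
    have h4 : φ (b i) = 1 := h3 h2
    rw [h1] at h4
    exact absurd (congrArg Multiplicative.toAdd h4) (by simp)
  have e : F ≃* FreeGroup ι := b.repr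
  have : Subsingleton (FreeGroup ι) := inferInstance
  exact e.toEquiv.subsingleton

lemma eq_bot_of_perfect_of_free {F : Type} [Group F] [IsFreeGroup F] {K : Subgroup F}
    (hK : ⁅K, K⁆ = K) : K = ⊥ := by
  have h1 : commutator K = ⊤ := by
    rw [commutator_def]
    apply Subgroup.map_injective K.subtype_injective
    rw [Subgroup.map_commutator, ← MonoidHom.range_eq_map, Subgroup.range_subtype, hK]
  have := subsingleton_of_perfect_free K h1
  rw [Subgroup.eq_bot_iff_forall]
  intro g hg
  have := Subsingleton.elim (⟨g, hg⟩ : K) 1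
  exact congrArg Subtype.val this

variable {H : Type} [Group H]

lemma resid_resFin (p : ℕ) (G₁ : Subgroup H) : ResFin (H ⧸ resid p G₁) := by
  intro v hv
  obtain ⟨g, rfl⟩ := QuotientGroup.mk'_surjective _ v
  have hg : g ∉ resid p G₁ := by
    intro h
    exact hv ((QuotientGroup.eq_one_iff g).2 h)
  rw [mem_resid] at hg
  push Not at hg
  obtain ⟨M, hM, hgM⟩ := hg
  have hMf := hM.fin
  refine ⟨M.map (QuotientGroup.mk' (resid p G₁)), ?_, ?_⟩
  · constructor
    intro h0
    apply hMf.index_ne_zero
    have h1 : M.index = (M.map (QuotientGroup.mk' (resid p G₁))).index := by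
      rw [Subgroup.index_map_eq _ (QuotientGroup.mk'_surjective _)]
      rw [QuotientGroup.ker_mk']
      exact resid_le hM
    rw [h1, h0]
  · rintro ⟨m, hm, hmg⟩
    apply hgM
    have h1 : m⁻¹ * g ∈ resid p G₁ := QuotientGroup.eq.1 hmg
    have h2 := M.mul_mem hm (resid_le hM h1)
    rwa [mul_inv_cancel_left] at h2

/-- The quotient by the residual is free. -/
theorem resid_quot_free (hH : ∀ A : Rep.{0} ℤ H, Subsingleton (groupHomology A 2))
    (hfg : Group.FG H) (p : ℕ) [Fact p.Prime] (G₁ : Subgroup H) [G₁.Normal] [G₁.FiniteIndex] :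
    IsFreeGroup (H ⧸ resid p G₁) := by
  classical
  obtain ⟨S, hS⟩ := Group.fg_def.1 hfg
  let x : Fin S.card → H := fun i => (S.equivFin.symm i : H)
  have hinj : Function.Injective x := fun i j hij =>
    S.equivFin.symm.injective (Subtype.ext hij)
  have hrange : Set.range x = S := by
    ext g
    constructor
    · rintro ⟨i, rfl⟩; exact (S.equivFin.symm i).2
    · intro hg; exact ⟨S.equivFin ⟨g, hg⟩, by simp [x]⟩
  have hx : Subgroup.closure (Set.range x) = ⊤ := by rw [hrange]; exact hS
  obtain ⟨D, hD, -⟩ := exists_D0 hinj hx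
  obtain ⟨θ, hθ, hfix⟩ := exists_theta (K := relMod x) (villamayor hH hinj hx) p G₁
  have hfix' := fun k hk => fix_int (x := x) hfix k hk
  have hrow := resid_row hD hfix
  let N := resid p G₁
  let E : H → Fin S.card → MonoidAlgebra ℤ (H ⧸ N) :=
    fun g i => gm ℤ (QuotientGroup.mk' N) (Matrix.vecMul (D g) (1 - θ) i)
  have hE : ∀ a b : H, E (a * b) = E a + el (QuotientGroup.mk' N a) • E b := by
    intro a b
    funext i
    have h1 := defect_mem (x := x) hD (a, b)
    have h2 := hfix' _ h1 i
    have h3 : Matrix.vecMul (defect D (a, b)) θ - defect D (a, b)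
        = Matrix.vecMul (D (a * b)) (1 - θ) - Matrix.vecMul (D a) (1 - θ)
          - el a • Matrix.vecMul (D b) (1 - θ) := by
      rw [defect, Matrix.vecMul_sub, Matrix.vecMul_sub, Matrix.vecMul_sub, Matrix.vecMul_one,
        Matrix.vecMul_one, Matrix.vecMul_one, Matrix.add_vecMul, Matrix.sub_vecMul,
        Matrix.smul_vecMul, smul_sub]
      abel
    rw [h3, Pi.sub_apply, Pi.sub_apply, map_sub, map_sub, Pi.smul_apply, smul_eq_mul, map_mul,
      sub_sub, sub_eq_zero, gm_el_int] at h2
    exact h2
  have hEN : ∀ g ∈ N, E g = 0 := fun g hg => funext fun i => hrow g hg i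
  have hEout : ∀ g, E ((QuotientGroup.mk' N g).out) = E g := by
    intro g
    have h1 : g⁻¹ * (QuotientGroup.mk' N g).out ∈ N := by
      have h3 : (QuotientGroup.mk ((QuotientGroup.mk' N g).out) : H ⧸ N) = QuotientGroup.mk g :=
        Quotient.out_eq _
      exact QuotientGroup.eq.1 h3.symm
    have h2 := hE g (g⁻¹ * (QuotientGroup.mk' N g).out)
    rw [mul_inv_cancel_left, hEN _ h1, smul_zero, add_zero] at h2
    exact h2
  have hP : Pr (H ⧸ N) S.card := by
    refine ⟨fun v => E v.out, colX (fun i => QuotientGroup.mk' N (x i)), ?_, ?_, ?_⟩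
    · intro v w
      obtain ⟨a, rfl⟩ := QuotientGroup.mk'_surjective _ v
      obtain ⟨b, rfl⟩ := QuotientGroup.mk'_surjective _ w
      beta_reduce
      rw [← map_mul, hEout, hEout, hEout, hE]
    · intro v
      obtain ⟨a, rfl⟩ := QuotientGroup.mk'_surjective _ v
      beta_reduce
      rw [hEout]
      have h1 := dot_colX (N := N) (x := x) (Matrix.vecMul (D a) (1 - θ))
      have h2 : Matrix.vecMul (D a) (1 - θ) ⬝ᵥ colX x = el a - 1 := by
        rw [Matrix.vecMul_sub, Matrix.vecMul_one, sub_dotProduct, hD]
        have h1 : Matrix.vecMul (D a) θ ⬝ᵥ colX x = 0 := by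
          have : Matrix.vecMul (D a) θ = ∑ i, D a i • θ i := by
            funext j
            simp [Matrix.vecMul, dotProduct]
          have h2 : Matrix.vecMul (D a) θ ∈ relMod x := by
            rw [this]
            exact Submodule.sum_mem _ fun i _ => Submodule.smul_mem _ _ (hθ i)
          exact h2
        rw [h1, sub_zero]
      rw [h2, map_sub, map_one, gm_el_int] at h1
      exact h1
    · intro i
      rw [colX, map_sub, map_one, aug_el, sub_self]
  have hy : Subgroup.closure (Set.range fun i => QuotientGroup.mk' N (x i)) = ⊤ := by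
    rw [Set.range_comp' , ← MonoidHom.map_closure, hx]
    rw [← MonoidHom.range_eq_map, MonoidHom.range_eq_top]
    exact QuotientGroup.mk'_surjective _
  exact free_of_Pr hP (resid_resFin p G₁) hy

/-- The finite residual of a finitely generated group of homological dimension at most one
is perfect, and the quotient is free. -/
theorem finite_residual (hH : ∀ A : Rep.{0} ℤ H, Subsingleton (groupHomology A 2))
    (hfg : Group.FG H) : ∃ (N : Subgroup H) (_ : N.Normal),
      (∀ g : H, g ∈ N ↔ ∀ K : Subgroup H, K.FiniteIndex → g ∈ K) ∧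
      ⁅N, N⁆ = N ∧ IsFreeGroup (H ⧸ N) := by
  have : Fact (Nat.Prime 2) := ⟨Nat.prime_two⟩
  refine ⟨resid 2 ⊤, inferInstance, ?_, (resid_perfect_cd hH hfg 2 ⊤).1,
    resid_quot_free hH hfg 2 ⊤⟩
  intro g
  constructor
  · intro hg K hK
    have hfree := resid_quot_free hH hfg 2 K.normalCore
    let π := QuotientGroup.mk' (resid 2 K.normalCore)
    have h1 : ⁅(resid 2 (⊤ : Subgroup H)).map π, (resid 2 (⊤ : Subgroup H)).map π⁆
        = (resid 2 (⊤ : Subgroup H)).map π := by
      rw [← Subgroup.map_commutator, (resid_perfect_cd hH hfg 2 ⊤).1]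
    have h2 := eq_bot_of_perfect_of_free h1
    have h3 : π g ∈ (resid 2 (⊤ : Subgroup H)).map π := ⟨g, hg, rfl⟩
    rw [h2, Subgroup.mem_bot] at h3
    have h4 : g ∈ resid 2 K.normalCore := (QuotientGroup.eq_one_iff g).1 h3
    exact Subgroup.normalCore_le K
      (resid_le (PM.self (p := 2) (G₁ := K.normalCore) inferInstance inferInstance) h4)
  · intro hg
    rw [mem_resid]
    intro M hM
    exact hg M hM.fin

end Pool.Agent.H5
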