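import Mathlib
import Pool.Agent.H5.PResid

/-!
The family of subgroups in terms of the relative index.
-/

namespace Pool.Agent.H5

variable {H : Type} [Group H]

lemma PM_iff {p : ℕ} [hp : Fact p.Prime] {G₁ M : Subgroup H} [G₁.FiniteIndex] :
    PM p G₁ M ↔ M.Normal ∧ M ≤ G₁ ∧ ∃ r, M.relIndex G₁ = p ^ r := by
  constructor
  · intro h
    have h1 := h.normal
    have h2 := h.fin
    refine ⟨h.normal, h.le, ?_⟩
    have h3 : IsPGroup p (G₁ ⧸ M.subgroupOf G₁) := by
      intro q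
      obtain ⟨g, rfl⟩ := QuotientGroup.mk_surjective q
      obtain ⟨r, hr⟩ := h.pow g g.2
      refine ⟨r, ?_⟩
      rw [← QuotientGroup.mk_pow, QuotientGroup.eq_one_iff, Subgroup.mem_subgroupOf]
      simpa using hr
    obtain ⟨r, hr⟩ := IsPGroup.iff_card.1 h3
    exact ⟨r, hr⟩
  · rintro ⟨h1, h2, r, hr⟩
    refine ⟨h1, ?_, h2, ?_⟩
    · constructor
      rw [← Subgroup.relIndex_mul_index h2, hr]
      exact mul_ne_zero (pow_ne_zero _ hp.out.ne_zero) Subgroup.FiniteIndex.index_ne_zero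
    · intro g hg
      refine ⟨r, ?_⟩
      have h3 := Subgroup.pow_index_mem (M.subgroupOf G₁) ⟨g, hg⟩
      rw [Subgroup.mem_subgroupOf] at h3
      rw [← hr]
      exact h3

end Pool.Agent.H5
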