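import Mathlib

/-!
Passing to subgroups.
-/

open CategoryTheory

namespace Pool.Agent.H5

lemma homology_subgroup {G : Type} [Group G] {n : ℕ}
    (hG : ∀ A : Rep.{0} ℤ G, Subsingleton (groupHomology A n)) (H : Subgroup G)
    (A : Rep.{0} ℤ H) : Subsingleton (groupHomology A n) := by
  classical
  have h1 := hG (Rep.ind.{0} H.subtype A)
  exact (groupHomology.indIso H A n).toLinearEquiv.symm.toEquiv.subsingleton

end Pool.Agent.H5
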